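import Mathlib

namespace Pool.Agent.Helper42.WD

/-- The exponent: third coefficient of the logarithm, corrected. -/
def FF {R : Type} [CommRing R] (t : R →+* R) (e h1 h2 h3 : R) : R :=
  h3 - h1 * t h2 + e * h1 * t h1 * t (t h1)

theorem FF_mul_aux {R : Type} [CommRing R] (t : R →+* R) (e : R) (he3 : t (t (t e)) = e)
    (he : e + t e + t (t e) = 1) (x1 x2 x3 y1 y2 y3 : R)
    (hx1 : t (t (t x1)) = x1) (hy1 : t (t (t y1)) = y1) :
    ∃ w z z' : R, FF t e (x1 + y1) (x2 + y2 + x1 * t y1) (x3 + y3 + x1 * t y2 + x2 * t (t y1)) =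
      FF t e x1 x2 x3 + FF t e y1 y2 y3 + (w - t w) - (z - t z) - (z' - t (t z')) := by
  refine ⟨x2 * t (t y1), t (t e) * (x1 * t x1 * t (t y1) + y1 * t x1 * t (t y1)),
    t e * (x1 * t x1 * t (t y1) + y1 * t x1 * t (t y1)), ?_⟩
  simp only [FF, map_add, map_mul, he3, hx1, hy1]
  linear_combination (x1 * t x1 * t (t y1) + y1 * t x1 * t (t y1)) * he

theorem FF_char {R : Type} [CommRing R] (t : R →+* R) (e : R) (he3 : t (t (t e)) = e)
    (he : e + t e + t (t e) = 1) (L : R → ℂ) (L0 : L 0 = 1) (Ladd : ∀ x y, L (x + y) = L x * L y)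
    (Lt : ∀ x, L (t x) = L x)
    (a0 a1 a2 a3 b0 b1 b2 b3 ia ib : R) (ha : ia * a0 = 1) (hb : ib * b0 = 1)
    (fa0 : t (t (t a0)) = a0) (fa1 : t (t (t a1)) = a1) (fb0 : t (t (t b0)) = b0)
    (fb1 : t (t (t b1)) = b1) :
    L (FF t e (ia * ib * (a0 * b1 + a1 * t b0)) (ia * ib * (a0 * b2 + a1 * t b1 + a2 * t (t b0)))
      (ia * ib * (a0 * b3 + a1 * t b2 + a2 * t (t b1) + a3 * t (t (t b0))))) =
    L (FF t e (ia * a1) (ia * a2) (ia * a3)) * L (FF t e (ib * b1) (ib * b2) (ib * b3)) := by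
  have Lne : ∀ x, L x ≠ 0 := by
    intro x h
    have h1 := Ladd x (-x)
    rw [add_neg_cancel, L0, h, zero_mul] at h1
    exact one_ne_zero h1
  have Lneg : ∀ x, L (-x) = (L x)⁻¹ := by
    intro x
    apply eq_inv_of_mul_eq_one_left
    rw [← Ladd, neg_add_cancel, L0]
  have Lsub : ∀ x y, L (x - y) = L x / L y := by
    intro x y
    rw [sub_eq_add_neg, Ladd, Lneg, div_eq_mul_inv]
  have fia : t (t (t ia)) = ia := by
    have h1 : t (t (t ia)) * a0 = 1 := by
      rw [← fa0, ← map_mul, ← map_mul, ← map_mul, ha, map_one, map_one, map_one]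
    calc t (t (t ia)) = t (t (t ia)) * (ia * a0) := by rw [ha, mul_one]
      _ = ia * (t (t (t ia)) * a0) := by ring
      _ = ia := by rw [h1, mul_one]
  have fib : t (t (t ib)) = ib := by
    have h1 : t (t (t ib)) * b0 = 1 := by
      rw [← fb0, ← map_mul, ← map_mul, ← map_mul, hb, map_one, map_one, map_one]
    calc t (t (t ib)) = t (t (t ib)) * (ib * b0) := by rw [hb, mul_one]
      _ = ib * (t (t (t ib)) * b0) := by ring
      _ = ib := by rw [h1, mul_one]
  have tb : t ib * t b0 = 1 := by rw [← map_mul, hb, map_one]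
  have ttb : t (t ib) * t (t b0) = 1 := by rw [← map_mul, tb, map_one]
  -- tilde variables
  set x1 := ib * (ia * a1) * t b0 with hx1
  set x2 := ib * (ia * a2) * t (t b0) with hx2
  set x3 := ia * a3 with hx3
  set y1 := ib * b1 with hy1
  set y2 := ib * b2 with hy2
  set y3 := ib * b3 with hy3
  have k1 : ia * ib * (a0 * b1 + a1 * t b0) = x1 + y1 := by
    rw [hx1, hy1]
    linear_combination (ib * b1) * ha
  have k2 : ia * ib * (a0 * b2 + a1 * t b1 + a2 * t (t b0)) = x2 + y2 + x1 * t y1 := by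
    rw [hx1, hx2, hy1, hy2, map_mul]
    linear_combination (ib * b2) * ha - (ib * ia * a1 * t b1) * tb
  have k3 : ia * ib * (a0 * b3 + a1 * t b2 + a2 * t (t b1) + a3 * t (t (t b0))) =
      x3 + y3 + x1 * t y2 + x2 * t (t y1) := by
    rw [hx1, hx2, hx3, hy1, hy2, hy3, map_mul, map_mul, map_mul, fb0]
    linear_combination (ib * b3) * ha - (ib * ia * a1 * t b2) * tb - (ib * ia * a2 * t (t b1)) * ttb
      + (ia * a3) * hb
  have fx1 : t (t (t x1)) = x1 := by
    rw [hx1]
    simp only [map_mul, fib, fia, fa1]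
    rw [fb0]
  have fy1 : t (t (t y1)) = y1 := by
    rw [hy1]
    simp only [map_mul, fib, fb1]
  obtain ⟨w, z, z', h⟩ := FF_mul_aux t e he3 he x1 x2 x3 y1 y2 y3 fx1 fy1
  have hF : FF t e x1 x2 x3 = FF t e (ia * a1) (ia * a2) (ia * a3) := by
    simp only [FF, hx1, hx2, hx3, map_mul, fb0]
    have e1 : ib * (ia * a1) * t b0 * (t ib * (t ia * t a2) * b0) = ia * a1 * (t ia * t a2) := by
      linear_combination (ia * a1 * t ia * t a2 * (t ib * t b0)) * hb + (ia * a1 * t ia * t a2) * tb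
    have e2 : e * (ib * (ia * a1) * t b0) * (t ib * (t ia * t a1) * t (t b0)) *
        (t (t ib) * (t (t ia) * t (t a1)) * b0) =
        e * (ia * a1) * (t ia * t a1) * (t (t ia) * t (t a1)) := by
      linear_combination (e * (ia * a1) * (t ia * t a1) * (t (t ia) * t (t a1)) *
        ((t ib * t b0) * (t (t ib) * t (t b0)))) * hb +
        (e * (ia * a1) * (t ia * t a1) * (t (t ia) * t (t a1)) * (t (t ib) * t (t b0))) * tb +
        (e * (ia * a1) * (t ia * t a1) * (t (t ia) * t (t a1))) * ttb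
    rw [e1, e2]
  rw [k1, k2, k3, h, Lsub, Lsub, Ladd, Ladd, Lsub, Lsub, Lsub, Lt, Lt, Lt, Lt, div_self (Lne _),
    div_self (Lne _), div_self (Lne _), mul_one, div_one, div_one, hF]

end Pool.Agent.Helper42.WD
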