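import Pool.Agent.Helper42.WD.Base

namespace Pool.Agent.Helper42.WD

variable {K : Type} [Field K] {c : Dat K}

namespace Cyc

@[simp] theorem sub_x0 (x y : Cyc c) : (x - y).x0 = x.x0 - y.x0 := by
  rw [sub_eq_add_neg, add_x0, neg_x0, sub_eq_add_neg]
@[simp] theorem sub_x1 (x y : Cyc c) : (x - y).x1 = x.x1 - y.x1 := by
  rw [sub_eq_add_neg, add_x1, neg_x1, sub_eq_add_neg]
@[simp] theorem sub_x2 (x y : Cyc c) : (x - y).x2 = x.x2 - y.x2 := by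
  rw [sub_eq_add_neg, add_x2, neg_x2, sub_eq_add_neg]

instance : Nontrivial (Cyc c) := ⟨⟨0, 1, fun h => zero_ne_one (congrArg Cyc.x0 h)⟩⟩

end Cyc

/-- The element `T` as a unit. -/
def TT (c : Dat K) : (Cyc c)ˣ where
  val := ⟨0, 1, 0⟩
  inv := ⟨0, 0, c.pi⁻¹⟩
  val_inv := by
    have := c.pine
    ext <;> simp [c.sigpi, this]
  inv_val := by
    have := c.pine
    ext <;> simp [this]

theorem TT_mul (x : Cyc c) : (TT c : Cyc c) * x = ⟨c.pi * c.sig x.x2, c.sig x.x0, c.sig x.x1⟩ := by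
  ext <;> simp [TT]

theorem mul_TT (x : Cyc c) : x * (TT c : Cyc c) = ⟨c.pi * x.x2, x.x0, x.x1⟩ := by
  ext <;> simp [TT]

theorem mul_TTinv (x : Cyc c) : x * ((TT c)⁻¹ : (Cyc c)ˣ) = ⟨x.x1, x.x2, x.x0 / c.pi⟩ := by
  have h : x = (⟨x.x1, x.x2, x.x0 / c.pi⟩ : Cyc c) * (TT c : Cyc c) := by
    rw [mul_TT]
    have := c.pine
    ext <;> simp
    field_simp
  conv_lhs => rw [h]
  rw [Units.mul_inv_cancel_right]

/-- Conjugation by `T`. -/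
def cj (x : Cyc c) : Cyc c := ⟨c.sig x.x0, c.sig x.x1, c.sig x.x2⟩

theorem TT_mul_eq (x : Cyc c) : (TT c : Cyc c) * x = cj x * (TT c : Cyc c) := by
  rw [TT_mul, mul_TT]
  rfl

theorem cj3 (x : Cyc c) : cj (cj (cj x)) = x := by
  ext <;> simp [cj, c.sig3]

theorem InO.cj {x : Cyc c} (h : InO c x) : InO c (cj x) :=
  ⟨c.sigA _ h.1, c.sigA _ h.2.1, c.sigA _ h.2.2⟩

theorem cj_mul (x y : Cyc c) : cj (x * y) = cj x * cj y := by
  ext <;> simp [cj, c.sigpi]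

theorem InO.zero : InO c (0 : Cyc c) := ⟨c.A.zero_mem, c.A.zero_mem, c.A.zero_mem⟩
theorem InO.one : InO c (1 : Cyc c) := ⟨c.A.one_mem, c.A.zero_mem, c.A.zero_mem⟩
theorem InO.add {x y : Cyc c} (h : InO c x) (h' : InO c y) : InO c (x + y) :=
  ⟨c.A.add_mem h.1 h'.1, c.A.add_mem h.2.1 h'.2.1, c.A.add_mem h.2.2 h'.2.2⟩
theorem InO.neg {x : Cyc c} (h : InO c x) : InO c (-x) :=
  ⟨c.A.neg_mem h.1, c.A.neg_mem h.2.1, c.A.neg_mem h.2.2⟩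
theorem InO.sub {x y : Cyc c} (h : InO c x) (h' : InO c y) : InO c (x - y) := by
  rw [sub_eq_add_neg]
  exact h.add h'.neg
theorem InO.mul {x y : Cyc c} (h : InO c x) (h' : InO c y) : InO c (x * y) := by
  obtain ⟨h0, h1, h2⟩ := h
  obtain ⟨g0, g1, g2⟩ := h'
  refine ⟨?_, ?_, ?_⟩
  · exact c.A.add_mem (c.A.mul_mem h0 g0) (c.A.mul_mem c.piA (c.A.add_mem
      (c.A.mul_mem h1 (c.sigA _ g2)) (c.A.mul_mem h2 (c.sigA _ (c.sigA _ g1)))))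
  · exact c.A.add_mem (c.A.add_mem (c.A.mul_mem h0 g1) (c.A.mul_mem h1 (c.sigA _ g0)))
      (c.A.mul_mem c.piA (c.A.mul_mem h2 (c.sigA _ (c.sigA _ g2))))
  · exact c.A.add_mem (c.A.add_mem (c.A.mul_mem h0 g2) (c.A.mul_mem h1 (c.sigA _ g1)))
      (c.A.mul_mem h2 (c.sigA _ (c.sigA _ g0)))

theorem TT_cube : ((TT c : Cyc c)) ^ 3 = ⟨c.pi, 0, 0⟩ := by
  rw [pow_succ, pow_two, mul_TT, mul_TT]
  ext <;> simp [TT]

/-- Reduced norm. -/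
def nrd (x : Cyc c) : K :=
  x.x0 * c.sig x.x0 * c.sig (c.sig x.x0) + c.pi * (x.x1 * c.sig x.x1 * c.sig (c.sig x.x1))
    + c.pi ^ 2 * (x.x2 * c.sig x.x2 * c.sig (c.sig x.x2))
    - c.pi * (x.x0 * c.sig x.x1 * c.sig (c.sig x.x2) + x.x1 * c.sig x.x2 * c.sig (c.sig x.x0)
      + x.x2 * c.sig x.x0 * c.sig (c.sig x.x1))

/-- The adjugate. -/
def adj (x : Cyc c) : Cyc c :=
  ⟨c.sig x.x0 * c.sig (c.sig x.x0) - c.pi * (c.sig x.x1 * c.sig (c.sig x.x2)),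
   -(x.x1 * c.sig (c.sig x.x0)) + c.pi * (x.x2 * c.sig (c.sig x.x2)),
   x.x1 * c.sig x.x1 - x.x2 * c.sig x.x0⟩

theorem adj_mul (x : Cyc c) : adj x * x = ⟨nrd x, 0, 0⟩ := by
  ext <;> simp [adj, nrd] <;> ring

theorem mul_adj (x : Cyc c) : x * adj x = ⟨nrd x, 0, 0⟩ := by
  ext <;> simp [adj, nrd, c.sig3, c.sigpi] <;> ring

theorem sig_nrd (x : Cyc c) : c.sig (nrd x) = nrd x := by
  simp [nrd, c.sig3, c.sigpi]
  ring

/-- The inverse when the reduced norm does not vanish. -/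
def unitOf (x : Cyc c) (h : nrd x ≠ 0) : (Cyc c)ˣ where
  val := x
  inv := ⟨(nrd x)⁻¹, 0, 0⟩ * adj x
  val_inv := by
    have h1 : x * ((⟨(nrd x)⁻¹, 0, 0⟩ : Cyc c) * adj x) = (⟨(nrd x)⁻¹, 0, 0⟩ : Cyc c) * (x * adj x) := by
      rw [← mul_assoc, ← mul_assoc]
      congr 1
      ext <;> simp [sig_nrd] <;> ring
    rw [h1, mul_adj]
    ext <;> simp [h]
  inv_val := by
    rw [mul_assoc, adj_mul]
    ext <;> simp [h]

/-- A unit of `O_D`. -/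
def UO (c : Dat K) (x : Cyc c) : Prop := InO c x ∧ x.x0⁻¹ ∈ c.A ∧ x.x0 ≠ 0

theorem nrd_unit {x : Cyc c} (h : UO c x) : nrd x ∈ c.A ∧ (nrd x)⁻¹ ∈ c.A ∧ nrd x ≠ 0 := by
  obtain ⟨⟨h0, h1, h2⟩, h3, h4⟩ := h
  have s0 := c.sigA _ h0
  have s1 := c.sigA _ h1
  have s2 := c.sigA _ h2
  have t0 := c.sigA _ s0
  have t1 := c.sigA _ s1
  have t2 := c.sigA _ s2
  let y : K := x.x0 * c.sig x.x0 * c.sig (c.sig x.x0)
  have hy : y ∈ c.A := c.A.mul_mem (c.A.mul_mem h0 s0) t0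
  let z : K := x.x1 * c.sig x.x1 * c.sig (c.sig x.x1) + c.pi * (x.x2 * c.sig x.x2 * c.sig (c.sig x.x2))
    - (x.x0 * c.sig x.x1 * c.sig (c.sig x.x2) + x.x1 * c.sig x.x2 * c.sig (c.sig x.x0)
      + x.x2 * c.sig x.x0 * c.sig (c.sig x.x1))
  have hz : z ∈ c.A := by
    apply c.A.sub_mem
    · exact c.A.add_mem (c.A.mul_mem (c.A.mul_mem h1 s1) t1)
        (c.A.mul_mem c.piA (c.A.mul_mem (c.A.mul_mem h2 s2) t2))
    · exact c.A.add_mem (c.A.add_mem (c.A.mul_mem (c.A.mul_mem h0 s1) t2)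
        (c.A.mul_mem (c.A.mul_mem h1 s2) t0)) (c.A.mul_mem (c.A.mul_mem h2 s0) t1)
  have hn : nrd x = y + c.pi * z := by
    simp only [nrd, y, z]
    ring
  have hyinv : y⁻¹ ∈ c.A := by
    have : y⁻¹ = x.x0⁻¹ * c.sig x.x0⁻¹ * c.sig (c.sig x.x0⁻¹) := by
      simp only [y, mul_inv, map_inv₀]
    rw [this]
    exact c.A.mul_mem (c.A.mul_mem h3 (c.sigA _ h3)) (c.sigA _ (c.sigA _ h3))
  have hyne : y ≠ 0 := by
    simp only [y]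
    refine mul_ne_zero (mul_ne_zero h4 ?_) ?_
    · exact (map_ne_zero _).2 h4
    · exact (map_ne_zero _).2 ((map_ne_zero _).2 h4)
  have hA : nrd x ∈ c.A := hn ▸ c.A.add_mem hy (c.A.mul_mem c.piA hz)
  have hdiv : nrd x / c.pi ∉ c.A := by
    intro h5
    apply c.nonunit hyne hyinv
    have : y / c.pi = nrd x / c.pi - z := by
      rw [hn]
      have := c.pine
      field_simp
      ring
    rw [this]
    exact c.A.sub_mem h5 hz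
  refine ⟨hA, c.unit hA hdiv, ?_⟩
  intro h0'
  apply hdiv
  rw [h0', zero_div]
  exact c.A.zero_mem

theorem adj_mem {x : Cyc c} (h : InO c x) : InO c (adj x) := by
  obtain ⟨h0, h1, h2⟩ := h
  have s0 := c.sigA _ h0
  have s1 := c.sigA _ h1
  have s2 := c.sigA _ h2
  have t0 := c.sigA _ s0
  have t1 := c.sigA _ s1
  have t2 := c.sigA _ s2
  refine ⟨?_, ?_, ?_⟩
  · exact c.A.sub_mem (c.A.mul_mem s0 t0) (c.A.mul_mem c.piA (c.A.mul_mem s1 t2))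
  · exact c.A.add_mem (c.A.neg_mem (c.A.mul_mem h1 t0)) (c.A.mul_mem c.piA (c.A.mul_mem h2 t2))
  · exact c.A.sub_mem (c.A.mul_mem h1 s1) (c.A.mul_mem h2 s0)

theorem unitOf_inv_mem {x : Cyc c} (h : UO c x) :
    InO c ((unitOf x (nrd_unit h).2.2)⁻¹ : (Cyc c)ˣ) := by
  change InO c ((⟨(nrd x)⁻¹, 0, 0⟩ : Cyc c) * adj x)
  apply InO.mul
  · exact ⟨(nrd_unit h).2.1, c.A.zero_mem, c.A.zero_mem⟩
  · exact adj_mem h.1

/-- Every non-zero element is a unit of `O_D` times a power of `T`. -/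
theorem exists_ord (x : Cyc c) (hx : x ≠ 0) :
    ∃ n : ℤ, UO c (x * ((TT c ^ (-n) : (Cyc c)ˣ) : Cyc c)) := by
  classical
  -- multiplication by powers of pi
  have hpi : ∀ (y : Cyc c) (m : ℤ), y * ((TT c ^ (-(3 * m)) : (Cyc c)ˣ) : Cyc c) =
      ⟨y.x0 / c.pi ^ m, y.x1 / c.pi ^ m, y.x2 / c.pi ^ m⟩ := by
    intro y m
    have hT3 : (TT c) ^ (3 : ℤ) = (⟨⟨c.pi, 0, 0⟩, ⟨c.pi⁻¹, 0, 0⟩, by
        ext <;> simp [c.pine], by ext <;> simp [c.pine]⟩ : (Cyc c)ˣ) := by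
      apply Units.ext
      have : (TT c) ^ (3 : ℤ) = (TT c) ^ 3 := by norm_cast
      rw [this, Units.val_pow_eq_pow_val, TT_cube]
    have hTm : ∀ m : ℤ, ((((TT c) ^ (3 : ℤ)) ^ m : (Cyc c)ˣ) : Cyc c) = ⟨c.pi ^ m, 0, 0⟩ := by
      intro m
      rw [hT3]
      induction m using Int.induction_on with
      | zero => simp; rfl
      | succ i ih =>
        rw [zpow_add_one, Units.val_mul, ih, zpow_add_one₀ c.pine]
        ext <;> simp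
      | pred i ih =>
        rw [zpow_sub_one, Units.val_mul, ih, zpow_sub_one₀ c.pine]
        ext <;> simp
    have : TT c ^ (-(3 * m)) = ((TT c) ^ (3 : ℤ)) ^ (-m) := by
      rw [← zpow_mul]
      congr 1
      ring
    rw [this, hTm]
    ext <;> simp [c.sigpi, zpow_neg, div_eq_mul_inv]
  have hone : ∀ y : Cyc c, y * ((TT c ^ (-1 : ℤ) : (Cyc c)ˣ) : Cyc c) = ⟨y.x1, y.x2, y.x0 / c.pi⟩ := by
    intro y
    rw [zpow_neg_one, mul_TTinv]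
  have htwo : ∀ y : Cyc c, y * ((TT c ^ (-2 : ℤ) : (Cyc c)ˣ) : Cyc c) =
      ⟨y.x2, y.x0 / c.pi, y.x1 / c.pi⟩ := by
    intro y
    have : TT c ^ (-2 : ℤ) = TT c ^ (-1 : ℤ) * TT c ^ (-1 : ℤ) := by
      rw [← zpow_add]
      norm_num
    rw [this, Units.val_mul, ← mul_assoc, hone, hone]
  -- divisibility data for a component : either zero or has an order
  have key : ∀ y : K, y = 0 ∨ ∃ m : ℤ, y ≠ 0 ∧ (y / c.pi ^ m)⁻¹ ∈ c.A ∧ ∀ n : ℤ, y / c.pi ^ n ∈ c.A ↔ n ≤ m := by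
    intro y
    by_cases hy : y = 0
    · exact Or.inl hy
    · obtain ⟨m, _, h2, h3⟩ := c.ord y hy
      exact Or.inr ⟨m, hy, h2, h3⟩
  have zer : ∀ n : ℤ, (0 : K) / c.pi ^ n ∈ c.A := by
    intro n
    rw [zero_div]
    exact c.A.zero_mem
  have pzero : ∀ n : ℤ, (c.pi ^ n : K) ≠ 0 := fun n => zpow_ne_zero _ c.pine
  have dd : ∀ (y : K) (n : ℤ), y / c.pi / c.pi ^ n = y / c.pi ^ (n + 1) := by
    intro y n
    rw [zpow_add_one₀ c.pine, div_div, mul_comm]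
  -- three final cases
  have case0 : ∀ m : ℤ, x.x0 ≠ 0 → (x.x0 / c.pi ^ m)⁻¹ ∈ c.A → x.x0 / c.pi ^ m ∈ c.A →
      x.x1 / c.pi ^ m ∈ c.A → x.x2 / c.pi ^ m ∈ c.A →
      ∃ n : ℤ, UO c (x * ((TT c ^ (-n) : (Cyc c)ˣ) : Cyc c)) := by
    intro m h1 h2 h3 h4 h5
    refine ⟨3 * m, ?_⟩
    rw [hpi]
    exact ⟨⟨h3, h4, h5⟩, h2, div_ne_zero h1 (pzero m)⟩
  have case1 : ∀ m : ℤ, x.x1 ≠ 0 → (x.x1 / c.pi ^ m)⁻¹ ∈ c.A → x.x1 / c.pi ^ m ∈ c.A →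
      x.x2 / c.pi ^ m ∈ c.A → x.x0 / c.pi ^ (m + 1) ∈ c.A →
      ∃ n : ℤ, UO c (x * ((TT c ^ (-n) : (Cyc c)ˣ) : Cyc c)) := by
    intro m h1 h2 h3 h4 h5
    refine ⟨3 * m + 1, ?_⟩
    have : TT c ^ (-(3 * m + 1)) = TT c ^ (-1 : ℤ) * TT c ^ (-(3 * m)) := by
      rw [← zpow_add]
      congr 1
      ring
    rw [this, Units.val_mul, ← mul_assoc, hone, hpi]
    refine ⟨⟨h3, h4, ?_⟩, h2, div_ne_zero h1 (pzero m)⟩
    rw [dd]
    exact h5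
  have case2 : ∀ m : ℤ, x.x2 ≠ 0 → (x.x2 / c.pi ^ m)⁻¹ ∈ c.A → x.x2 / c.pi ^ m ∈ c.A →
      x.x0 / c.pi ^ (m + 1) ∈ c.A → x.x1 / c.pi ^ (m + 1) ∈ c.A →
      ∃ n : ℤ, UO c (x * ((TT c ^ (-n) : (Cyc c)ˣ) : Cyc c)) := by
    intro m h1 h2 h3 h4 h5
    refine ⟨3 * m + 2, ?_⟩
    have : TT c ^ (-(3 * m + 2)) = TT c ^ (-2 : ℤ) * TT c ^ (-(3 * m)) := by
      rw [← zpow_add]
      congr 1
      ring
    rw [this, Units.val_mul, ← mul_assoc, htwo, hpi]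
    refine ⟨⟨h3, ?_, ?_⟩, h2, div_ne_zero h1 (pzero m)⟩
    · change x.x0 / c.pi / c.pi ^ m ∈ c.A
      rw [dd]
      exact h4
    · change x.x1 / c.pi / c.pi ^ m ∈ c.A
      rw [dd]
      exact h5
  rcases key x.x0 with h0 | ⟨m0, a0, b0, d0⟩ <;> rcases key x.x1 with h1 | ⟨m1, a1, b1, d1⟩ <;>
    rcases key x.x2 with h2 | ⟨m2, a2, b2, d2⟩
  · exfalso
    apply hx
    ext <;> simp [h0, h1, h2]
  · exact case2 m2 a2 b2 ((d2 _).2 le_rfl) (h0 ▸ zer _) (h1 ▸ zer _)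
  · exact case1 m1 a1 b1 ((d1 _).2 le_rfl) (h2 ▸ zer _) (h0 ▸ zer _)
  · by_cases h : m1 ≤ m2
    · exact case1 m1 a1 b1 ((d1 _).2 le_rfl) ((d2 _).2 h) (h0 ▸ zer _)
    · exact case2 m2 a2 b2 ((d2 _).2 le_rfl) (h0 ▸ zer _) ((d1 _).2 (by omega))
  · exact case0 m0 a0 b0 ((d0 _).2 le_rfl) (h1 ▸ zer _) (h2 ▸ zer _)
  · by_cases h : m0 ≤ m2
    · exact case0 m0 a0 b0 ((d0 _).2 le_rfl) (h1 ▸ zer _) ((d2 _).2 h)
    · exact case2 m2 a2 b2 ((d2 _).2 le_rfl) ((d0 _).2 (by omega)) (h1 ▸ zer _)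
  · by_cases h : m0 ≤ m1
    · exact case0 m0 a0 b0 ((d0 _).2 le_rfl) ((d1 _).2 h) (h2 ▸ zer _)
    · exact case1 m1 a1 b1 ((d1 _).2 le_rfl) (h2 ▸ zer _) ((d0 _).2 (by omega))
  · by_cases h : m0 ≤ m1 ∧ m0 ≤ m2
    · exact case0 m0 a0 b0 ((d0 _).2 le_rfl) ((d1 _).2 h.1) ((d2 _).2 h.2)
    · by_cases h' : m1 ≤ m2 ∧ m1 + 1 ≤ m0
      · exact case1 m1 a1 b1 ((d1 _).2 le_rfl) ((d2 _).2 h'.1) ((d0 _).2 h'.2)
      · exact case2 m2 a2 b2 ((d2 _).2 le_rfl) ((d0 _).2 (by omega)) ((d1 _).2 (by omega))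

theorem isUnit_of_ne {x : Cyc c} (hx : x ≠ 0) : IsUnit x := by
  obtain ⟨n, h⟩ := exists_ord x hx
  have h1 : x = (unitOf _ (nrd_unit h).2.2 * TT c ^ n : (Cyc c)ˣ) := by
    rw [Units.val_mul]
    change x = x * ((TT c ^ (-n) : (Cyc c)ˣ) : Cyc c) * ((TT c ^ n : (Cyc c)ˣ) : Cyc c)
    rw [mul_assoc, ← Units.val_mul, ← zpow_add, neg_add_cancel, zpow_zero, Units.val_one, mul_one]
  rw [h1]
  exact Units.isUnit _

open Classical in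
noncomputable instance : DivisionRing (Cyc c) :=
  { (inferInstance : Ring (Cyc c)), (inferInstance : Nontrivial (Cyc c)) with
    inv := fun x => if h : x = 0 then (0 : Cyc c) else (((isUnit_of_ne h).unit⁻¹ : (Cyc c)ˣ) : Cyc c)
    mul_inv_cancel := by
      intro x hx
      change x * (if h : x = 0 then (0 : Cyc c) else (((isUnit_of_ne h).unit⁻¹ : (Cyc c)ˣ) : Cyc c)) = 1
      rw [dif_neg hx]
      exact (isUnit_of_ne hx).mul_val_inv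
    inv_zero := by
      change (if h : (0 : Cyc c) = 0 then (0 : Cyc c) else _) = 0
      rw [dif_pos rfl]
    nnqsmul := _
    nnqsmul_def := fun _ _ => rfl
    qsmul := _
    qsmul_def := fun _ _ => rfl }

end Pool.Agent.Helper42.WD
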