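import Pool.Agent.Helper42.WD.Defs

namespace Pool.Agent.Helper42.WD

variable {K : Type} [Field K]

/-! ### The valuation ring -/

theorem Dat.one_mem (c : Dat K) : (1 : K) ∈ c.A := c.A.one_mem

theorem Dat.sigpow (c : Dat K) (n : ℤ) : c.sig (c.pi ^ n) = c.pi ^ n := by
  rw [map_zpow₀, c.sigpi]

theorem Dat.sigA' (c : Dat K) (x : K) : c.sig x ∈ c.A ↔ x ∈ c.A := by
  constructor
  · intro h
    have h1 := c.sigA _ (c.sigA _ h)
    rwa [c.sig3] at h1
  · exact c.sigA x

theorem Dat.sigdiv (c : Dat K) (x : K) (n : ℤ) : c.sig x / c.pi ^ n ∈ c.A ↔ x / c.pi ^ n ∈ c.A := by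
  rw [← c.sigA' (x / c.pi ^ n), map_div₀, c.sigpow]

theorem Dat.sigdiv' (c : Dat K) (x : K) : c.sig x / c.pi ∈ c.A ↔ x / c.pi ∈ c.A := by
  have := c.sigdiv x 1
  simpa using this

/-- Powers of the uniformizer: integrality. -/
theorem Dat.zpow_mem (c : Dat K) (n : ℤ) : c.pi ^ n ∈ c.A ↔ 0 ≤ n := by
  constructor
  · intro h
    by_contra hn
    push Not at hn
    apply c.pinv
    have h1 : c.pi⁻¹ = c.pi ^ n * c.pi ^ (-n - 1) := by
      rw [← zpow_add₀ c.pine]
      have : n + (-n - 1) = -1 := by ring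
      rw [this, zpow_neg_one]
    rw [h1]
    apply c.A.mul_mem h
    have h2 : c.pi ^ (-n - 1) = c.pi ^ ((-n - 1).toNat) := by
      rw [← zpow_natCast]
      congr 1
      omega
    rw [h2]
    exact c.A.pow_mem c.piA _
  · intro h
    have h2 : c.pi ^ n = c.pi ^ (n.toNat) := by
      rw [← zpow_natCast]
      congr 1
      omega
    rw [h2]
    exact c.A.pow_mem c.piA _

/-- The order of a non-zero element. -/
theorem Dat.ord (c : Dat K) (x : K) (hx : x ≠ 0) :
    ∃ m : ℤ, (x / c.pi ^ m ∈ c.A) ∧ ((x / c.pi ^ m)⁻¹ ∈ c.A) ∧ ∀ n : ℤ, x / c.pi ^ n ∈ c.A ↔ n ≤ m := by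
  obtain ⟨m, u, hu, hu', h⟩ := c.unif x hx
  have hp : c.pi ^ m ≠ 0 := zpow_ne_zero _ c.pine
  have h0 : x / c.pi ^ m = u := by
    rw [h]
    field_simp
  have hune : u ≠ 0 := by
    rintro rfl
    exact hx (by rw [h, zero_mul])
  refine ⟨m, h0 ▸ hu, h0 ▸ hu', ?_⟩
  intro n
  have h1 : x / c.pi ^ n = u * c.pi ^ (m - n) := by
    rw [h, zpow_sub₀ c.pine]
    ring
  constructor
  · intro hn
    have h2 : c.pi ^ (m - n) ∈ c.A := by
      have : c.pi ^ (m - n) = u⁻¹ * (x / c.pi ^ n) := by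
        rw [h1]
        field_simp
      rw [this]
      exact c.A.mul_mem hu' hn
    have := (c.zpow_mem _).1 h2
    omega
  · intro hn
    rw [h1]
    exact c.A.mul_mem hu ((c.zpow_mem _).2 (by omega))

theorem Dat.mono (c : Dat K) {x : K} {m n : ℤ} (h : x / c.pi ^ m ∈ c.A) (hn : n ≤ m) :
    x / c.pi ^ n ∈ c.A := by
  have h1 : x / c.pi ^ n = x / c.pi ^ m * c.pi ^ (m - n) := by
    rw [zpow_sub₀ c.pine]
    have : c.pi ^ m ≠ 0 := zpow_ne_zero _ c.pine
    field_simp
  rw [h1]
  exact c.A.mul_mem h ((c.zpow_mem _).2 (by omega))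

/-- An element of `A` which is not in `pi A` is a unit of `A`. -/
theorem Dat.unit (c : Dat K) {x : K} (hx : x ∈ c.A) (h : x / c.pi ∉ c.A) : x⁻¹ ∈ c.A := by
  have hx0 : x ≠ 0 := by
    rintro rfl
    apply h
    rw [zero_div]
    exact c.A.zero_mem
  obtain ⟨m, h1, h2, h3⟩ := c.ord x hx0
  have h4 := h3 0
  have h5 := h3 1
  rw [zpow_zero, div_one] at h4
  rw [zpow_one] at h5
  have h6 : 0 ≤ m := h4.1 hx
  have h7 : ¬ (1 ≤ m) := fun h' => h (h5.2 h')
  have : m = 0 := by omega
  rw [this, zpow_zero, div_one] at h2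
  exact h2

theorem Dat.nonunit (c : Dat K) {x : K} (hx : x ≠ 0) (h : x⁻¹ ∈ c.A) : x / c.pi ∉ c.A := by
  intro h1
  apply c.pinv
  have : c.pi⁻¹ = x⁻¹ * (x / c.pi) := by field_simp
  rw [this]
  exact c.A.mul_mem h h1

theorem Dat.divmem (c : Dat K) {x : K} (h : x / c.pi ∈ c.A) : x ∈ c.A := by
  have : x = x / c.pi * c.pi := by
    have := c.pine
    field_simp
  rw [this]
  exact c.A.mul_mem h c.piA

/-! ### The residue field -/

/-- The residue field, abstractly. -/
structure Res (c : Dat K) (k : Type) [Field k] where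
  r : K → k
  S : k ≃+* k
  radd : ∀ x ∈ c.A, ∀ y ∈ c.A, r (x + y) = r x + r y
  rmul : ∀ x ∈ c.A, ∀ y ∈ c.A, r (x * y) = r x * r y
  rone : r 1 = 1
  rsig : ∀ x ∈ c.A, r (c.sig x) = S (r x)
  rker : ∀ x ∈ c.A, (r x = 0 ↔ x / c.pi ∈ c.A)
  rsur : ∀ y, ∃ x ∈ c.A, r x = y
  S3 : ∀ x, S (S (S x)) = x
  Sne : ∃ x, S x ≠ x

theorem exists_res (c : Dat K) : ∃ (k : Type) (_ : Field k) (_ : Finite k), Nonempty (Res c k) := by
  classical
  let I : Ideal c.A := Ideal.span {⟨c.pi, c.piA⟩}
  have hI : ∀ a : c.A, a ∈ I ↔ (a : K) / c.pi ∈ c.A := by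
    intro a
    rw [Ideal.mem_span_singleton]
    constructor
    · rintro ⟨b, hb⟩
      have : (a : K) = c.pi * b := by rw [hb]; rfl
      rw [this, mul_div_cancel_left₀ _ c.pine]
      exact b.2
    · intro h
      refine ⟨⟨_, h⟩, ?_⟩
      apply Subtype.ext
      change (a : K) = c.pi * ((a : K) / c.pi)
      have := c.pine
      field_simp
  have hmax : I.IsMaximal := by
    rw [Ideal.isMaximal_iff]
    constructor
    · rw [hI]
      intro h
      apply c.pinv
      have : ((1 : c.A) : K) = 1 := rfl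
      rw [this, one_div] at h
      exact h
    · intro J x hIJ hx hxJ
      rw [hI] at hx
      have h1 := c.unit x.2 hx
      have h2 : (1 : c.A) = ⟨_, h1⟩ * x := by
        apply Subtype.ext
        change (1 : K) = (x : K)⁻¹ * x
        rw [inv_mul_cancel₀]
        intro h0
        apply hx
        rw [h0, zero_div]
        exact c.A.zero_mem
      rw [h2]
      exact J.mul_mem_left _ hxJ
  let _ : Field (c.A ⧸ I) := Ideal.Quotient.field I
  let sA : c.A →+* c.A :=
    { toFun := fun x => ⟨c.sig x, c.sigA _ x.2⟩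
      map_one' := Subtype.ext (map_one c.sig)
      map_mul' := fun x y => Subtype.ext (map_mul c.sig _ _)
      map_zero' := Subtype.ext (map_zero c.sig)
      map_add' := fun x y => Subtype.ext (map_add c.sig _ _) }
  have hle : I ≤ I.comap sA := by
    intro a ha
    rw [Ideal.mem_comap, hI]
    rw [hI] at ha
    exact (c.sigdiv' _).2 ha
  let q : c.A →+* c.A ⧸ I := Ideal.Quotient.mk I
  let S0 : c.A ⧸ I →+* c.A ⧸ I := Ideal.quotientMap I sA hle
  have hS0 : ∀ a, S0 (q a) = q (sA a) := fun a => Ideal.quotientMap_mk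
  have hS3 : ∀ x, S0 (S0 (S0 x)) = x := by
    intro x
    obtain ⟨a, rfl⟩ := Ideal.Quotient.mk_surjective x
    change S0 (S0 (S0 (q a))) = q a
    rw [hS0, hS0, hS0]
    congr 1
    exact Subtype.ext (c.sig3 _)
  let S : c.A ⧸ I ≃+* c.A ⧸ I :=
    { S0 with
      invFun := fun x => S0 (S0 x)
      left_inv := fun x => hS3 x
      right_inv := fun x => hS3 x }
  have hS : ∀ x, S x = S0 x := fun x => rfl
  refine ⟨c.A ⧸ I, inferInstance, ?_, ⟨?_⟩⟩
  · obtain ⟨T, hT⟩ := c.fin
    let f : T → c.A ⧸ I := fun t => if h : (t : K) ∈ c.A then q ⟨t, h⟩ else 0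
    apply Finite.of_surjective f
    intro y
    obtain ⟨a, rfl⟩ := Ideal.Quotient.mk_surjective y
    obtain ⟨s, hs, h⟩ := hT a a.2
    have hsA : s ∈ c.A := by
      have h1 := c.divmem h
      have : s = a - (a - s) := by ring
      rw [this]
      exact c.A.sub_mem a.2 h1
    refine ⟨⟨s, hs⟩, ?_⟩
    have : f ⟨s, hs⟩ = q ⟨s, hsA⟩ := dif_pos hsA
    rw [this]
    apply Eq.symm
    rw [Ideal.Quotient.eq, hI]
    exact h
  · exact
      { r := fun x => if h : x ∈ c.A then q ⟨x, h⟩ else 0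
        S := S
        radd := by
          intro x hx y hy
          rw [dif_pos hx, dif_pos hy, dif_pos (c.A.add_mem hx hy), ← map_add]
          rfl
        rmul := by
          intro x hx y hy
          rw [dif_pos hx, dif_pos hy, dif_pos (c.A.mul_mem hx hy), ← map_mul]
          rfl
        rone := by
          rw [dif_pos c.A.one_mem]
          exact map_one q
        rsig := by
          intro x hx
          rw [dif_pos hx, dif_pos (c.sigA _ hx), hS, hS0]
          rfl
        rker := by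
          intro x hx
          rw [dif_pos hx]
          change q _ = 0 ↔ _
          rw [Ideal.Quotient.eq_zero_iff_mem, hI]
        rsur := by
          intro y
          obtain ⟨a, rfl⟩ := Ideal.Quotient.mk_surjective y
          exact ⟨a, a.2, dif_pos a.2⟩
        S3 := hS3
        Sne := by
          obtain ⟨x, hx, h⟩ := c.sign
          refine ⟨q ⟨x, hx⟩, ?_⟩
          rw [hS, hS0]
          intro h1
          rw [Ideal.Quotient.eq, hI] at h1
          exact h h1 }

end Pool.Agent.Helper42.WD
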