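import Pool.Agent.Helper42.WD.Fil

namespace Pool.Agent.Helper42.WD

variable {K : Type} [Field K] {c : Dat K} {k : Type} [Field k]

namespace Res

variable (R : Res c k)

theorem r0 : R.r 0 = 0 := by
  have h := R.radd 0 c.A.zero_mem 0 c.A.zero_mem
  rw [add_zero] at h
  simpa using h

theorem rneg {x : K} (hx : x ∈ c.A) : R.r (-x) = -R.r x := by
  have h := R.radd x hx (-x) (c.A.neg_mem hx)
  rw [add_neg_cancel, R.r0] at h
  exact (neg_eq_of_add_eq_zero_right h.symm).symm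

theorem rpi {x : K} (hx : x ∈ c.A) : R.r (c.pi * x) = 0 := by
  rw [R.rmul _ c.piA _ hx]
  have : R.r c.pi = 0 := by
    rw [R.rker _ c.piA, div_self c.pine]
    exact c.A.one_mem
  rw [this, zero_mul]

/-- coefficient maps -/
def cf (i : ℕ) (x : Cyc c) : k :=
  match i with
  | 0 => R.r x.x0
  | 1 => R.r x.x1
  | _ => R.r x.x2

theorem cf0_mul {x y : Cyc c} (hx : InO c x) (hy : InO c y) :
    R.cf 0 (x * y) = R.cf 0 x * R.cf 0 y := by
  obtain ⟨h0, h1, h2⟩ := hx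
  obtain ⟨g0, g1, g2⟩ := hy
  have e1 : x.x1 * c.sig y.x2 + x.x2 * c.sig (c.sig y.x1) ∈ c.A :=
    c.A.add_mem (c.A.mul_mem h1 (c.sigA _ g2)) (c.A.mul_mem h2 (c.sigA _ (c.sigA _ g1)))
  change R.r (x.x0 * y.x0 + c.pi * (x.x1 * c.sig y.x2 + x.x2 * c.sig (c.sig y.x1))) = _
  rw [R.radd _ (c.A.mul_mem h0 g0) _ (c.A.mul_mem c.piA e1), R.rpi e1, add_zero,
    R.rmul _ h0 _ g0]
  rfl

theorem cf1_mul {x y : Cyc c} (hx : InO c x) (hy : InO c y) :
    R.cf 1 (x * y) = R.cf 0 x * R.cf 1 y + R.cf 1 x * R.S (R.cf 0 y) := by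
  obtain ⟨h0, h1, h2⟩ := hx
  obtain ⟨g0, g1, g2⟩ := hy
  have e1 : x.x2 * c.sig (c.sig y.x2) ∈ c.A := c.A.mul_mem h2 (c.sigA _ (c.sigA _ g2))
  have e2 : x.x0 * y.x1 ∈ c.A := c.A.mul_mem h0 g1
  have e3 : x.x1 * c.sig y.x0 ∈ c.A := c.A.mul_mem h1 (c.sigA _ g0)
  change R.r (x.x0 * y.x1 + x.x1 * c.sig y.x0 + c.pi * (x.x2 * c.sig (c.sig y.x2))) = _
  rw [R.radd _ (c.A.add_mem e2 e3) _ (c.A.mul_mem c.piA e1), R.rpi e1, add_zero,
    R.radd _ e2 _ e3, R.rmul _ h0 _ g1, R.rmul _ h1 _ (c.sigA _ g0), R.rsig _ g0]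
  rfl

theorem cf2_mul {x y : Cyc c} (hx : InO c x) (hy : InO c y) :
    R.cf 2 (x * y) = R.cf 0 x * R.cf 2 y + R.cf 1 x * R.S (R.cf 1 y)
      + R.cf 2 x * R.S (R.S (R.cf 0 y)) := by
  obtain ⟨h0, h1, h2⟩ := hx
  obtain ⟨g0, g1, g2⟩ := hy
  have e1 : x.x2 * c.sig (c.sig y.x0) ∈ c.A := c.A.mul_mem h2 (c.sigA _ (c.sigA _ g0))
  have e2 : x.x0 * y.x2 ∈ c.A := c.A.mul_mem h0 g2
  have e3 : x.x1 * c.sig y.x1 ∈ c.A := c.A.mul_mem h1 (c.sigA _ g1)
  change R.r (x.x0 * y.x2 + x.x1 * c.sig y.x1 + x.x2 * c.sig (c.sig y.x0)) = _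
  rw [R.radd _ (c.A.add_mem e2 e3) _ e1, R.radd _ e2 _ e3, R.rmul _ h0 _ g2,
    R.rmul _ h1 _ (c.sigA _ g1), R.rmul _ h2 _ (c.sigA _ (c.sigA _ g0)), R.rsig _ g1,
    R.rsig _ (c.sigA _ g0), R.rsig _ g0]
  rfl

theorem cf_add (i : ℕ) {x y : Cyc c} (hx : InO c x) (hy : InO c y) :
    R.cf i (x + y) = R.cf i x + R.cf i y := by
  obtain ⟨h0, h1, h2⟩ := hx
  obtain ⟨g0, g1, g2⟩ := hy
  match i with
  | 0 => exact R.radd _ h0 _ g0
  | 1 => exact R.radd _ h1 _ g1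
  | (n + 2) => exact R.radd _ h2 _ g2

theorem cf_neg (i : ℕ) {x : Cyc c} (hx : InO c x) : R.cf i (-x) = -R.cf i x := by
  obtain ⟨h0, h1, h2⟩ := hx
  match i with
  | 0 => exact R.rneg h0
  | 1 => exact R.rneg h1
  | (n + 2) => exact R.rneg h2

theorem cf0_InP {x : Cyc c} (hx : InP c x) : R.cf 0 x = 0 := (R.rker _ (c.divmem hx.1)).2 hx.1

theorem cf0_eq_zero {x : Cyc c} (hx : InO c x) : R.cf 0 x = 0 ↔ InP c x := by
  constructor
  · intro h
    exact ⟨(R.rker _ hx.1).1 h, hx.2⟩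
  · exact R.cf0_InP

theorem cf_one_zero : R.cf 0 (1 : Cyc c) = 1 := R.rone
theorem cf_one_one : R.cf 1 (1 : Cyc c) = 0 := R.r0
theorem cf_one_two : R.cf 2 (1 : Cyc c) = 0 := R.r0
theorem cf_zero (i : ℕ) : R.cf i (0 : Cyc c) = 0 := by
  match i with
  | 0 => exact R.r0
  | 1 => exact R.r0
  | (n + 2) => exact R.r0

theorem UO_iff_cf {x : Cyc c} (hx : InO c x) : UO c x ↔ R.cf 0 x ≠ 0 := by
  rw [UO_iff, ne_eq, R.cf0_eq_zero hx]
  exact ⟨fun h => h.2, fun h => ⟨hx, h⟩⟩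

theorem cf_cj (i : ℕ) {x : Cyc c} (hx : InO c x) : R.cf i (cj x) = R.S (R.cf i x) := by
  obtain ⟨h0, h1, h2⟩ := hx
  match i with
  | 0 => exact R.rsig _ h0
  | 1 => exact R.rsig _ h1
  | (n + 2) => exact R.rsig _ h2

/-- coefficients after shifting -/
theorem cf_shift (i : ℕ) (hi : i < 2) (x : Cyc c) : R.cf i (x * Tp c (-1)) = R.cf (i + 1) x := by
  rw [mul_Tp_neg_one]
  match i, hi with
  | 0, _ => rfl
  | 1, _ => rfl

theorem cf_Tmul (i : ℕ) (hi : i < 2) {x : Cyc c} (hx : InO c x) :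
    R.cf (i + 1) (Tp c 1 * x) = R.S (R.cf i x) := by
  rw [Tp_one_mul]
  match i, hi with
  | 0, _ => exact R.rsig _ hx.1
  | 1, _ => exact R.rsig _ hx.2.1

/-- constant elements -/
theorem exists_const (y : k) : ∃ x : Cyc c, InO c x ∧ R.cf 0 x = y ∧ R.cf 1 x = 0 ∧ R.cf 2 x = 0 := by
  obtain ⟨a, ha, h⟩ := R.rsur y
  exact ⟨⟨a, 0, 0⟩, ⟨ha, c.A.zero_mem, c.A.zero_mem⟩, h, R.r0, R.r0⟩

theorem PP_two {x : Cyc c} (hx : InO c x) : PP c 2 x ↔ R.cf 0 x = 0 ∧ R.cf 1 x = 0 := by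
  have h : PP c 2 x ↔ PP c 1 (x * Tp c (-1)) := by
    rw [PP_mul_Tp']
    norm_num
  constructor
  · intro h1
    have h2 := PP_one.1 (h1.mono (by norm_num : (1 : ℤ) ≤ 2))
    refine ⟨R.cf0_InP h2, ?_⟩
    rw [← R.cf_shift 0 (by norm_num)]
    exact R.cf0_InP (PP_one.1 (h.1 h1))
  · rintro ⟨h1, h2⟩
    rw [h, PP_one]
    have h3 : InO c (x * Tp c (-1)) := PP_one.2 ((R.cf0_eq_zero hx).1 h1)
    rw [← R.cf0_eq_zero h3, R.cf_shift 0 (by norm_num)]
    exact h2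

theorem S0 : R.S 0 = 0 := map_zero _

/-- Dedekind: the trace of the residue extension is non-zero. -/
theorem exists_tr : ∃ e : k, e + R.S e + R.S (R.S e) = 1 := by
  have key : ∃ x : k, x + R.S x + R.S (R.S x) ≠ 0 := by
    by_contra hcon
    push Not at hcon
    obtain ⟨a, ha⟩ := R.Sne
    have h1 : ∀ x, (R.S a - a) * R.S x + (R.S (R.S a) - a) * R.S (R.S x) = 0 := by
      intro x
      have e1 := hcon (a * x)
      have e2 := hcon x
      rw [map_mul, map_mul] at e1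
      linear_combination e1 - a * e2
    have e3 := h1 1
    have e4 := h1 a
    rw [map_one, map_one] at e3
    have e5 : (R.S (R.S a) - a) * (R.S (R.S a) - R.S a) = 0 := by
      linear_combination e4 - R.S a * e3
    rcases mul_eq_zero.1 e5 with h | h
    · apply ha
      have h2 : R.S (R.S a) = a := sub_eq_zero.1 h
      have h3 := R.S3 a
      rw [h2] at h3
      exact h3
    · apply ha
      have h2 : R.S (R.S a) = R.S a := sub_eq_zero.1 h
      exact R.S.injective h2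
  obtain ⟨x, hx⟩ := key
  set t := x + R.S x + R.S (R.S x) with ht
  have hSt : R.S t = t := by
    rw [ht, map_add, map_add, R.S3]
    ring
  refine ⟨x / t, ?_⟩
  rw [map_div₀, map_div₀, hSt, hSt]
  field_simp
  exact ht.symm

end Res

/-- A normalized character: `lam` is the composition of the trace `K → F` with an additive character
of `F` which is trivial on the maximal ideal and non-trivial on the valuation ring. -/
structure Chr (c : Dat K) where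
  lam : K → ℂ
  ladd : ∀ x y, lam (x + y) = lam x * lam y
  lzero : lam 0 = 1
  lsig : ∀ x, lam (c.sig x) = lam x
  ltriv : ∀ x, x / c.pi ∈ c.A → lam x = 1
  lnt : ∃ x ∈ c.A, lam x ≠ 1

namespace Chr

variable (C : Chr c)

theorem lneg (x : K) : C.lam (-x) * C.lam x = 1 := by
  rw [← C.ladd, neg_add_cancel, C.lzero]

theorem lne (x : K) : C.lam x ≠ 0 := by
  intro h
  have := C.lneg x
  rw [h, mul_zero] at this
  exact zero_ne_one this

/-- the character of `D` -/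
def mu (x : Cyc c) : ℂ := C.lam x.x0

theorem mu_add (x y : Cyc c) : C.mu (x + y) = C.mu x * C.mu y := C.ladd _ _
theorem mu_zero : C.mu 0 = 1 := C.lzero
theorem mu_ne (x : Cyc c) : C.mu x ≠ 0 := C.lne _
theorem mu_neg (x : Cyc c) : C.mu (-x) = (C.mu x)⁻¹ := by
  apply eq_inv_of_mul_eq_one_left
  rw [← C.mu_add, neg_add_cancel, C.mu_zero]
theorem mu_sub (x y : Cyc c) : C.mu (x - y) = C.mu x / C.mu y := by
  rw [sub_eq_add_neg, C.mu_add, C.mu_neg, div_eq_mul_inv]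

theorem mu_comm (x y : Cyc c) : C.mu (x * y) = C.mu (y * x) := by
  have h1 : C.lam (c.pi * (x.x1 * c.sig y.x2)) = C.lam (c.pi * (y.x2 * c.sig (c.sig x.x1))) := by
    rw [← C.lsig (c.pi * (x.x1 * c.sig y.x2)), ← C.lsig (c.sig _)]
    congr 1
    rw [map_mul, map_mul, map_mul, map_mul, c.sigpi, c.sigpi, c.sig3]
    ring
  have h2 : C.lam (c.pi * (x.x2 * c.sig (c.sig y.x1))) = C.lam (c.pi * (y.x1 * c.sig x.x2)) := by
    rw [← C.lsig (c.pi * (x.x2 * c.sig (c.sig y.x1)))]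
    congr 1
    rw [map_mul, map_mul, c.sigpi, c.sig3]
    ring
  change C.lam (x.x0 * y.x0 + c.pi * (x.x1 * c.sig y.x2 + x.x2 * c.sig (c.sig y.x1))) =
    C.lam (y.x0 * x.x0 + c.pi * (y.x1 * c.sig x.x2 + y.x2 * c.sig (c.sig x.x1)))
  rw [mul_add, mul_add, C.ladd, C.ladd, C.ladd, C.ladd, h1, h2, mul_comm x.x0 y.x0]
  ring

theorem mu_P {x : Cyc c} (h : PP c 1 x) : C.mu x = 1 := C.ltriv _ (PP_one.1 h).1

/-- duality -/
theorem dual (n : ℤ) (w : Cyc c) : (∀ z, PP c n z → C.mu (w * z) = 1) ↔ PP c (1 - n) w := by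
  constructor
  · intro h
    by_cases hw : w = 0
    · rw [hw]
      exact PP.zero _
    · obtain ⟨m, u, hu, hx⟩ := exists_ord' w hw
      rw [ord_spec hu hx]
      by_contra hm
      obtain ⟨x, hxA, hne⟩ := C.lnt
      have hxO : InO c (⟨x, 0, 0⟩ : Cyc c) := ⟨hxA, c.A.zero_mem, c.A.zero_mem⟩
      apply hne
      have h1 := h (w⁻¹ * ⟨x, 0, 0⟩) (by
        have := ((ord_inv_spec hu hx (-m)).2 le_rfl).mul (PP_zero.2 hxO)
        exact this.mono (by omega))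
      rw [← mul_assoc, mul_inv_cancel₀ hw, one_mul] at h1
      exact h1
  · intro h z hz
    apply C.mu_P
    have := h.mul hz
    rwa [sub_add_cancel] at this

/-- There is an additive character of the residue field. -/
theorem exists_lk (R : Res c k) : ∃ lk : k → ℂ, (∀ x y, lk (x + y) = lk x * lk y) ∧
    (∀ x, lk (R.S x) = lk x) ∧ (∀ x ∈ c.A, lk (R.r x) = C.lam x) ∧ (∃ x, lk x ≠ 1) ∧ lk 0 = 1 := by
  classical
  choose g hgA hg using R.rsur
  have key : ∀ x ∈ c.A, C.lam (g (R.r x)) = C.lam x := by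
    intro x hx
    have h1 : R.r (g (R.r x) - x) = 0 := by
      rw [sub_eq_add_neg, R.radd _ (hgA _) _ (c.A.neg_mem hx), R.rneg hx, hg, add_neg_cancel]
    have h2 := C.ltriv _ ((R.rker _ (c.A.sub_mem (hgA _) hx)).1 h1)
    have h3 : g (R.r x) = (g (R.r x) - x) + x := by ring
    rw [h3, C.ladd, h2, one_mul]
  refine ⟨fun y => C.lam (g y), ?_, ?_, key, ?_, ?_⟩
  · intro x y
    change C.lam (g (x + y)) = C.lam (g x) * C.lam (g y)
    rw [← C.ladd]
    have h : x + y = R.r (g x + g y) := by rw [R.radd _ (hgA _) _ (hgA _), hg, hg]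
    rw [h]
    exact key _ (c.A.add_mem (hgA _) (hgA _))
  · intro x
    change C.lam (g (R.S x)) = C.lam (g x)
    have h : R.S x = R.r (c.sig (g x)) := by rw [R.rsig _ (hgA _), hg]
    rw [h, key _ (c.sigA _ (hgA _)), C.lsig]
  · obtain ⟨x, hx, hne⟩ := C.lnt
    exact ⟨R.r x, by
      change C.lam (g (R.r x)) ≠ 1
      rw [key x hx]
      exact hne⟩
  · change C.lam (g 0) = 1
    have := key 0 c.A.zero_mem
    rw [R.r0] at this
    rw [this, C.lzero]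

end Chr

end Pool.Agent.Helper42.WD
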