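import Pool.Agent.Helper42.WD.Ind

namespace Pool.Agent.Helper42.WD

variable {K : Type} [Field K] {c : Dat K} {k : Type} [Field k]

theorem mat_mul (A B : Matrix (Fin 2) (Fin 2) (Cyc c)) :
    A * B = !![A 0 0 * B 0 0 + A 0 1 * B 1 0, A 0 0 * B 0 1 + A 0 1 * B 1 1;
      A 1 0 * B 0 0 + A 1 1 * B 1 0, A 1 0 * B 0 1 + A 1 1 * B 1 1] := by
  refine Matrix.ext fun i j => ?_
  rw [Matrix.mul_apply, Fin.sum_univ_two]
  fin_cases i <;> fin_cases j <;> rfl

theorem mat_ext' {A B : Matrix (Fin 2) (Fin 2) (Cyc c)} (h00 : A 0 0 = B 0 0) (h01 : A 0 1 = B 0 1)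
    (h10 : A 1 0 = B 1 0) (h11 : A 1 1 = B 1 1) : A = B := by
  refine Matrix.ext fun i j => ?_
  fin_cases i <;> fin_cases j
  · exact h00
  · exact h01
  · exact h10
  · exact h11

theorem G_ext {g h : G c} (h00 : g.val 0 0 = h.val 0 0) (h01 : g.val 0 1 = h.val 0 1)
    (h10 : g.val 1 0 = h.val 1 0) (h11 : g.val 1 1 = h.val 1 1) : g = h :=
  Units.ext (mat_ext' h00 h01 h10 h11)

theorem G_mul00 (g h : G c) : (g * h).val 0 0 = g.val 0 0 * h.val 0 0 + g.val 0 1 * h.val 1 0 := by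
  change (g.val * h.val) 0 0 = _
  rw [mat_mul]; rfl
theorem G_mul01 (g h : G c) : (g * h).val 0 1 = g.val 0 0 * h.val 0 1 + g.val 0 1 * h.val 1 1 := by
  change (g.val * h.val) 0 1 = _
  rw [mat_mul]; rfl
theorem G_mul10 (g h : G c) : (g * h).val 1 0 = g.val 1 0 * h.val 0 0 + g.val 1 1 * h.val 1 0 := by
  change (g.val * h.val) 1 0 = _
  rw [mat_mul]; rfl
theorem G_mul11 (g h : G c) : (g * h).val 1 1 = g.val 1 0 * h.val 0 1 + g.val 1 1 * h.val 1 1 := by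
  change (g.val * h.val) 1 1 = _
  rw [mat_mul]; rfl

/-- lower unipotent -/
def nm (c : Dat K) (x : Cyc c) : G c where
  val := !![1, 0; x, 1]
  inv := !![1, 0; -x, 1]
  val_inv := by
    rw [mat_mul]
    apply mat_ext' <;> simp
  inv_val := by
    rw [mat_mul]
    apply mat_ext' <;> simp

/-- diagonal matrices -/
noncomputable def dg (a b : Cyc c) (ha : a ≠ 0) (hb : b ≠ 0) : G c where
  val := !![a, 0; 0, b]
  inv := !![a⁻¹, 0; 0, b⁻¹]
  val_inv := by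
    rw [mat_mul]
    apply mat_ext' <;> simp [ha, hb]
  inv_val := by
    rw [mat_mul]
    apply mat_ext' <;> simp [ha, hb]

@[simp] theorem nn00 (x : Cyc c) : (nn c x).val 0 0 = 1 := rfl
@[simp] theorem nn01 (x : Cyc c) : (nn c x).val 0 1 = x := rfl
@[simp] theorem nn10 (x : Cyc c) : (nn c x).val 1 0 = 0 := rfl
@[simp] theorem nn11 (x : Cyc c) : (nn c x).val 1 1 = 1 := rfl
@[simp] theorem nm00 (x : Cyc c) : (nm c x).val 0 0 = 1 := rfl
@[simp] theorem nm01 (x : Cyc c) : (nm c x).val 0 1 = 0 := rfl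
@[simp] theorem nm10 (x : Cyc c) : (nm c x).val 1 0 = x := rfl
@[simp] theorem nm11 (x : Cyc c) : (nm c x).val 1 1 = 1 := rfl
@[simp] theorem dg00 (a b : Cyc c) (ha : a ≠ 0) (hb : b ≠ 0) : (dg a b ha hb).val 0 0 = a := rfl
@[simp] theorem dg01 (a b : Cyc c) (ha : a ≠ 0) (hb : b ≠ 0) : (dg a b ha hb).val 0 1 = 0 := rfl
@[simp] theorem dg10 (a b : Cyc c) (ha : a ≠ 0) (hb : b ≠ 0) : (dg a b ha hb).val 1 0 = 0 := rfl
@[simp] theorem dg11 (a b : Cyc c) (ha : a ≠ 0) (hb : b ≠ 0) : (dg a b ha hb).val 1 1 = b := rfl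
@[simp] theorem dT00 (m n : ℤ) : (dT c m n).val 0 0 = Tp c m := rfl
@[simp] theorem dT01 (m n : ℤ) : (dT c m n).val 0 1 = 0 := rfl
@[simp] theorem dT10 (m n : ℤ) : (dT c m n).val 1 0 = 0 := rfl
@[simp] theorem dT11 (m n : ℤ) : (dT c m n).val 1 1 = Tp c n := rfl

theorem nn_add (x y : Cyc c) : nn c (x + y) = nn c x * nn c y := by
  apply G_ext <;> simp only [G_mul00, G_mul01, G_mul10, G_mul11] <;> simp [add_comm]

theorem nn_zero : nn c 0 = 1 := by
  apply G_ext <;> simp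

theorem nn_neg (x : Cyc c) : (nn c x)⁻¹ = nn c (-x) := by
  rw [inv_eq_iff_mul_eq_one, ← nn_add, add_neg_cancel, nn_zero]

theorem nm_add (x y : Cyc c) : nm c (x + y) = nm c x * nm c y := by
  apply G_ext <;> simp only [G_mul00, G_mul01, G_mul10, G_mul11] <;> simp

theorem nm_zero : nm c 0 = 1 := by
  apply G_ext <;> simp

theorem nm_neg (x : Cyc c) : (nm c x)⁻¹ = nm c (-x) := by
  rw [inv_eq_iff_mul_eq_one, ← nm_add, add_neg_cancel, nm_zero]

theorem dg_inv (a b : Cyc c) (ha : a ≠ 0) (hb : b ≠ 0) :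
    (dg a b ha hb)⁻¹ = dg a⁻¹ b⁻¹ (inv_ne_zero ha) (inv_ne_zero hb) := by
  apply Units.ext
  rfl

theorem dg_nn (a b : Cyc c) (ha : a ≠ 0) (hb : b ≠ 0) (x : Cyc c) :
    dg a b ha hb * nn c x * (dg a b ha hb)⁻¹ = nn c (a * x * b⁻¹) := by
  rw [mul_inv_eq_iff_eq_mul]
  apply G_ext <;> simp only [G_mul00, G_mul01, G_mul10, G_mul11] <;> simp [hb]

theorem dg_nm (a b : Cyc c) (ha : a ≠ 0) (hb : b ≠ 0) (x : Cyc c) :
    dg a b ha hb * nm c x * (dg a b ha hb)⁻¹ = nm c (b * x * a⁻¹) := by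
  rw [mul_inv_eq_iff_eq_mul]
  apply G_ext <;> simp only [G_mul00, G_mul01, G_mul10, G_mul11] <;> simp [ha]

theorem dT_eq_dg (m n : ℤ) : dT c m n = dg (Tp c m) (Tp c n) (Tp_ne m) (Tp_ne n) := by
  apply G_ext <;> simp

/-! ### Elements of `J0` -/

theorem IwM_nn {x : Cyc c} (hx : InO c x) : IwM (nn c x).val :=
  ⟨InO.one, hx, PP_one.1 (PP.zero 1), InO.one⟩

theorem nn_InJ0 (R : Res c k) {x : Cyc c} (hx : InP c x) : InJ0 R (nn c x) := by
  refine ⟨IwM_nn hx.inO, ?_, ?_, ?_⟩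
  · rw [nn_neg]
    exact IwM_nn hx.inO.neg
  · have h1 : R.rr0 (nn c x).val = 1 := by
      apply Prod.ext
      · exact R.cf_one_zero
      · exact R.cf_one_zero
    rw [h1, map_one, map_one, map_one]
  · have h1 : R.rr1 (nn c x).val = 0 := by
      apply Prod.ext
      · exact R.cf0_InP hx
      · exact R.cf_zero 1
    rw [h1, map_zero, map_zero, map_zero]

theorem IwM_nm {x : Cyc c} (hx : InP c x) : IwM (nm c x).val :=
  ⟨InO.one, InO.zero, hx, InO.one⟩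

theorem nm_InJ0 (R : Res c k) {x : Cyc c} (hx : PP c 2 x) : InJ0 R (nm c x) := by
  have hP : InP c x := PP_one.1 (hx.mono (by norm_num))
  refine ⟨IwM_nm hP, ?_, ?_, ?_⟩
  · rw [nm_neg]
    apply IwM_nm
    rw [← PP_one] at hP ⊢
    exact hP.neg
  · have h1 : R.rr0 (nm c x).val = 1 := by
      apply Prod.ext
      · exact R.cf_one_zero
      · exact R.cf_one_zero
    rw [h1, map_one, map_one, map_one]
  · have h1 : R.rr1 (nm c x).val = 0 := by
      apply Prod.ext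
      · exact R.cf_zero 0
      · exact ((R.PP_two hP.inO).1 hx).2
    rw [h1, map_zero, map_zero, map_zero]

theorem CD.L_nn (D : CD c k) {x : Cyc c} (hx : InP c x) :
    nn c x ∈ JJ D ∧ D.L (nn c x) = D.C.mu (x * Tp c (-1)) := by
  have h0 := nn_InJ0 D.R hx
  refine ⟨(D.L_J0 h0).1, ?_⟩
  rw [(D.L_J0 h0).2]
  have r0 : D.R.rr0 ((nn c x)⁻¹ : G c).val = 1 := by
    rw [nn_neg]
    apply Prod.ext
    · exact D.R.cf_one_zero
    · exact D.R.cf_one_zero
  have r1 : D.R.rr1 (nn c x).val = 0 := by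
    apply Prod.ext
    · exact D.R.cf0_InP hx
    · exact D.R.cf_zero 1
  have r2 : D.R.rr2 (nn c x).val = 0 := by
    apply Prod.ext
    · exact D.R.cf_one_one
    · exact D.R.cf_one_one
  have r3 : D.R.rr3 (nn c x).val = (D.R.r x.x1, 0) := by
    apply Prod.ext
    · rfl
    · exact D.R.cf_zero 2
  have h1 : ex D.R D.e (nn c x) = (D.R.r x.x1, 0) := by
    rw [ex, r0, r1, r2, r3]
    simp only [FF, one_mul, mul_zero, zero_mul, sub_zero, add_zero]
  change D.LL (ex D.R D.e (nn c x)) = _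
  rw [h1]
  change D.lk (D.R.r x.x1 + 0) = _
  rw [add_zero, D.lkr _ hx.2.1, mul_Tp_neg_one]
  rfl

theorem CD.L_nm (D : CD c k) {x : Cyc c} (hx : PP c 2 x) :
    nm c x ∈ JJ D ∧ D.L (nm c x) = D.C.lam x.x2 := by
  have hP : InP c x := PP_one.1 (hx.mono (by norm_num))
  have h0 := nm_InJ0 D.R hx
  refine ⟨(D.L_J0 h0).1, ?_⟩
  rw [(D.L_J0 h0).2]
  have r0 : D.R.rr0 ((nm c x)⁻¹ : G c).val = 1 := by
    rw [nm_neg]
    apply Prod.ext
    · exact D.R.cf_one_zero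
    · exact D.R.cf_one_zero
  have r1 : D.R.rr1 (nm c x).val = 0 := by
    apply Prod.ext
    · exact D.R.cf_zero 0
    · exact ((D.R.PP_two hP.inO).1 hx).2
  have r2 : D.R.rr2 (nm c x).val = 0 := by
    apply Prod.ext
    · exact D.R.cf_one_one
    · exact D.R.cf_one_one
  have r3 : D.R.rr3 (nm c x).val = (0, D.R.r x.x2) := by
    apply Prod.ext
    · exact D.R.cf_zero 1
    · rfl
  have h1 : ex D.R D.e (nm c x) = (0, D.R.r x.x2) := by
    rw [ex, r0, r1, r2, r3]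
    simp only [FF, one_mul, mul_zero, zero_mul, sub_zero, add_zero]
  change D.LL (ex D.R D.e (nm c x)) = _
  rw [h1]
  change D.lk (0 + D.R.r x.x2) = _
  rw [zero_add, D.lkr _ hP.2.2]

end Pool.Agent.Helper42.WD
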