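import Pool.Agent.Helper42.WD.Dec

namespace Pool.Agent.Helper42.WD

variable {K : Type} [Field K] {c : Dat K} {k : Type} [Field k]

theorem IwM_dg {a b : Cyc c} (ha : UO c a) (hb : UO c b) : IwM (dg a b ha.ne hb.ne).val :=
  ⟨ha.1, InO.zero, PP_one.1 (PP.zero 1), hb.1⟩

theorem dg_InJ0 (R : Res c k) {a b : Cyc c} (ha : UO c a) (hb : UO c b)
    (h : R.cf 0 b = R.S (R.S (R.cf 0 a))) : InJ0 R (dg a b ha.ne hb.ne) := by
  refine ⟨IwM_dg ha hb, ?_, ?_, ?_⟩
  · rw [dg_inv]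
    exact IwM_dg ha.inv hb.inv
  · have h1 : R.rr0 (dg a b ha.ne hb.ne).val = (R.cf 0 a, R.cf 0 b) := rfl
    rw [h1]
    apply Prod.ext
    · change R.S (R.cf 0 b) = R.cf 0 a
      rw [h, R.S3]
    · change R.S (R.S (R.cf 0 a)) = R.cf 0 b
      exact h.symm
  · have h1 : R.rr1 (dg a b ha.ne hb.ne).val = 0 := by
      apply Prod.ext
      · exact R.cf_zero 0
      · exact R.cf_zero 1
    rw [h1, map_zero, map_zero, map_zero]

/-- `1 - c b` is a unit for `c` in the maximal ideal. -/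
theorem UO_one_sub {x : Cyc c} (hx : InP c x) : UO c (1 - x) := by
  rw [UO_iff]
  refine ⟨InO.one.sub hx.inO, ?_⟩
  intro h
  apply InP.not_one (c := c)
  rw [← PP_one] at h hx ⊢
  have := h.add hx
  rwa [sub_add_cancel] at this

/-- The matrix `(1 b; z 1)`. -/
noncomputable def MM (b z : Cyc c) (h : UO c (1 - z * b)) : G c :=
  nm c z * dg 1 (1 - z * b) one_ne_zero h.ne * nn c b

theorem MM_val (b z : Cyc c) (h : UO c (1 - z * b)) : (MM b z h).val = !![1, b; z, 1] := by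
  apply mat_ext'
  · rw [MM, G_mul00, G_mul00, G_mul01]
    simp
  · rw [MM, G_mul01, G_mul00, G_mul01]
    simp
  · rw [MM, G_mul10, G_mul10, G_mul11]
    simp
  · rw [MM, G_mul11, G_mul10, G_mul11]
    simp

theorem MM_InJ0 (R : Res c k) {b z : Cyc c} (hb : InO c b) (hz : InP c z) (h : UO c (1 - z * b))
    (hc : R.cf 1 z = R.S (R.S (R.cf 0 b))) : InJ0 R (MM b z h) := by
  refine ⟨?_, ?_, ?_, ?_⟩
  · rw [MM_val]
    exact ⟨InO.one, hb, hz, InO.one⟩
  · rw [MM, mul_inv_rev, mul_inv_rev, nn_neg, nm_neg, dg_inv]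
    refine IwM.mul (IwM_nn hb.neg) (IwM.mul ?_ (IwM_nm ?_))
    · exact ⟨by simpa using InO.one, InO.zero, PP_one.1 (PP.zero 1), h.inv.1⟩
    · rw [← PP_one] at hz ⊢
      exact hz.neg
  · have h1 : R.rr0 (MM b z h).val = 1 := by
      rw [MM_val]
      apply Prod.ext
      · exact R.cf_one_zero
      · exact R.cf_one_zero
    rw [h1, map_one, map_one, map_one]
  · have h1 : R.rr1 (MM b z h).val = (R.cf 0 b, R.cf 1 z) := by
      rw [MM_val]
      rfl
    rw [h1]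
    apply Prod.ext
    · change R.S (R.cf 1 z) = R.cf 0 b
      rw [hc, R.S3]
    · change R.S (R.S (R.cf 0 b)) = R.cf 1 z
      exact hc.symm

/-- converse: `nn x` is in `J` only if `x` is in the maximal ideal -/
theorem nn_mem_JJ {D : CD c k} {x : Cyc c} (h : nn c x ∈ JJ D) : InP c x := by
  obtain ⟨n, hn⟩ := h
  have hi := hn.iwi
  rw [mul_inv_rev, ← zpow_neg, neg_neg, nn_neg] at hi
  have h0 := hn.iw
  rcases Int.even_or_odd' n with ⟨m, hm | hm⟩
  · have e1 : Pi0 c ^ (-n) = dT c (-m) (-m) := by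
      rw [hm, ← mul_neg, Pi0_even]
    have e2 : Pi0 c ^ n = dT c m m := by rw [hm, Pi0_even]
    have hm1 : -m ≥ 0 := by
      have h1 := h0.h00
      rw [e1, G_mul00] at h1
      simp only [dT00, dT01, nn00, nn10, mul_one, mul_zero, add_zero] at h1
      have h2 := (ord_spec (c := c) UO.one (one_mul (Tp c (-m))).symm 0).1 (PP_zero.2 h1)
      omega
    have hm2 : m ≥ 0 := by
      have h1 := hi.h11
      rw [e2, G_mul11] at h1
      simp only [dT01, dT11, nn11, nn10, one_mul, zero_mul, zero_add] at h1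
      have h2 := (ord_spec (c := c) UO.one (one_mul (Tp c m)).symm 0).1 (PP_zero.2 h1)
      omega
    have hm0 : n = 0 := by omega
    rw [hm0, neg_zero, zpow_zero, one_mul] at hn
    have h1 := hn.f1
    have h2 : D.R.rr1 (nn c x).val = (D.R.cf 0 x, 0) := by
      apply Prod.ext
      · rfl
      · exact D.R.cf_zero 1
    rw [h2] at h1
    have h3 : D.R.S 0 = D.R.cf 0 x := congrArg Prod.fst h1
    rw [map_zero] at h3
    exact (D.R.cf0_eq_zero hn.iw.h01).1 h3.symm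
  · exfalso
    have e2 : Pi0 c ^ n = dT c m m * Pi0 c := by rw [hm, zpow_add, Pi0_even, zpow_one]
    have e1 : Pi0 c ^ (-n) = (Pi0 c)⁻¹ * dT c (-m) (-m) := by
      have : -n = -1 + 2 * (-m) := by omega
      rw [this, zpow_add, Pi0_even, zpow_neg_one]
    have hm1 : 0 ≤ -1 - m := by
      have h1 := h0.h01
      have e3 : (Pi0 c ^ (-n) * nn c x).val 0 1 = Tp c (-1) * Tp c (-m) := by
        rw [e1, G_mul01, G_mul00, G_mul01]
        have p00 : ((Pi0 c)⁻¹ : G c).val 0 0 = 0 := rfl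
        have p01 : ((Pi0 c)⁻¹ : G c).val 0 1 = Tp c (-1) := rfl
        rw [p00, p01]
        simp
      rw [e3, ← Tp_add] at h1
      have h2 := (ord_spec (c := c) UO.one (one_mul (Tp c (-1 + -m))).symm 0).1 (PP_zero.2 h1)
      omega
    have hm2 : 0 ≤ m := by
      have h1 := hi.h01
      have e3 : (nn c (-x) * Pi0 c ^ n).val 0 1 = Tp c m := by
        rw [e2, G_mul01, G_mul01, G_mul11]
        have p01 : (Pi0 c).val 0 1 = 1 := rfl
        have p11 : (Pi0 c).val 1 1 = 0 := rfl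
        rw [p01, p11]
        simp
      rw [e3] at h1
      have h2 := (ord_spec (c := c) UO.one (one_mul (Tp c m)).symm 0).1 (PP_zero.2 h1)
      omega
    omega

theorem Pi0_mem (D : CD c k) (n : ℤ) : Pi0 c ^ n ∈ JJ D := by
  refine ⟨n, ?_⟩
  rw [← zpow_add, neg_add_cancel, zpow_zero]
  exact InJ0.one _

theorem dT_mem (D : CD c k) (n : ℤ) : dT c n n ∈ JJ D := by
  rw [← Pi0_even]
  exact Pi0_mem D _

/-- invertible matrices have non-zero first column -/
theorem col_ne (g : G c) (h0 : g.val 0 0 = 0) (h1 : g.val 1 0 = 0) : False := by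
  have h2 : (g⁻¹ * g).val 0 0 = 1 := by
    rw [inv_mul_cancel]
    rfl
  rw [G_mul00, h0, h1, mul_zero, mul_zero, add_zero] at h2
  exact zero_ne_one h2

/-- matrices with vanishing lower left entry -/
theorem upper_form (g : G c) (h : g.val 1 0 = 0) : ∃ (p r q : Cyc c) (hp : p ≠ 0) (hr : r ≠ 0),
    g = dg p r hp hr * nn c q := by
  have hp : g.val 0 0 ≠ 0 := fun h0 => col_ne g h0 h
  have hr : g.val 1 1 ≠ 0 := by
    intro h0
    have h2 : (g * g⁻¹).val 1 1 = 1 := by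
      rw [mul_inv_cancel]
      rfl
    rw [G_mul11, h, h0, zero_mul, zero_mul, add_zero] at h2
    exact zero_ne_one h2
  refine ⟨_, _, (g.val 0 0)⁻¹ * g.val 0 1, hp, hr, ?_⟩
  apply G_ext <;> simp only [G_mul00, G_mul01, G_mul10, G_mul11] <;> simp [h, hp]

/-- first columns -/
theorem clear_col {g j : G c} {s : Cyc c} (h0 : j.val 0 0 * s = g.val 0 0)
    (h1 : j.val 1 0 * s = g.val 1 0) : (j⁻¹ * g).val 1 0 = 0 := by
  rw [G_mul10, ← h0, ← h1, ← mul_assoc, ← mul_assoc, ← add_mul]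
  have h2 : (j⁻¹ * j).val 1 0 = 0 := by
    rw [inv_mul_cancel]
    rfl
  rw [G_mul10] at h2
  rw [h2, zero_mul]

theorem exists_b (R : Res c k) (y : k) : ∃ b : Cyc c, InO c b ∧ y = R.S (R.S (R.cf 0 b)) := by
  obtain ⟨b, hb, h, _, _⟩ := R.exists_const (R.S y)
  exact ⟨b, hb, by rw [h, R.S3]⟩

theorem exists_z (R : Res c k) (y : k) : ∃ z : Cyc c, InP c z ∧ R.cf 1 z = y := by
  obtain ⟨a, ha, h⟩ := R.rsur y
  refine ⟨⟨0, a, 0⟩, ⟨?_, ha, c.A.zero_mem⟩, h⟩
  change (0 : K) / c.pi ∈ c.A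
  rw [zero_div]
  exact c.A.zero_mem

/-- `G = J B`. -/
theorem decB0 (D : CD c k) (g : G c) : ∃ j ∈ JJ D, (j⁻¹ * g).val 1 0 = 0 := by
  by_cases hA : g.val 0 0 ≠ 0 ∧ InP c (g.val 1 0 * (g.val 0 0)⁻¹)
  · obtain ⟨hp, hz⟩ := hA
    obtain ⟨b, hb, hbc⟩ := exists_b D.R (D.R.cf 1 (g.val 1 0 * (g.val 0 0)⁻¹))
    have hU : UO c (1 - g.val 1 0 * (g.val 0 0)⁻¹ * b) := UO_one_sub (hz.mul_right hb)
    refine ⟨MM b _ hU, (D.L_J0 (MM_InJ0 D.R hb hz hU hbc)).1, ?_⟩
    apply clear_col (s := g.val 0 0)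
    · rw [MM_val]
      exact one_mul _
    · rw [MM_val]
      change g.val 1 0 * (g.val 0 0)⁻¹ * g.val 0 0 = g.val 1 0
      rw [mul_assoc, inv_mul_cancel₀ hp, mul_one]
  · have hq : g.val 1 0 ≠ 0 := by
      intro hq
      apply hA
      refine ⟨fun hp => col_ne g hp hq, ?_⟩
      rw [hq, zero_mul, ← PP_one]
      exact PP.zero 1
    have hO : InO c (g.val 0 0 * (g.val 1 0)⁻¹) := by
      by_cases hp : g.val 0 0 = 0
      · rw [hp, zero_mul]
        exact InO.zero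
      · have hne : g.val 0 0 * (g.val 1 0)⁻¹ ≠ 0 := mul_ne_zero hp (inv_ne_zero hq)
        obtain ⟨n, u, hu, hx⟩ := exists_ord' _ hne
        rw [← PP_zero, ord_spec hu hx]
        by_contra hn
        apply hA
        refine ⟨hp, ?_⟩
        have h1 : g.val 1 0 * (g.val 0 0)⁻¹ = (g.val 0 0 * (g.val 1 0)⁻¹)⁻¹ := by
          rw [mul_inv_rev, inv_inv]
        rw [h1, ← PP_one, ord_inv_spec hu hx]
        omega
    set z := g.val 0 0 * (g.val 1 0)⁻¹ * Tp c 1 with hz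
    have hzP : InP c z := by
      rw [← PP_one, hz]
      have := (PP_zero.2 hO).mul (PP_Tp 1)
      rwa [zero_add] at this
    obtain ⟨b, hb, hbc⟩ := exists_b D.R (D.R.cf 1 z)
    have hU : UO c (1 - z * b) := UO_one_sub (hzP.mul_right hb)
    refine ⟨Pi0 c * MM b z hU, (JJ D).mul_mem ?_ (D.L_J0 (MM_InJ0 D.R hb hzP hU hbc)).1, ?_⟩
    · have := Pi0_mem D 1
      rwa [zpow_one] at this
    · have p00 : (Pi0 c).val 0 0 = 0 := rfl
      have p01 : (Pi0 c).val 0 1 = 1 := rfl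
      have p10 : (Pi0 c).val 1 0 = Tp c 1 := rfl
      have p11 : (Pi0 c).val 1 1 = 0 := rfl
      have m00 : (MM b z hU).val 0 0 = 1 := by rw [MM_val]; rfl
      have m10 : (MM b z hU).val 1 0 = z := by rw [MM_val]; rfl
      apply clear_col (s := Tp c (-1) * g.val 1 0)
      · rw [G_mul00, p00, p01, m00, m10, zero_mul, one_mul, zero_add, hz]
        rw [mul_assoc _ (Tp c 1), ← mul_assoc (Tp c 1), Tp_mul_neg, one_mul, mul_assoc,
          inv_mul_cancel₀ hq, mul_one]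
      · rw [G_mul10, p10, p11, m00, m10, zero_mul, mul_one, add_zero, ← mul_assoc, Tp_mul_neg, one_mul]

/-- `G = J {diag(y, 1)} N`. -/
theorem decB (D : CD c k) (g : G c) : ∃ j ∈ JJ D, ∃ (y x : Cyc c) (hy : y ≠ 0),
    g = j * (dg y 1 hy one_ne_zero * nn c x) := by
  obtain ⟨j, hj, h⟩ := decB0 D g
  obtain ⟨p, r, q, hp, hr, h1⟩ := upper_form _ h
  obtain ⟨n, u, hu, hx⟩ := exists_ord' r hr
  have hcj : UO c (cj u) := by
    rw [← cjn_one]
    exact hu.cjn 1
  have hJ0 : InJ0 D.R (dg (cj u) u hcj.ne hu.ne) := by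
    apply dg_InJ0 D.R hcj hu
    rw [D.R.cf_cj 0 hu.1, D.R.S3]
  have hne : cj u * Tp c n ≠ 0 := mul_ne_zero hcj.ne (Tp_ne n)
  refine ⟨j * (dg (cj u) u hcj.ne hu.ne * dT c n n),
    (JJ D).mul_mem hj ((JJ D).mul_mem (D.L_J0 hJ0).1 (dT_mem D n)), (cj u * Tp c n)⁻¹ * p, q,
    mul_ne_zero (inv_ne_zero hne) hp, ?_⟩
  have h2 : g = j * (dg p r hp hr * nn c q) := by
    rw [← h1, mul_inv_cancel_left]
  rw [h2, mul_assoc j]
  congr 1
  rw [← mul_assoc]
  congr 1
  apply G_ext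
  · simp only [G_mul00, G_mul01, dg00, dg01, dg10, dT00, dT10, mul_zero, add_zero, zero_mul]
    rw [← mul_assoc, mul_inv_cancel₀ hne, one_mul]
  · simp only [G_mul01, G_mul00, dg00, dg01, dg11, dT01, dT11, mul_zero, add_zero, zero_mul]
  · simp only [G_mul10, G_mul11, dg00, dg10, dg11, dT00, dT10, mul_zero, add_zero, zero_mul]
  · simp only [G_mul11, G_mul10, dg10, dg11, dT11, dg01, mul_zero, zero_add, mul_one, zero_mul]
    exact hx

end Pool.Agent.Helper42.WD
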