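import Mathlib

namespace Pool.Agent.Helper42.WD

/-- Data defining a cyclic division algebra of degree three over a discretely valued field `F` with
finite residue field: a field `K` with a discrete valuation ring `A` (uniformizer `pi`), finite
residue field, and an automorphism `sig` of `K` of order three preserving `A`, fixing `pi` and acting
non-trivially on the residue field. Here `F` is the fixed field of `sig`, so that `K/F` is an
unramified cyclic cubic extension. -/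
structure Dat (K : Type) [Field K] where
  A : Subring K
  sig : K ≃+* K
  pi : K
  sig3 : ∀ x, sig (sig (sig x)) = x
  sigA : ∀ x, x ∈ A → sig x ∈ A
  sigpi : sig pi = pi
  pine : pi ≠ 0
  piA : pi ∈ A
  pinv : pi⁻¹ ∉ A
  unif : ∀ x, x ≠ 0 → ∃ (n : ℤ) (u : K), u ∈ A ∧ u⁻¹ ∈ A ∧ x = u * pi ^ n
  fin : ∃ S : Finset K, ∀ x ∈ A, ∃ s ∈ S, (x - s) / pi ∈ A
  sign : ∃ x ∈ A, (sig x - x) / pi ∉ A

variable {K : Type} [Field K]

/-- The fixed field `F` of `sig`. -/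
def Dat.F (c : Dat K) : Subfield K where
  carrier := {x | c.sig x = x}
  mul_mem' := by
    intro a b ha hb
    change c.sig a = a at ha
    change c.sig b = b at hb
    change c.sig (a * b) = a * b
    rw [map_mul, ha, hb]
  one_mem' := map_one _
  add_mem' := by
    intro a b ha hb
    change c.sig a = a at ha
    change c.sig b = b at hb
    change c.sig (a + b) = a + b
    rw [map_add, ha, hb]
  zero_mem' := map_zero _
  neg_mem' := by
    intro a ha
    change c.sig a = a at ha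
    change c.sig (-a) = -a
    rw [map_neg, ha]
  inv_mem' := by
    intro a ha
    change c.sig a = a at ha
    change c.sig a⁻¹ = a⁻¹
    rw [map_inv₀, ha]

/-- The cyclic algebra `K + K T + K T ^ 2`, `T ^ 3 = pi`, `T a = sig a T`; the triple `(x0, x1, x2)`
is the element `x0 + x1 T + x2 T ^ 2`. -/
@[ext] structure Cyc (c : Dat K) where
  x0 : K
  x1 : K
  x2 : K

namespace Cyc

variable {c : Dat K}

instance : Zero (Cyc c) := ⟨⟨0, 0, 0⟩⟩
instance : One (Cyc c) := ⟨⟨1, 0, 0⟩⟩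
instance : Add (Cyc c) := ⟨fun x y => ⟨x.x0 + y.x0, x.x1 + y.x1, x.x2 + y.x2⟩⟩
instance : Neg (Cyc c) := ⟨fun x => ⟨-x.x0, -x.x1, -x.x2⟩⟩
instance : Mul (Cyc c) := ⟨fun x y =>
  ⟨x.x0 * y.x0 + c.pi * (x.x1 * c.sig y.x2 + x.x2 * c.sig (c.sig y.x1)),
   x.x0 * y.x1 + x.x1 * c.sig y.x0 + c.pi * (x.x2 * c.sig (c.sig y.x2)),
   x.x0 * y.x2 + x.x1 * c.sig y.x1 + x.x2 * c.sig (c.sig y.x0)⟩⟩

@[simp] theorem zero_x0 : (0 : Cyc c).x0 = 0 := rfl
@[simp] theorem zero_x1 : (0 : Cyc c).x1 = 0 := rfl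
@[simp] theorem zero_x2 : (0 : Cyc c).x2 = 0 := rfl
@[simp] theorem one_x0 : (1 : Cyc c).x0 = 1 := rfl
@[simp] theorem one_x1 : (1 : Cyc c).x1 = 0 := rfl
@[simp] theorem one_x2 : (1 : Cyc c).x2 = 0 := rfl
@[simp] theorem add_x0 (x y : Cyc c) : (x + y).x0 = x.x0 + y.x0 := rfl
@[simp] theorem add_x1 (x y : Cyc c) : (x + y).x1 = x.x1 + y.x1 := rfl
@[simp] theorem add_x2 (x y : Cyc c) : (x + y).x2 = x.x2 + y.x2 := rfl
@[simp] theorem neg_x0 (x : Cyc c) : (-x).x0 = -x.x0 := rfl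
@[simp] theorem neg_x1 (x : Cyc c) : (-x).x1 = -x.x1 := rfl
@[simp] theorem neg_x2 (x : Cyc c) : (-x).x2 = -x.x2 := rfl
@[simp] theorem mul_x0 (x y : Cyc c) : (x * y).x0 =
    x.x0 * y.x0 + c.pi * (x.x1 * c.sig y.x2 + x.x2 * c.sig (c.sig y.x1)) := rfl
@[simp] theorem mul_x1 (x y : Cyc c) : (x * y).x1 =
    x.x0 * y.x1 + x.x1 * c.sig y.x0 + c.pi * (x.x2 * c.sig (c.sig y.x2)) := rfl
@[simp] theorem mul_x2 (x y : Cyc c) : (x * y).x2 =
    x.x0 * y.x2 + x.x1 * c.sig y.x1 + x.x2 * c.sig (c.sig y.x0) := rfl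

instance : Ring (Cyc c) where
  add := (· + ·)
  zero := 0
  neg := Neg.neg
  mul := (· * ·)
  one := 1
  add_assoc x y z := by ext <;> simp [add_assoc]
  zero_add x := by ext <;> simp
  add_zero x := by ext <;> simp
  add_comm x y := by ext <;> simp [add_comm]
  neg_add_cancel x := by ext <;> simp
  nsmul := nsmulRec
  zsmul := zsmulRec
  left_distrib x y z := by ext <;> simp <;> ring
  right_distrib x y z := by ext <;> simp <;> ring
  zero_mul x := by ext <;> simp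
  mul_zero x := by ext <;> simp
  one_mul x := by ext <;> simp
  mul_one x := by ext <;> simp
  mul_assoc x y z := by ext <;> simp [c.sig3, c.sigpi] <;> ring

end Cyc

/-- The maximal order `O_D`. -/
def InO (c : Dat K) (x : Cyc c) : Prop := x.x0 ∈ c.A ∧ x.x1 ∈ c.A ∧ x.x2 ∈ c.A

/-- The maximal ideal `P_D` of `O_D`. -/
def InP (c : Dat K) (x : Cyc c) : Prop := x.x0 / c.pi ∈ c.A ∧ x.x1 ∈ c.A ∧ x.x2 ∈ c.A

/-- `pi ^ m O_D`. -/
def InPi (c : Dat K) (m : ℕ) (x : Cyc c) : Prop :=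
  x.x0 / c.pi ^ m ∈ c.A ∧ x.x1 / c.pi ^ m ∈ c.A ∧ x.x2 / c.pi ^ m ∈ c.A

/-- The reduced trace `D → F`. -/
def trd (c : Dat K) (x : Cyc c) : c.F :=
  ⟨x.x0 + c.sig x.x0 + c.sig (c.sig x.x0), by
    change c.sig _ = _
    rw [map_add, map_add, c.sig3]
    ring⟩

/-- The group `GL_2(D)`. -/
abbrev G (c : Dat K) : Type := (Matrix (Fin 2) (Fin 2) (Cyc c))ˣ

/-- The unipotent upper triangular matrix `(1 x; 0 1)`. -/
def nn (c : Dat K) (x : Cyc c) : G c where
  val := !![1, x; 0, 1]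
  inv := !![1, -x; 0, 1]
  val_inv := by
    refine Matrix.ext fun i j => ?_
    fin_cases i <;> fin_cases j <;> simp [Matrix.mul_apply, Fin.sum_univ_two]
  inv_val := by
    refine Matrix.ext fun i j => ?_
    fin_cases i <;> fin_cases j <;> simp [Matrix.mul_apply, Fin.sum_univ_two]

variable {V : Type} [AddCommGroup V] [Module ℂ V]

/-- Smoothness: every vector is fixed by a principal congruence subgroup. -/
def Smooth {c : Dat K} (ρ : Representation ℂ (G c) V) : Prop :=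
  ∀ v : V, ∃ m : ℕ, 0 < m ∧ ∀ g : G c, (∀ i j, InPi c m ((g.val - 1) i j)) → ρ g v = v

/-- Irreducibility. -/
def Irred {c : Dat K} (ρ : Representation ℂ (G c) V) : Prop :=
  (∃ v : V, v ≠ 0) ∧ ∀ W : Submodule ℂ V, (∀ g : G c, ∀ v ∈ W, ρ g v ∈ W) → W = ⊥ ∨ W = ⊤

/-- The span of all `ρ(u) v - ψ(u) v`, `u = (1 x; 0 1)`, `ψ(u) = f x`. -/
def tspan {c : Dat K} (ρ : Representation ℂ (G c) V) (f : Cyc c → ℂ) : Submodule ℂ V :=
  Submodule.span ℂ {w | ∃ (x : Cyc c) (v : V), w = ρ (nn c x) v - f x • v}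

/-- The statement. -/
def MAIN : Prop :=
  ∀ (K : Type) [Field K] (c : Dat K) (φ : AddChar c.F ℂ), φ ≠ 1 →
    (∃ n : ℕ, ∀ x : c.F, (x : K) / c.pi ^ n ∈ c.A → φ x = 1) →
    (∀ x : Cyc c, x ≠ 0 → ∃ y, x * y = 1 ∧ y * x = 1) ∧
    (∀ x : Cyc c, (∀ y, x * y = y * x) ↔ (x.x0 ∈ c.F ∧ x.x1 = 0 ∧ x.x2 = 0)) ∧
    ∃ (V : Type) (_ : AddCommGroup V) (_ : Module ℂ V) (ρ : Representation ℂ (G c) V),
      Smooth ρ ∧ Irred ρ ∧
      -- cuspidal
      tspan ρ (fun _ => 1) = ⊤ ∧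
      -- unique degenerate Whittaker model
      Module.finrank ℂ (V ⧸ tspan ρ (fun x => φ (trd c x))) = 1 ∧
      -- no twist has depth zero
      ∀ (θ : G c →* ℂˣ) (v : V),
        (∀ g : G c, (∀ i j, InP c ((g.val - 1) i j)) → (θ g : ℂ) • ρ g v = v) → v = 0

end Pool.Agent.Helper42.WD
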