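import Pool.Agent.Helper42.WD.Jac

namespace Pool.Agent.Helper42.WD

variable {K : Type} [Field K] {c : Dat K} {k : Type} [Field k]

/-- the lattice `y⁻¹ P` -/
def Lam (y : Cyc c) : AddSubgroup (Cyc c) where
  carrier := {z | InP c (y * z)}
  zero_mem' := by
    change InP c (y * 0)
    rw [mul_zero, ← PP_one]
    exact PP.zero 1
  add_mem' := by
    intro a b ha hb
    change InP c (y * (a + b))
    rw [mul_add]
    exact InP.add ha hb
  neg_mem' := by
    intro a ha
    change InP c (y * -a)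
    have ha' : InP c (y * a) := ha
    rw [mul_neg, ← PP_one]
    rw [← PP_one] at ha'
    exact ha'.neg

theorem Lam_out (y : Cyc c) (F : Cyc c → ℂ) (hF : ∀ z ∈ Lam y, ∀ x, F (z + x) = F x) (x : Cyc c) :
    F (Quotient.out (QuotientAddGroup.mk x : Cyc c ⧸ Lam y)) = F x := by
  have h1 : (QuotientAddGroup.mk (Quotient.out (QuotientAddGroup.mk x : Cyc c ⧸ Lam y)) : Cyc c ⧸ Lam y)
      = QuotientAddGroup.mk x := Quotient.out_eq _
  rw [eq_comm, QuotientAddGroup.eq] at h1
  have h2 : Quotient.out (QuotientAddGroup.mk x : Cyc c ⧸ Lam y) =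
      (-x + Quotient.out (QuotientAddGroup.mk x : Cyc c ⧸ Lam y)) + x := by abel
  rw [h2, hF _ h1]

/-- averages -/
noncomputable def avg (y : Cyc c) (F : Cyc c → ℂ) : ℂ := ∑ᶠ q : Cyc c ⧸ Lam y, F (Quotient.out q)

theorem avg_shift (y : Cyc c) (F : Cyc c → ℂ) (hF : ∀ z ∈ Lam y, ∀ x, F (z + x) = F x) (u : Cyc c) :
    avg y (fun x => F (x + u)) = avg y F := by
  have h1 : ∀ q : Cyc c ⧸ Lam y, F (Quotient.out q + u) =
      F (Quotient.out ((Equiv.addRight (QuotientAddGroup.mk u : Cyc c ⧸ Lam y)) q)) := by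
    intro q
    have h2 : (Equiv.addRight (QuotientAddGroup.mk u : Cyc c ⧸ Lam y)) q =
        QuotientAddGroup.mk (Quotient.out q + u) := by
      change q + QuotientAddGroup.mk u = _
      conv_lhs => rw [← QuotientAddGroup.out_eq' q]
      rfl
    rw [h2, Lam_out y F hF]
  unfold avg
  rw [finsum_congr h1]
  exact finsum_comp_equiv (Equiv.addRight (QuotientAddGroup.mk u : Cyc c ⧸ Lam y))
    (f := fun q => F (Quotient.out q))

/-- The function on `D` attached to a vector. -/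
noncomputable def Fv (D : CD c k) (b : Cyc c) (y : Cyc c) (hy : y ≠ 0) (v : VV D) (x : Cyc c) : ℂ :=
  v.1 (d1 y hy * nn c x) * D.C.mu (-(b * x))

theorem Fv_inv (D : CD c k) (b : Cyc c) (hb : b ≠ 0) (v : VV D) :
    ∀ z ∈ Lam (Tp c 1 * b), ∀ x, Fv D b (Tp c 1 * b) (mul_ne_zero (Tp_ne 1) hb) v (z + x) =
      Fv D b (Tp c 1 * b) (mul_ne_zero (Tp_ne 1) hb) v x := by
  intro z hz x
  have hz' : InP c (Tp c 1 * b * z) := hz
  obtain ⟨h2, h3⟩ := D.L_nn hz'
  have h4 : d1 (Tp c 1 * b) (mul_ne_zero (Tp_ne 1) hb) * nn c (z + x) =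
      nn c (Tp c 1 * b * z) * (d1 (Tp c 1 * b) (mul_ne_zero (Tp_ne 1) hb) * nn c x) := by
    rw [nn_add, ← mul_assoc, ← mul_assoc, ← d1_nn _ (mul_ne_zero (Tp_ne 1) hb), inv_mul_cancel_right]
  rw [Fv, Fv, h4, VV_left v h2, h3, D.C.mu_comm]
  have h5 : Tp c (-1) * (Tp c 1 * b * z) = b * z := by
    rw [mul_assoc, ← mul_assoc, Tp_neg_mul, one_mul]
  rw [h5, mul_add, neg_add, D.C.mu_add, D.C.mu_neg]
  have := D.C.mu_ne (b * z)
  field_simp

theorem Fv_fin (D : CD c k) (b : Cyc c) (y : Cyc c) (hy : y ≠ 0) (v : VV D) :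
    (Function.support (fun q : Cyc c ⧸ Lam y => Fv D b y hy v (Quotient.out q))).Finite := by
  classical
  obtain ⟨S, hS⟩ := v.2.2
  have h1 : ∀ q : Function.support (fun q : Cyc c ⧸ Lam y => Fv D b y hy v (Quotient.out q)),
      ∃ s : S, d1 y hy * nn c (Quotient.out q.1) * (s : G c)⁻¹ ∈ JJ D := by
    rintro ⟨q, hq⟩
    have h2 : Fv D b y hy v (Quotient.out q) ≠ 0 := hq
    have h3 : v.1 (d1 y hy * nn c (Quotient.out q)) ≠ 0 := by
      intro h
      apply h2
      rw [Fv, h, zero_mul]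
    obtain ⟨s, hs, h4⟩ := hS _ h3
    exact ⟨⟨s, hs⟩, h4⟩
  choose g hg using h1
  have hinj : Function.Injective g := by
    intro q q' hqq
    have e1 := hg q
    have e2 := hg q'
    rw [← hqq] at e2
    have e3 := (JJ D).mul_mem e1 ((JJ D).inv_mem e2)
    have e4 : d1 y hy * nn c (Quotient.out q.1) * (g q : G c)⁻¹ *
        (d1 y hy * nn c (Quotient.out q'.1) * (g q : G c)⁻¹)⁻¹ =
        nn c (y * (Quotient.out q.1 - Quotient.out q'.1)) := by
      rw [← d1_nn _ hy, sub_eq_add_neg, nn_add, ← nn_neg]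
      group
    rw [e4] at e3
    have e5 := nn_mem_JJ e3
    apply Subtype.ext
    have e6 : Quotient.out q.1 - Quotient.out q'.1 ∈ Lam y := e5
    have e7 : (QuotientAddGroup.mk (Quotient.out q'.1) : Cyc c ⧸ Lam y) =
        QuotientAddGroup.mk (Quotient.out q.1) := by
      rw [QuotientAddGroup.eq]
      rwa [neg_add_eq_sub]
    rw [QuotientAddGroup.out_eq', QuotientAddGroup.out_eq'] at e7
    exact e7.symm
  have : Finite (Function.support (fun q : Cyc c ⧸ Lam y => Fv D b y hy v (Quotient.out q))) :=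
    Finite.of_injective g hinj
  exact Set.toFinite _

/-- The functional. -/
noncomputable def ell (D : CD c k) (b : Cyc c) (y : Cyc c) (hy : y ≠ 0) : VV D →ₗ[ℂ] ℂ where
  toFun v := avg y (Fv D b y hy v)
  map_add' v w := by
    unfold avg
    rw [← finsum_add_distrib (Fv_fin D b y hy v) (Fv_fin D b y hy w)]
    apply finsum_congr
    intro q
    change (v.1 _ + w.1 _) * _ = _
    rw [add_mul]
    rfl
  map_smul' a v := by
    unfold avg
    rw [RingHom.id_apply, smul_eq_mul, mul_finsum' _ _ (Fv_fin D b y hy v)]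
    apply finsum_congr
    intro q
    change (a * v.1 _) * _ = a * (v.1 _ * _)
    ring

end Pool.Agent.Helper42.WD
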