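import Pool.Agent.Helper42.WD.Dim

namespace Pool.Agent.Helper42.WD

variable {K : Type} [Field K] {c : Dat K} {k : Type} [Field k]

theorem ell_eq (D : CD c k) (b : Cyc c) (hb : b ≠ 0) (v : VV D) (u : Cyc c) :
    ell D b (Tp c 1 * b) (mul_ne_zero (Tp_ne 1) hb) (rho D (nn c u) v) =
      D.C.mu (b * u) * ell D b (Tp c 1 * b) (mul_ne_zero (Tp_ne 1) hb) v := by
  set y := Tp c 1 * b with hy
  have hyne : y ≠ 0 := mul_ne_zero (Tp_ne 1) hb
  have h1 : ∀ x, Fv D b y hyne (rho D (nn c u) v) x = D.C.mu (b * u) * Fv D b y hyne v (x + u) := by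
    intro x
    rw [Fv, Fv, rho_apply, mul_assoc (d1 y hyne), ← nn_add]
    have h2 : -(b * x) = b * u + -(b * (x + u)) := by
      rw [mul_add, neg_add]
      abel
    rw [h2, D.C.mu_add]
    ring
  change avg y (Fv D b y hyne (rho D (nn c u) v)) = D.C.mu (b * u) * avg y (Fv D b y hyne v)
  have h3 : avg y (Fv D b y hyne (rho D (nn c u) v)) =
      avg y (fun x => D.C.mu (b * u) * Fv D b y hyne v (x + u)) := by
    congr 1
    funext x
    exact h1 x
  rw [h3, ← avg_shift y (Fv D b y hyne v) (Fv_inv D b hb v) u]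
  unfold avg
  rw [mul_finsum']
  -- finiteness of the support of the shifted function
  have h4 : (fun q : Cyc c ⧸ Lam y => Fv D b y hyne v (Quotient.out q + u)) =
      (fun q : Cyc c ⧸ Lam y => (D.C.mu (b * u))⁻¹ * Fv D b y hyne (rho D (nn c u) v) (Quotient.out q)) := by
    funext q
    rw [h1, ← mul_assoc, inv_mul_cancel₀ (D.C.mu_ne _), one_mul]
  rw [h4]
  apply (Fv_fin D b y hyne (rho D (nn c u) v)).subset
  intro q hq
  rw [Function.mem_support] at hq ⊢
  intro h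
  apply hq
  rw [h, mul_zero]

theorem ell_tspan (D : CD c k) (f : Cyc c → ℂ) (b : Cyc c) (hb : b ≠ 0)
    (hf : ∀ x, f x = D.C.mu (b * x)) (v : VV D) (hv : v ∈ tspan (rho D) f) :
    ell D b (Tp c 1 * b) (mul_ne_zero (Tp_ne 1) hb) v = 0 := by
  induction hv using Submodule.span_induction with
  | mem x hx =>
    obtain ⟨u, w, rfl⟩ := hx
    rw [map_sub, map_smul, ell_eq D b hb, hf, smul_eq_mul, sub_self]
  | zero => exact map_zero _
  | add x y _ _ hx hy => rw [map_add, hx, hy, add_zero]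
  | smul a x _ hx => rw [map_smul, hx, smul_zero]

theorem ell_dlt (D : CD c k) (b : Cyc c) (hb : b ≠ 0) :
    ell D b (Tp c 1 * b) (mul_ne_zero (Tp_ne 1) hb) (dlt D (d1 (Tp c 1 * b) (mul_ne_zero (Tp_ne 1) hb))) = 1 := by
  set y := Tp c 1 * b with hy
  have hyne : y ≠ 0 := mul_ne_zero (Tp_ne 1) hb
  change ∑ᶠ q : Cyc c ⧸ Lam y, Fv D b y hyne (dlt D (d1 y hyne)) (Quotient.out q) = 1
  rw [finsum_eq_single _ (QuotientAddGroup.mk 0 : Cyc c ⧸ Lam y)]
  · rw [Lam_out y (Fv D b y hyne (dlt D (d1 y hyne))) (Fv_inv D b hb _)]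
    rw [Fv, nn_zero, mul_one, dlt_self, mul_zero, neg_zero, D.C.mu_zero, mul_one]
  · intro q hq
    rw [Fv, dlt_apply]
    have h1 : d1 y hyne * nn c (Quotient.out q) * (d1 y hyne)⁻¹ = nn c (y * Quotient.out q) := d1_nn _ _ _
    rw [h1]
    rw [if_neg, zero_mul]
    intro h2
    apply hq
    have h3 : Quotient.out q ∈ Lam y := nn_mem_JJ h2
    rw [← QuotientAddGroup.out_eq' q, eq_comm, QuotientAddGroup.eq, neg_zero, zero_add]
    exact h3

theorem finrank_one (D : CD c k) (f : Cyc c → ℂ) (b : Cyc c) (hb : b ≠ 0)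
    (hf : ∀ x, f x = D.C.mu (b * x)) : Module.finrank ℂ (VV D ⧸ tspan (rho D) f) = 1 := by
  apply finrank_eq_one (Submodule.Quotient.mk (dlt D (d1 (Tp c 1 * b) (mul_ne_zero (Tp_ne 1) hb))))
  · intro h
    rw [Submodule.Quotient.mk_eq_zero] at h
    have h1 := ell_tspan D f b hb hf _ h
    rw [ell_dlt D b hb] at h1
    exact one_ne_zero h1
  · intro w
    obtain ⟨v, rfl⟩ := Submodule.Quotient.mk_surjective _ w
    obtain ⟨a, ha⟩ := span_one D f b hb hf v
    refine ⟨a, ?_⟩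
    rw [← Submodule.Quotient.mk_smul, eq_comm, Submodule.Quotient.eq]
    exact ha

/-! ### Representatives -/

/-- representatives of `P ^ a / P ^ b` -/
structure Reps (c : Dat K) (X : Finset (Cyc c)) (a b : ℤ) : Prop where
  mem : ∀ x ∈ X, PP c a x
  ex : ∀ x, PP c a x → ∃ s ∈ X, PP c b (x - s)
  uniq : ∀ s ∈ X, ∀ t ∈ X, PP c b (s - t) → s = t

theorem reps_one (R : Res c k) [Finite k] (a : ℤ) : ∃ X : Finset (Cyc c), Reps c X a (a + 1) := by
  classical
  have := Fintype.ofFinite k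
  choose g hg hg1 _ _ using R.exists_const
  refine ⟨Finset.univ.image (fun y => g y * Tp c a), ?_, ?_, ?_⟩
  · intro x hx
    obtain ⟨y, _, rfl⟩ := Finset.mem_image.1 hx
    exact PP_Tp_mul (hg y)
  · intro x hx
    refine ⟨g (R.cf 0 (x * Tp c (-a))) * Tp c a, Finset.mem_image_of_mem _ (Finset.mem_univ _), ?_⟩
    have h1 : x - g (R.cf 0 (x * Tp c (-a))) * Tp c a =
        (x * Tp c (-a) - g (R.cf 0 (x * Tp c (-a)))) * Tp c a := by
      rw [sub_mul, mul_assoc x, Tp_neg_mul, mul_one]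
    rw [h1, PP_mul_Tp', add_sub_cancel_left, PP_one]
    have h2 : InO c (x * Tp c (-a) - g (R.cf 0 (x * Tp c (-a)))) := InO.sub hx (hg _)
    rw [← R.cf0_eq_zero h2, sub_eq_add_neg, R.cf_add 0 hx (hg _).neg, R.cf_neg 0 (hg _), hg1,
      add_neg_cancel]
  · intro s hs t ht h
    obtain ⟨y, _, rfl⟩ := Finset.mem_image.1 hs
    obtain ⟨z, _, rfl⟩ := Finset.mem_image.1 ht
    rw [← sub_mul, PP_mul_Tp', add_sub_cancel_left, PP_one] at h
    have h2 : InO c (g y - g z) := InO.sub (hg _) (hg _)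
    rw [← R.cf0_eq_zero h2, sub_eq_add_neg, R.cf_add 0 (hg _) (hg _).neg, R.cf_neg 0 (hg _), hg1, hg1,
      ← sub_eq_add_neg, sub_eq_zero] at h
    rw [h]

theorem reps_exist (R : Res c k) [Finite k] (a : ℤ) (n : ℕ) :
    ∃ X : Finset (Cyc c), Reps c X a (a + n) := by
  classical
  induction n with
  | zero =>
    refine ⟨{0}, ?_, ?_, ?_⟩
    · intro x hx
      rw [Finset.mem_singleton] at hx
      rw [hx]
      exact PP.zero _
    · intro x hx
      refine ⟨0, Finset.mem_singleton_self _, ?_⟩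
      rw [sub_zero]
      simpa using hx
    · intro s hs t ht _
      rw [Finset.mem_singleton] at hs ht
      rw [hs, ht]
  | succ n ih =>
    obtain ⟨X, hX⟩ := ih
    obtain ⟨Y, hY⟩ := reps_one R (a + n)
    have he : a + ((n + 1 : ℕ) : ℤ) = a + n + 1 := by push_cast; ring
    rw [he]
    refine ⟨(X ×ˢ Y).image (fun p => p.1 + p.2), ?_, ?_, ?_⟩
    · intro x hx
      obtain ⟨p, hp, rfl⟩ := Finset.mem_image.1 hx
      rw [Finset.mem_product] at hp
      exact (hX.mem _ hp.1).add ((hY.mem _ hp.2).mono (by omega))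
    · intro x hx
      obtain ⟨s, hs, h1⟩ := hX.ex x hx
      obtain ⟨t, ht, h2⟩ := hY.ex _ h1
      refine ⟨s + t, Finset.mem_image.2 ⟨(s, t), Finset.mem_product.2 ⟨hs, ht⟩, rfl⟩, ?_⟩
      rwa [← sub_sub]
    · intro s hs t ht h
      obtain ⟨p, hp, rfl⟩ := Finset.mem_image.1 hs
      obtain ⟨q, hq, rfl⟩ := Finset.mem_image.1 ht
      rw [Finset.mem_product] at hp hq
      have h1 : PP c (a + n) (p.1 - q.1) := by
        have e1 : p.1 - q.1 = (p.1 + p.2 - (q.1 + q.2)) + (q.2 - p.2) := by abel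
        rw [e1]
        exact (h.mono (by omega)).add ((hY.mem _ hq.2).sub (hY.mem _ hp.2))
      have h2 := hX.uniq _ hp.1 _ hq.1 h1
      have h3 : PP c (a + n + 1) (p.2 - q.2) := by
        have e1 : p.2 - q.2 = p.1 + p.2 - (q.1 + q.2) := by
          rw [h2]
          abel
        rw [e1]
        exact h
      have h4 := hY.uniq _ hp.2 _ hq.2 h3
      change p.1 + p.2 = q.1 + q.2
      rw [h2, h4]

theorem reps_exist' (R : Res c k) [Finite k] (a b : ℤ) (h : a ≤ b) :
    ∃ X : Finset (Cyc c), Reps c X a b := by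
  obtain ⟨X, hX⟩ := reps_exist R a (b - a).toNat
  have : a + ((b - a).toNat : ℤ) = b := by omega
  rw [this] at hX
  exact ⟨X, hX⟩

theorem Reps.sum_shift {X : Finset (Cyc c)} {a b : ℤ} (hX : Reps c X a b) (F : Cyc c → ℂ)
    (hF : ∀ x z, PP c b z → F (x + z) = F x) (u : Cyc c) (hu : PP c a u) :
    ∑ x ∈ X, F (x + u) = ∑ x ∈ X, F x := by
  classical
  have hex : ∀ x, ∃ s, (x ∈ X → s ∈ X ∧ PP c b (x + u - s)) := by
    intro x
    by_cases h : x ∈ X
    · obtain ⟨s, hs, h1⟩ := hX.ex (x + u) ((hX.mem x h).add hu)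
      exact ⟨s, fun _ => ⟨hs, h1⟩⟩
    · exact ⟨0, fun h' => absurd h' h⟩
  choose g hg using hex
  have hinj : ∀ x ∈ X, ∀ y ∈ X, g x = g y → x = y := by
    intro x hx y hy h
    apply hX.uniq x hx y hy
    have h1 := (hg x hx).2
    have h2 := (hg y hy).2
    have e1 : x - y = (x + u - g x) - (y + u - g y) := by
      rw [h]
      abel
    rw [e1]
    exact h1.sub h2
  apply Finset.sum_bij (fun x _ => g x)
  · intro x hx
    exact (hg x hx).1
  · intro x hx y hy h
    exact hinj x hx y hy h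
  · intro y hy
    have himg : X.image g = X := by
      apply Finset.eq_of_subset_of_card_le
      · intro z hz
        obtain ⟨x, hx, rfl⟩ := Finset.mem_image.1 hz
        exact (hg x hx).1
      · rw [Finset.card_image_of_injOn (fun x hx y hy h => hinj x hx y hy h)]
    rw [← himg] at hy
    obtain ⟨x, hx, h⟩ := Finset.mem_image.1 hy
    exact ⟨x, hx, h⟩
  · intro x hx
    have e1 : x + u = g x + (x + u - g x) := by abel
    rw [e1, hF _ _ (hg x hx).2]

/-- characters sum to zero -/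
theorem Reps.sum_char (C : Chr c) {X : Finset (Cyc c)} {a b : ℤ} (hX : Reps c X a b) (w : Cyc c)
    (hw : PP c (1 - b) w) (hne : ¬ PP c (1 - a) w) : ∑ x ∈ X, C.mu (w * x) = 0 := by
  have h1 : ¬ ∀ z, PP c a z → C.mu (w * z) = 1 := by
    rw [C.dual]
    exact hne
  push Not at h1
  obtain ⟨u, hu, hu'⟩ := h1
  have h2 := hX.sum_shift (fun x => C.mu (w * x)) (by
    intro x z hz
    rw [mul_add, C.mu_add, (C.dual b w).2 hw z hz, mul_one]) u hu
  have h3 : ∑ x ∈ X, C.mu (w * (x + u)) = (∑ x ∈ X, C.mu (w * x)) * C.mu (w * u) := by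
    rw [Finset.sum_mul]
    apply Finset.sum_congr rfl
    intro x _
    rw [mul_add, C.mu_add]
  rw [h3] at h2
  have h4 : (∑ x ∈ X, C.mu (w * x)) * (C.mu (w * u) - 1) = 0 := by
    rw [mul_sub, h2, mul_one, sub_self]
  rcases mul_eq_zero.1 h4 with h5 | h5
  · exact h5
  · exact absurd (sub_eq_zero.1 h5) hu'

end Pool.Agent.Helper42.WD
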