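import Pool.Agent.Helper42.WD.Fin

namespace Pool.Agent.Helper42.WD

variable {K : Type} [Field K] {c : Dat K} {k : Type} [Field k]

/-- the group `GL_2(O_D)` -/
def InK (g : G c) : Prop := ∀ i j, InO c (g.val i j) ∧ InO c ((g⁻¹ : G c).val i j)

theorem InK.mul {g h : G c} (hg : InK g) (hh : InK h) : InK (g * h) := by
  intro i j
  constructor
  · change InO c ((g.val * h.val) i j)
    rw [Matrix.mul_apply, Fin.sum_univ_two]
    exact ((hg i 0).1.mul (hh 0 j).1).add ((hg i 1).1.mul (hh 1 j).1)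
  · rw [mul_inv_rev]
    change InO c (((h⁻¹ : G c).val * (g⁻¹ : G c).val) i j)
    rw [Matrix.mul_apply, Fin.sum_univ_two]
    exact ((hh i 0).2.mul (hg 0 j).2).add ((hh i 1).2.mul (hg 1 j).2)

theorem InK_nn {x : Cyc c} (hx : InO c x) : InK (nn c x) := by
  intro i j
  rw [nn_neg]
  fin_cases i <;> fin_cases j
  · exact ⟨InO.one, InO.one⟩
  · exact ⟨hx, hx.neg⟩
  · exact ⟨InO.zero, InO.zero⟩
  · exact ⟨InO.one, InO.one⟩

theorem InK_nm {x : Cyc c} (hx : InO c x) : InK (nm c x) := by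
  intro i j
  rw [nm_neg]
  fin_cases i <;> fin_cases j
  · exact ⟨InO.one, InO.one⟩
  · exact ⟨InO.zero, InO.zero⟩
  · exact ⟨hx, hx.neg⟩
  · exact ⟨InO.one, InO.one⟩

theorem InK_dg {a b : Cyc c} (ha : UO c a) (hb : UO c b) : InK (dg a b ha.ne hb.ne) := by
  intro i j
  rw [dg_inv]
  fin_cases i <;> fin_cases j
  · exact ⟨ha.1, ha.inv.1⟩
  · exact ⟨InO.zero, InO.zero⟩
  · exact ⟨InO.zero, InO.zero⟩
  · exact ⟨hb.1, hb.inv.1⟩

theorem dg_T {a b : Cyc c} (ha : a ≠ 0) (hb : b ≠ 0) : ∃ (m n : ℤ) (κ : G c), InK κ ∧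
    dg a b ha hb = dT c m n * κ := by
  obtain ⟨m, u, hu, hx⟩ := exists_ord' a ha
  obtain ⟨n, v, hv, hy⟩ := exists_ord' b hb
  have h1 : ∀ (m : ℤ) (u : Cyc c), u * Tp c m = Tp c m * cjn (-m) u := by
    intro m u
    rw [cjn, neg_neg, ← mul_assoc, ← mul_assoc, Tp_mul_neg, one_mul]
  have hu' := hu.cjn (-m)
  have hv' := hv.cjn (-n)
  refine ⟨m, n, dg _ _ hu'.ne hv'.ne, InK_dg hu' hv', ?_⟩
  apply G_ext
  · rw [G_mul00]
    simp only [dg00, dT00, dT01, dg10, mul_zero, add_zero]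
    rw [hx, h1]
  · rw [G_mul01]
    simp
  · rw [G_mul10]
    simp
  · rw [G_mul11]
    simp only [dg11, dT11, dT10, dg01, mul_zero, zero_add]
    rw [hy, h1]

/-- the element `(x⁻¹ 1; 1 0)` -/
noncomputable def kx (x : Cyc c) : G c where
  val := !![x⁻¹, 1; 1, 0]
  inv := !![0, 1; 1, -x⁻¹]
  val_inv := by
    rw [mat_mul]
    apply mat_ext' <;> simp
  inv_val := by
    rw [mat_mul]
    apply mat_ext' <;> simp

theorem InK_kx {x : Cyc c} (hx : InO c x⁻¹) : InK (kx x) := by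
  intro i j
  have hi : ((kx x)⁻¹ : G c).val = !![0, 1; 1, -x⁻¹] := rfl
  rw [hi]
  fin_cases i <;> fin_cases j
  · exact ⟨hx, InO.zero⟩
  · exact ⟨InO.one, InO.one⟩
  · exact ⟨InO.one, InO.one⟩
  · exact ⟨InO.zero, hx.neg⟩

/-- `G = J T K` -/
theorem decK (D : CD c k) (g : G c) : ∃ j ∈ JJ D, ∃ (m n : ℤ) (κ : G c), InK κ ∧
    g = j * (dT c m n * κ) := by
  obtain ⟨j, hj, y, x, hy, hg⟩ := decB D g
  by_cases hx : InO c x
  · obtain ⟨m, n, κ, hκ, h⟩ := dg_T hy (one_ne_zero (α := Cyc c))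
    refine ⟨j, hj, m, n, κ * nn c x, hκ.mul (InK_nn hx), ?_⟩
    rw [hg, ← mul_assoc (dT c m n), ← h]
  · have hxne : x ≠ 0 := by
      rintro rfl
      exact hx InO.zero
    obtain ⟨a, u, hu, hxu⟩ := exists_ord' x hxne
    have ha : a < 0 := by
      by_contra h
      apply hx
      rw [← PP_zero, ord_spec hu hxu]
      omega
    by_cases he : InO c (y * x)
    · -- case (ii)
      obtain ⟨z, hz, hzc⟩ := exists_z D.R (D.R.S (D.R.S (D.R.cf 0 (y * x))))
      have hU : UO c (1 - z * (y * x)) := UO_one_sub (hz.mul_right he)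
      have hp : UO c (1 - y * x * z) := UO_one_sub (InP.mul_left he hz)
      have hMJ := (D.L_J0 (MM_InJ0 D.R he hz hU hzc)).1
      set w := z * (1 - y * x * z)⁻¹ with hw
      have hwP : InP c w := hz.mul_right hp.inv.1
      have hyP : PP c 1 y := by
        have h1 : y = y * x * x⁻¹ := by rw [mul_assoc, mul_inv_cancel₀ hxne, mul_one]
        rw [h1]
        have h2 := (PP_zero.2 he).mul ((ord_inv_spec hu hxu 1).2 (by omega))
        rwa [zero_add] at h2
      have hwy : InO c (w * y) := PP_zero.1 (((PP_one.2 hwP).mul hyP).mono (by norm_num))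
      have hne : (1 - y * x * z)⁻¹ * y ≠ 0 := mul_ne_zero hp.inv.ne hy
      obtain ⟨m, n, κ, hκ, h⟩ := dg_T hne (one_ne_zero (α := Cyc c))
      refine ⟨j * MM _ _ hU, (JJ D).mul_mem hj hMJ, m, n, κ * nm c (-(w * y)),
        hκ.mul (InK_nm hwy.neg), ?_⟩
      rw [hg, mul_assoc j, ← mul_assoc (dT c m n), ← h]
      congr 1
      -- d1 y * nn x = MM * (d1 (p⁻¹ y) * nm (-(w y)))
      have hpp : (1 - y * x * z) * (1 - y * x * z)⁻¹ = 1 := mul_inv_cancel₀ hp.ne
      have e1 : (1 : Cyc c) = (1 - y * x * z)⁻¹ - y * x * z * (1 - y * x * z)⁻¹ := by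
        rw [sub_mul, one_mul] at hpp
        exact hpp.symm
      apply G_ext
      · rw [G_mul00, G_mul00, G_mul00, G_mul10, MM_val]
        simp only [Matrix.of_apply, Matrix.cons_val', Matrix.cons_val_zero, Matrix.cons_val_fin_one,
          Matrix.cons_val_one, dg00, dg01, dg10, dg11, nn00, nn10, nm00, nm10, mul_one, mul_zero, add_zero,
          one_mul, zero_mul, zero_add]
        rw [hw]
        have e2 : (1 - y * x * z)⁻¹ * y + y * x * -(z * (1 - y * x * z)⁻¹ * y) =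
            ((1 - y * x * z)⁻¹ - y * x * z * (1 - y * x * z)⁻¹) * y := by
          rw [sub_mul, mul_neg, ← sub_eq_add_neg]
          simp only [mul_assoc]
        rw [e2, ← e1, one_mul]
      · rw [G_mul01, G_mul01, G_mul01, G_mul11, MM_val]
        simp
      · rw [G_mul10, G_mul10, G_mul00, G_mul10, MM_val]
        simp only [Matrix.of_apply, Matrix.cons_val', Matrix.cons_val_zero, Matrix.cons_val_fin_one,
          Matrix.cons_val_one, dg00, dg01, dg10, dg11, nn00, nn10, nm00, nm10, mul_one, mul_zero, add_zero,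
          one_mul, zero_mul, zero_add]
        rw [hw, ← mul_assoc, add_neg_cancel]
      · rw [G_mul11, G_mul11, G_mul01, G_mul11, MM_val]
        simp
    · -- case (iii)
      set e := y * x with hedef
      have hene : e ≠ 0 := mul_ne_zero hy hxne
      obtain ⟨q, v, hv, hev⟩ := exists_ord' e hene
      have hq : q < 0 := by
        by_contra h
        apply he
        rw [← PP_zero, ord_spec hv hev]
        omega
      have hzP : InP c e⁻¹ := by
        rw [← PP_one, ord_inv_spec hv hev]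
        omega
      have hxiP : InP c x⁻¹ := by
        rw [← PP_one, ord_inv_spec hu hxu]
        omega
      obtain ⟨b, hb, hbc⟩ := exists_b D.R (D.R.cf 1 e⁻¹)
      have hU : UO c (1 - e⁻¹ * b) := UO_one_sub (hzP.mul_right hb)
      have hMJ := (D.L_J0 (MM_InJ0 D.R hb hzP hU hbc)).1
      have hne2 : -((1 - e⁻¹ * b)⁻¹ * x⁻¹) ≠ 0 :=
        neg_ne_zero.2 (mul_ne_zero hU.inv.ne (inv_ne_zero hxne))
      obtain ⟨m, n, κ, hκ, h⟩ := dg_T hene hne2
      have hO : InO c (e⁻¹ * (b * ((1 - e⁻¹ * b)⁻¹ * x⁻¹))) :=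
        (InP.mul_right hzP (hb.mul (hU.inv.1.mul hxiP.inO))).inO
      refine ⟨j * MM _ _ hU, (JJ D).mul_mem hj hMJ, m, n,
        κ * (nn c (e⁻¹ * (b * ((1 - e⁻¹ * b)⁻¹ * x⁻¹))) * kx x),
        hκ.mul ((InK_nn hO).mul (InK_kx hxiP.inO)), ?_⟩
      rw [hg, mul_assoc j, ← mul_assoc (dT c m n), ← h]
      congr 1
      have e1 : MM b e⁻¹ hU = nm c e⁻¹ * dg 1 (1 - e⁻¹ * b) one_ne_zero hU.ne * nn c b := rfl
      have e2 : dg e (-((1 - e⁻¹ * b)⁻¹ * x⁻¹)) hene hne2 * nn c (e⁻¹ * (b * ((1 - e⁻¹ * b)⁻¹ * x⁻¹))) =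
          nn c (-b) * dg e (-((1 - e⁻¹ * b)⁻¹ * x⁻¹)) hene hne2 := by
        apply G_ext
        · rw [G_mul00, G_mul00]
          simp
        · rw [G_mul01, G_mul01]
          simp only [dg00, dg01, dg11, nn00, nn01, nn11, mul_one, mul_zero, zero_add, add_zero]
          rw [← mul_assoc, mul_inv_cancel₀ hene, one_mul, neg_mul_neg]
        · rw [G_mul10, G_mul10]
          simp
        · rw [G_mul11, G_mul11]
          simp
      rw [← mul_assoc (dg e _ hene hne2), e2, e1]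
      have e3 : nm c e⁻¹ * dg 1 (1 - e⁻¹ * b) one_ne_zero hU.ne * nn c b *
          (nn c (-b) * dg e (-((1 - e⁻¹ * b)⁻¹ * x⁻¹)) hene hne2 * kx x) =
          nm c e⁻¹ * (dg 1 (1 - e⁻¹ * b) one_ne_zero hU.ne *
          dg e (-((1 - e⁻¹ * b)⁻¹ * x⁻¹)) hene hne2) * kx x := by
        rw [← nn_neg]
        group
      rw [e3]
      have e4 : dg 1 (1 - e⁻¹ * b) one_ne_zero hU.ne * dg e (-((1 - e⁻¹ * b)⁻¹ * x⁻¹)) hene hne2 =
          dg e (-x⁻¹) hene (neg_ne_zero.2 (inv_ne_zero hxne)) := by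
        apply G_ext
        · rw [G_mul00]
          simp
        · rw [G_mul01]
          simp
        · rw [G_mul10]
          simp
        · rw [G_mul11]
          simp only [dg10, dg01, dg11, mul_zero, zero_add]
          rw [mul_neg, ← mul_assoc, mul_inv_cancel₀ hU.ne, one_mul]
      rw [e4]
      have k00 : (kx x).val 0 0 = x⁻¹ := rfl
      have k01 : (kx x).val 0 1 = 1 := rfl
      have k10 : (kx x).val 1 0 = 1 := rfl
      have k11 : (kx x).val 1 1 = 0 := rfl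
      apply G_ext
      · rw [G_mul00, G_mul00, G_mul00, G_mul01, k00, k10]
        simp only [dg00, dg01, dg10, dg11, nn00, nn10, nm00, nm01, mul_one, mul_zero, add_zero,
          one_mul, zero_mul]
        rw [hedef, mul_assoc, mul_inv_cancel₀ hxne, mul_one]
      · rw [G_mul01, G_mul01, G_mul00, G_mul01, k01, k11]
        simp [hedef]
      · rw [G_mul10, G_mul10, G_mul10, G_mul11, k00, k10]
        simp only [dg00, dg01, dg10, dg11, nn00, nn10, nm10, nm11, mul_one, mul_zero, add_zero,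
          one_mul, zero_mul, zero_add]
        rw [inv_mul_cancel₀ hene, one_mul, add_neg_cancel]
      · rw [G_mul11, G_mul11, G_mul10, G_mul11, k01, k11]
        simp [hene]

/-- first congruence subgroup -/
def InK1 (g : G c) : Prop := ∀ i j, InP c ((g.val - 1) i j)

theorem InK1_nn {x : Cyc c} (hx : InP c x) : InK1 (nn c x) := by
  intro i j
  have h0 : InP c (0 : Cyc c) := PP_one.1 (PP.zero 1)
  rw [Matrix.sub_apply]
  fin_cases i <;> fin_cases j
  · change InP c (1 - 1)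
    rw [sub_self]
    exact h0
  · change InP c (x - 0)
    rw [sub_zero]
    exact hx
  · change InP c (0 - 0)
    rw [sub_self]
    exact h0
  · change InP c (1 - 1)
    rw [sub_self]
    exact h0

theorem InK1_nm {x : Cyc c} (hx : InP c x) : InK1 (nm c x) := by
  intro i j
  have h0 : InP c (0 : Cyc c) := PP_one.1 (PP.zero 1)
  rw [Matrix.sub_apply]
  fin_cases i <;> fin_cases j
  · change InP c (1 - 1)
    rw [sub_self]
    exact h0
  · change InP c (0 - 0)
    rw [sub_self]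
    exact h0
  · change InP c (x - 0)
    rw [sub_zero]
    exact hx
  · change InP c (1 - 1)
    rw [sub_self]
    exact h0

theorem InK1.conj {u κ : G c} (hu : InK1 u) (hκ : InK κ) : InK1 (κ⁻¹ * u * κ) := by
  intro i j
  have h1 : ∀ i j, PP c 0 ((κ⁻¹ : G c).val i j) ∧ PP c 0 (((κ⁻¹)⁻¹ : G c).val i j) := by
    intro i j
    rw [inv_inv]
    exact ⟨PP_zero.2 (hκ i j).2, PP_zero.2 (hκ i j).1⟩
  have h2 := conj_lev h1 (b := 1) (fun i j => PP_one.2 (hu i j)) i j
  rw [inv_inv] at h2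
  exact PP_one.1 h2

theorem theta_nn (θ : G c →* ℂˣ) (x : Cyc c) : θ (nn c x) = 1 := by
  have hT : Tp c 1 - 1 ≠ 0 := by
    intro h
    have h1 : Tp c 1 = 1 := sub_eq_zero.1 h
    rw [Tp_one] at h1
    exact zero_ne_one (congrArg Cyc.x0 h1)
  have h1 : d1 (Tp c 1) (Tp_ne 1) * nn c ((Tp c 1 - 1)⁻¹ * x) * (d1 (Tp c 1) (Tp_ne 1))⁻¹ *
      (nn c ((Tp c 1 - 1)⁻¹ * x))⁻¹ = nn c x := by
    rw [d1_nn, nn_neg, ← nn_add]
    congr 1
    have : Tp c 1 * ((Tp c 1 - 1)⁻¹ * x) + -((Tp c 1 - 1)⁻¹ * x) = (Tp c 1 - 1) * ((Tp c 1 - 1)⁻¹ * x) := by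
      rw [sub_mul, one_mul, ← sub_eq_add_neg]
    rw [this, ← mul_assoc, mul_inv_cancel₀ hT, one_mul]
  rw [← h1, map_mul, map_mul, map_mul, map_inv, map_inv]
  rw [mul_comm (θ (d1 (Tp c 1) (Tp_ne 1))), mul_assoc (θ (nn c _)), mul_inv_cancel, mul_one, mul_inv_cancel]

theorem theta_nm (θ : G c →* ℂˣ) (x : Cyc c) : θ (nm c x) = 1 := by
  have hT : Tp c 1 - 1 ≠ 0 := by
    intro h
    have h1 : Tp c 1 = 1 := sub_eq_zero.1 h
    rw [Tp_one] at h1
    exact zero_ne_one (congrArg Cyc.x0 h1)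
  have h0 : dg 1 (Tp c 1) one_ne_zero (Tp_ne 1) * nm c ((Tp c 1 - 1)⁻¹ * x) *
      (dg 1 (Tp c 1) one_ne_zero (Tp_ne 1))⁻¹ = nm c (Tp c 1 * ((Tp c 1 - 1)⁻¹ * x)) := by
    rw [dg_nm, inv_one, mul_one]
  have h1 : dg 1 (Tp c 1) one_ne_zero (Tp_ne 1) * nm c ((Tp c 1 - 1)⁻¹ * x) *
      (dg 1 (Tp c 1) one_ne_zero (Tp_ne 1))⁻¹ * (nm c ((Tp c 1 - 1)⁻¹ * x))⁻¹ = nm c x := by
    rw [h0, nm_neg, ← nm_add]
    congr 1
    have : Tp c 1 * ((Tp c 1 - 1)⁻¹ * x) + -((Tp c 1 - 1)⁻¹ * x) = (Tp c 1 - 1) * ((Tp c 1 - 1)⁻¹ * x) := by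
      rw [sub_mul, one_mul, ← sub_eq_add_neg]
    rw [this, ← mul_assoc, mul_inv_cancel₀ hT, one_mul]
  rw [← h1, map_mul, map_mul, map_mul, map_inv, map_inv]
  rw [mul_comm (θ (dg 1 (Tp c 1) _ _)), mul_assoc (θ (nm c _)), mul_inv_cancel, mul_one, mul_inv_cancel]

/-- no twist has non-zero vectors fixed by the first congruence subgroup -/
theorem no_dz (D : CD c k) (θ : G c →* ℂˣ) (v : VV D)
    (hv : ∀ g : G c, (∀ i j, InP c ((g.val - 1) i j)) → (θ g : ℂ) • rho D g v = v) : v = 0 := by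
  apply Subtype.ext
  funext g
  by_contra hne
  have hne' : v.1 g ≠ 0 := hne
  obtain ⟨j, hj, m, n, κ, hκ, hg⟩ := decK D g
  have h0 : v.1 (dT c m n * κ) ≠ 0 := by
    intro h
    apply hne'
    rw [hg, VV_left v hj, h, mul_zero]
  -- unipotent elements
  have key : ∀ u : G c, InK1 u → θ u = 1 → dT c m n * u * (dT c m n)⁻¹ ∈ JJ D →
      D.L (dT c m n * u * (dT c m n)⁻¹) = 1 := by
    intro u hu hθ hJ
    have h1 := hv (κ⁻¹ * u * κ) (hu.conj hκ)
    have h2 : θ (κ⁻¹ * u * κ) = 1 := by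
      rw [map_mul, map_mul, hθ, mul_one, map_inv, inv_mul_cancel]
    rw [h2, Units.val_one, one_smul] at h1
    have h3 : (rho D (κ⁻¹ * u * κ) v).1 (dT c m n * κ) = v.1 (dT c m n * κ) := by rw [h1]
    rw [rho_apply] at h3
    have h4 : dT c m n * κ * (κ⁻¹ * u * κ) = (dT c m n * u * (dT c m n)⁻¹) * (dT c m n * κ) := by group
    rw [h4, VV_left v hJ] at h3
    exact mul_right_cancel₀ h0 (by rw [h3, one_mul])
  obtain ⟨a, haA, hane⟩ := D.C.lnt
  have hTi : (dT c m n)⁻¹ = (dg (Tp c m) (Tp c n) (Tp_ne m) (Tp_ne n))⁻¹ := by rw [dT_eq_dg]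
  by_cases hmn : m ≤ n
  · -- upper
    have hzO : InO c (⟨a, 0, 0⟩ : Cyc c) := ⟨haA, c.A.zero_mem, c.A.zero_mem⟩
    set z : Cyc c := ⟨a, 0, 0⟩ * Tp c 1 with hz
    have hzP : InP c z := PP_one.1 (PP_Tp_mul hzO)
    have hx : InP c (Tp c (-m) * z * Tp c n) := by
      rw [← PP_one, PP_mul_Tp', PP_Tp_mul']
      exact (PP_one.2 hzP).mono (by omega)
    have e1 : dT c m n * nn c (Tp c (-m) * z * Tp c n) * (dT c m n)⁻¹ = nn c z := by
      rw [dT_eq_dg, dg_nn, Tp_inv]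
      congr 1
      rw [← mul_assoc, ← mul_assoc, Tp_mul_neg, one_mul, mul_assoc, Tp_mul_neg, mul_one]
    obtain ⟨h2, h3⟩ := D.L_nn hzP
    have h4 := key _ (InK1_nn hx) (theta_nn θ _) (by rw [e1]; exact h2)
    rw [e1, h3, hz, mul_assoc, Tp_mul_neg, mul_one] at h4
    exact hane h4
  · -- lower
    set z : Cyc c := ⟨0, 0, a⟩ with hz
    have hzO : InO c z := ⟨c.A.zero_mem, c.A.zero_mem, haA⟩
    have hz2 : PP c 2 z := by
      rw [D.R.PP_two hzO]
      exact ⟨D.R.r0, D.R.r0⟩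
    have hx : InP c (Tp c (-n) * z * Tp c m) := by
      rw [← PP_one, PP_mul_Tp', PP_Tp_mul']
      exact hz2.mono (by omega)
    have e1 : dT c m n * nm c (Tp c (-n) * z * Tp c m) * (dT c m n)⁻¹ = nm c z := by
      rw [dT_eq_dg, dg_nm, Tp_inv]
      congr 1
      rw [← mul_assoc, ← mul_assoc, Tp_mul_neg, one_mul, mul_assoc, Tp_mul_neg, mul_one]
    obtain ⟨h2, h3⟩ := D.L_nm hz2
    have h4 := key _ (InK1_nm hx) (theta_nm θ _) (by rw [e1]; exact h2)
    rw [e1, h3] at h4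
    exact hane h4

/-- center -/
theorem center_iff (x : Cyc c) : (∀ y, x * y = y * x) ↔ (x.x0 ∈ c.F ∧ x.x1 = 0 ∧ x.x2 = 0) := by
  constructor
  · intro h
    have hT := h (Tp c 1)
    rw [mul_Tp_one, Tp_one_mul] at hT
    have h0 : x.x0 = c.sig x.x0 := congrArg Cyc.x1 hT
    obtain ⟨a, _, ha⟩ := c.sign
    have hane : c.sig a - a ≠ 0 := by
      intro h1
      apply ha
      rw [h1, zero_div]
      exact c.A.zero_mem
    have ha1 := h ⟨a, 0, 0⟩
    have e1 : x.x1 * c.sig a = a * x.x1 := by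
      have := congrArg Cyc.x1 ha1
      simpa using this
    have e2 : x.x2 * c.sig (c.sig a) = a * x.x2 := by
      have := congrArg Cyc.x2 ha1
      simpa using this
    refine ⟨h0.symm, ?_, ?_⟩
    · have e3 : x.x1 * (c.sig a - a) = 0 := by linear_combination e1
      exact (mul_eq_zero.1 e3).resolve_right hane
    · have e3 : x.x2 * (c.sig (c.sig a) - a) = 0 := by linear_combination e2
      apply (mul_eq_zero.1 e3).resolve_right
      intro h4
      apply hane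
      have h5 : c.sig (c.sig a) = a := sub_eq_zero.1 h4
      have h6 := c.sig3 a
      rw [h5] at h6
      rw [h6, sub_self]
  · rintro ⟨h0, h1, h2⟩ y
    have h0' : c.sig x.x0 = x.x0 := h0
    ext <;> simp [h1, h2, h0'] <;> ring

theorem main : MAIN := by
  intro K _ c φ h1 h2
  refine ⟨fun x hx => ⟨_, (isUnit_of_ne hx).mul_val_inv, (isUnit_of_ne hx).val_inv_mul⟩,
    center_iff, ?_⟩
  obtain ⟨e, C, hC⟩ := exists_chr φ h1 h2
  obtain ⟨k, i1, i2, D, hD⟩ := exists_CD c C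
  have hne : (⟨c.pi ^ e, 0, 0⟩ : Cyc c) ≠ 0 := by
    intro h
    exact (zpow_ne_zero e c.pine) (congrArg Cyc.x0 h)
  refine ⟨VV D, inferInstance, inferInstance, rho D, smooth D, irred D, cusp D, ?_, no_dz D⟩
  apply finrank_one D _ _ hne
  intro x
  rw [hD]
  exact hC x

end Pool.Agent.Helper42.WD
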