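import Pool.Agent.Helper42.WD.Alg

namespace Pool.Agent.Helper42.WD

variable {K : Type} [Field K] {c : Dat K}

/-- powers of `T` in `D` -/
def Tp (c : Dat K) (n : ℤ) : Cyc c := ((TT c ^ n : (Cyc c)ˣ) : Cyc c)

theorem Tp_zero : Tp c 0 = 1 := by simp [Tp]
theorem Tp_add (m n : ℤ) : Tp c (m + n) = Tp c m * Tp c n := by simp [Tp, zpow_add]
theorem Tp_one : Tp c 1 = ⟨0, 1, 0⟩ := by simp [Tp, TT]
theorem Tp_ne (n : ℤ) : Tp c n ≠ 0 := (Units.isUnit _).ne_zero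
theorem Tp_mul_neg (n : ℤ) : Tp c n * Tp c (-n) = 1 := by rw [← Tp_add, add_neg_cancel, Tp_zero]
theorem Tp_neg_mul (n : ℤ) : Tp c (-n) * Tp c n = 1 := by rw [← Tp_add, neg_add_cancel, Tp_zero]
theorem Tp_inv (n : ℤ) : (Tp c n)⁻¹ = Tp c (-n) := by
  rw [inv_eq_iff_eq_inv, eq_comm]
  exact inv_eq_of_mul_eq_one_right (Tp_neg_mul n)

theorem Tp_comm (m n : ℤ) : Tp c m * Tp c n = Tp c n * Tp c m := by
  rw [← Tp_add, ← Tp_add, add_comm]

/-- `P_D ^ n` for all integers `n` -/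
def PP (c : Dat K) (n : ℤ) (x : Cyc c) : Prop := InO c (x * Tp c (-n))

theorem PP_zero {x : Cyc c} : PP c 0 x ↔ InO c x := by
  rw [PP, neg_zero, Tp_zero, mul_one]

theorem mul_Tp_neg_one (x : Cyc c) : x * Tp c (-1) = ⟨x.x1, x.x2, x.x0 / c.pi⟩ := by
  rw [Tp, zpow_neg_one, mul_TTinv]

theorem mul_Tp_one (x : Cyc c) : x * Tp c 1 = ⟨c.pi * x.x2, x.x0, x.x1⟩ := by
  rw [Tp, zpow_one, mul_TT]

theorem Tp_one_mul (x : Cyc c) : Tp c 1 * x = ⟨c.pi * c.sig x.x2, c.sig x.x0, c.sig x.x1⟩ := by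
  rw [Tp, zpow_one, TT_mul]

theorem PP_one {x : Cyc c} : PP c 1 x ↔ InP c x := by
  rw [PP, mul_Tp_neg_one]
  constructor
  · rintro ⟨h1, h2, h3⟩
    exact ⟨h3, h1, h2⟩
  · rintro ⟨h3, h1, h2⟩
    exact ⟨h1, h2, h3⟩

theorem InO_Tp {n : ℤ} (h : 0 ≤ n) : InO c (Tp c n) := by
  obtain ⟨m, rfl⟩ := Int.eq_ofNat_of_zero_le h
  induction m with
  | zero =>
    simp only [Nat.cast_zero, Tp_zero]
    exact InO.one
  | succ i ih =>
    have : ((i + 1 : ℕ) : ℤ) = (i : ℤ) + 1 := by push_cast; ring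
    rw [this, Tp_add, Tp_one]
    exact (ih (by positivity)).mul ⟨c.A.zero_mem, c.A.one_mem, c.A.zero_mem⟩

theorem PP_Tp_mul {n : ℤ} {x : Cyc c} (h : InO c x) : PP c n (x * Tp c n) := by
  rw [PP, mul_assoc, Tp_mul_neg, mul_one]
  exact h

theorem PP.zero (n : ℤ) : PP c n 0 := by
  rw [PP, zero_mul]
  exact InO.zero

theorem PP.add {n : ℤ} {x y : Cyc c} (h : PP c n x) (h' : PP c n y) : PP c n (x + y) := by
  rw [PP, add_mul]
  exact InO.add h h'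

theorem PP.neg {n : ℤ} {x : Cyc c} (h : PP c n x) : PP c n (-x) := by
  rw [PP, neg_mul]
  exact InO.neg h

theorem PP.sub {n : ℤ} {x y : Cyc c} (h : PP c n x) (h' : PP c n y) : PP c n (x - y) := by
  rw [sub_eq_add_neg]
  exact h.add h'.neg

theorem PP.mono {m n : ℤ} {x : Cyc c} (h : PP c m x) (hn : n ≤ m) : PP c n x := by
  have : x * Tp c (-n) = x * Tp c (-m) * Tp c (m - n) := by
    rw [mul_assoc, ← Tp_add]
    congr 2
    ring
  rw [PP, this]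
  exact InO.mul h (InO_Tp (by omega))

theorem InP.inO {x : Cyc c} (h : InP c x) : InO c x := ⟨c.divmem h.1, h.2.1, h.2.2⟩

/-- Conjugation by `T ^ n` -/
def cjn (n : ℤ) (x : Cyc c) : Cyc c := Tp c n * x * Tp c (-n)

theorem cjn_one (x : Cyc c) : cjn 1 x = cj x := by
  rw [cjn]
  have : Tp c 1 * x = cj x * Tp c 1 := by
    rw [Tp, zpow_one]
    exact TT_mul_eq x
  rw [this, mul_assoc, Tp_mul_neg, mul_one]

theorem cjn_add (m n : ℤ) (x : Cyc c) : cjn (m + n) x = cjn m (cjn n x) := by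
  have : -(m + n) = -n + -m := by ring
  rw [cjn, cjn, cjn, this, Tp_add, Tp_add]
  simp only [mul_assoc]

theorem cjn_zero (x : Cyc c) : cjn 0 x = x := by
  rw [cjn, neg_zero, Tp_zero, one_mul, mul_one]

theorem cjn_neg_one (x : Cyc c) : cjn (-1) x = cj (cj x) := by
  have h := cjn_add (-1) 1 (cj (cj x))
  rw [cjn_one, cj3, neg_add_cancel, cjn_zero] at h
  exact h.symm

theorem InO.cjn {x : Cyc c} (h : InO c x) (n : ℤ) : InO c (cjn n x) := by
  induction n using Int.induction_on with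
  | zero => rw [cjn_zero]; exact h
  | succ i ih =>
    rw [add_comm, cjn_add, cjn_one]
    exact ih.cj
  | pred i ih =>
    have : -(i : ℤ) - 1 = -1 + -(i : ℤ) := by ring
    rw [this, cjn_add, cjn_neg_one]
    exact ih.cj.cj

theorem Tp_mul_eq (n : ℤ) (x : Cyc c) : Tp c n * x = cjn n x * Tp c n := by
  rw [cjn, mul_assoc, Tp_neg_mul, mul_one]

theorem PP.mul {m n : ℤ} {x y : Cyc c} (h : PP c m x) (h' : PP c n y) : PP c (m + n) (x * y) := by
  have h1 : x * y * Tp c (-(m + n)) = (x * Tp c (-m)) * cjn m (y * Tp c (-n)) := by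
    have : -(m + n) = -n + -m := by ring
    rw [cjn, this, Tp_add]
    have h2 : Tp c (-m) * (Tp c m * (y * Tp c (-n)) * Tp c (-m)) = y * Tp c (-n) * Tp c (-m) := by
      rw [← mul_assoc, ← mul_assoc, Tp_neg_mul, one_mul]
    rw [mul_assoc x (Tp c (-m)), h2]
    simp only [mul_assoc]
  rw [PP, h1]
  exact InO.mul h (InO.cjn h' m)

theorem PP_Tp (n : ℤ) : PP c n (Tp c n) := by
  rw [PP, Tp_mul_neg]
  exact InO.one

theorem PP_iff_left {n : ℤ} {x : Cyc c} : PP c n x ↔ InO c (Tp c (-n) * x) := by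
  rw [PP]
  have h1 : Tp c (-n) * x = cjn (-n) (x * Tp c (-n)) := by
    rw [cjn, neg_neg]
    simp only [mul_assoc]
    rw [Tp_neg_mul, mul_one]
  have h2 : x * Tp c (-n) = cjn n (Tp c (-n) * x) := by
    rw [cjn]
    rw [← mul_assoc, Tp_mul_neg, one_mul]
  constructor
  · intro h
    rw [h1]
    exact h.cjn _
  · intro h
    rw [h2]
    exact h.cjn _

/-- units of `O_D` -/
theorem UO.mul {x y : Cyc c} (h : UO c x) (h' : UO c y) : UO c (x * y) := by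
  refine ⟨h.1.mul h'.1, ?_⟩
  have hz : x.x0 * y.x0 ≠ 0 := mul_ne_zero h.2.2 h'.2.2
  have hzi : (x.x0 * y.x0)⁻¹ ∈ c.A := by
    rw [mul_inv]
    exact c.A.mul_mem h.2.1 h'.2.1
  have h3 : (x * y).x0 / c.pi ∉ c.A := by
    intro h4
    apply c.nonunit hz hzi
    have : x.x0 * y.x0 / c.pi = (x * y).x0 / c.pi -
        (x.x1 * c.sig y.x2 + x.x2 * c.sig (c.sig y.x1)) := by
      rw [Cyc.mul_x0]
      have := c.pine
      field_simp
      ring
    rw [this]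
    apply c.A.sub_mem h4
    exact c.A.add_mem (c.A.mul_mem h.1.2.1 (c.sigA _ h'.1.2.2))
      (c.A.mul_mem h.1.2.2 (c.sigA _ (c.sigA _ h'.1.2.1)))
  refine ⟨c.unit (h.1.mul h'.1).1 h3, ?_⟩
  intro h5
  apply h3
  rw [h5, zero_div]
  exact c.A.zero_mem

theorem UO_iff {x : Cyc c} : UO c x ↔ InO c x ∧ ¬ InP c x := by
  constructor
  · intro h
    exact ⟨h.1, fun h' => c.nonunit h.2.2 h.2.1 h'.1⟩
  · rintro ⟨h, h'⟩
    have h1 : x.x0 / c.pi ∉ c.A := fun h2 => h' ⟨h2, h.2⟩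
    refine ⟨h, c.unit h.1 h1, ?_⟩
    intro h5
    apply h1
    rw [h5, zero_div]
    exact c.A.zero_mem

theorem UO.ne {x : Cyc c} (h : UO c x) : x ≠ 0 := by
  rintro rfl
  exact h.2.2 rfl

theorem UO.one : UO c (1 : Cyc c) := by
  refine ⟨InO.one, ?_, one_ne_zero⟩
  change (1 : K)⁻¹ ∈ c.A
  rw [inv_one]
  exact c.A.one_mem

theorem InP.not_one : ¬ InP c (1 : Cyc c) := (UO_iff.1 UO.one).2

theorem UO.inv {x : Cyc c} (h : UO c x) : UO c x⁻¹ := by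
  have h1 : x⁻¹ = ((unitOf x (nrd_unit h).2.2)⁻¹ : (Cyc c)ˣ) := by
    rw [inv_eq_iff_eq_inv]
    apply Eq.symm
    apply inv_eq_of_mul_eq_one_right
    exact (unitOf x (nrd_unit h).2.2).inv_mul
  have h2 : InO c x⁻¹ := h1 ▸ unitOf_inv_mem h
  rw [UO_iff]
  refine ⟨h2, ?_⟩
  intro h3
  apply InP.not_one (c := c)
  rw [← PP_one] at h3 ⊢
  have := (PP_zero.2 h.1).mul h3
  rw [mul_inv_cancel₀ h.ne] at this
  simpa using this

theorem exists_ord' (x : Cyc c) (hx : x ≠ 0) : ∃ (n : ℤ) (u : Cyc c), UO c u ∧ x = u * Tp c n := by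
  obtain ⟨n, h⟩ := exists_ord x hx
  refine ⟨n, _, h, ?_⟩
  change x = x * Tp c (-n) * Tp c n
  rw [mul_assoc, Tp_neg_mul, mul_one]

theorem UO.cjn {x : Cyc c} (h : UO c x) (n : ℤ) : UO c (cjn n x) := by
  rw [UO_iff] at h ⊢
  refine ⟨h.1.cjn n, ?_⟩
  intro h'
  apply h.2
  have h1 : x = WD.cjn (-n) (WD.cjn n x) := by
    rw [← cjn_add, neg_add_cancel, cjn_zero]
  rw [← PP_one] at h' ⊢
  rw [h1]
  have h2 : PP c (-n + (1 + n)) (Tp c (-n) * (WD.cjn n x * Tp c n)) := by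
    exact (PP_Tp _).mul (h'.mul (PP_Tp _))
  have h3 : -n + (1 + n) = 1 := by ring
  rw [h3] at h2
  have h4 : WD.cjn (-n) (WD.cjn n x) = Tp c (-n) * (WD.cjn n x * Tp c n) := by
    conv_lhs => rw [WD.cjn, neg_neg]
    rw [mul_assoc]
  rw [h4]
  exact h2

theorem PP_unit_mul {n : ℤ} {u x : Cyc c} (hu : UO c u) : PP c n (u * x) ↔ PP c n x := by
  constructor
  · intro h
    have := (PP_zero.2 hu.inv.1).mul h
    rw [zero_add, ← mul_assoc, inv_mul_cancel₀ hu.ne, one_mul] at this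
    exact this
  · intro h
    have := (PP_zero.2 hu.1).mul h
    rwa [zero_add] at this

theorem PP_mul_unit {n : ℤ} {u x : Cyc c} (hu : UO c u) : PP c n (x * u) ↔ PP c n x := by
  constructor
  · intro h
    have := h.mul (PP_zero.2 hu.inv.1)
    rw [add_zero, mul_assoc, mul_inv_cancel₀ hu.ne, mul_one] at this
    exact this
  · intro h
    have := h.mul (PP_zero.2 hu.1)
    rwa [add_zero] at this

theorem PP_mul_Tp {n m : ℤ} {x : Cyc c} : PP c (n + m) (x * Tp c m) ↔ PP c n x := by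
  have : x * Tp c m * Tp c (-(n + m)) = x * Tp c (-n) := by
    rw [mul_assoc, ← Tp_add]
    congr 2
    ring
  rw [PP, this, PP]

theorem PP_mul_Tp' {n m : ℤ} {x : Cyc c} : PP c n (x * Tp c m) ↔ PP c (n - m) x := by
  have := PP_mul_Tp (c := c) (n := n - m) (m := m) (x := x)
  rwa [sub_add_cancel] at this

theorem PP_Tp_mul' {n m : ℤ} {x : Cyc c} : PP c n (Tp c m * x) ↔ PP c (n - m) x := by
  rw [PP_iff_left, PP_iff_left]
  have : Tp c (-n) * (Tp c m * x) = Tp c (-(n - m)) * x := by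
    rw [← mul_assoc, ← Tp_add]
    congr 2
    ring
  rw [this]

theorem PP_unit {n : ℤ} {u : Cyc c} (hu : UO c u) : PP c n u ↔ n ≤ 0 := by
  constructor
  · intro h
    by_contra h'
    exact (UO_iff.1 hu).2 (PP_one.1 (h.mono (by omega)))
  · intro h
    exact (PP_zero.2 hu.1).mono h

/-- the exact order of an element -/
theorem ord_spec {x u : Cyc c} {n : ℤ} (hu : UO c u) (hx : x = u * Tp c n) (m : ℤ) :
    PP c m x ↔ m ≤ n := by
  rw [hx, PP_mul_Tp', PP_unit hu]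
  omega

theorem inv_eq' {x u : Cyc c} {n : ℤ} (hu : UO c u) (hx : x = u * Tp c n) :
    ∃ u', UO c u' ∧ x⁻¹ = u' * Tp c (-n) := by
  refine ⟨cjn (-n) u⁻¹, hu.inv.cjn _, ?_⟩
  rw [hx, mul_inv_rev, Tp_inv, Tp_mul_eq]

theorem ord_inv_spec {x u : Cyc c} {n : ℤ} (hu : UO c u) (hx : x = u * Tp c n) (m : ℤ) :
    PP c m x⁻¹ ↔ m ≤ -n := by
  obtain ⟨u', h1, h2⟩ := inv_eq' hu hx
  exact ord_spec h1 h2 m

theorem pi_central (x : Cyc c) (n : ℤ) : (⟨c.pi ^ n, 0, 0⟩ : Cyc c) * x = x * ⟨c.pi ^ n, 0, 0⟩ := by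
  ext <;> simp [c.sigpi] <;> ring

theorem InPi_iff {m : ℕ} {x : Cyc c} : InPi c m x ↔ PP c (3 * m) x := by
  have h3 : Tp c 3 = ⟨c.pi, 0, 0⟩ := by
    have : (3 : ℤ) = 1 + 1 + 1 := by norm_num
    rw [this, Tp_add, Tp_add, Tp_one]
    ext <;> simp
  have hT : ∀ m : ℕ, Tp c (3 * m) = ⟨c.pi ^ m, 0, 0⟩ := by
    intro m
    induction m with
    | zero => simp [Tp_zero]; rfl
    | succ i ih =>
      have : (3 * ((i + 1 : ℕ) : ℤ)) = 3 * (i : ℤ) + 3 := by push_cast; ring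
      rw [this, Tp_add, ih, h3, pow_succ]
      ext <;> simp
  have hTi : Tp c (-(3 * m)) = ⟨(c.pi ^ m)⁻¹, 0, 0⟩ := by
    rw [← Tp_inv, hT]
    apply inv_eq_of_mul_eq_one_right
    have := c.pine
    ext <;> simp [this]
  rw [PP, hTi]
  have : x * (⟨(c.pi ^ m)⁻¹, 0, 0⟩ : Cyc c) = ⟨x.x0 / c.pi ^ m, x.x1 / c.pi ^ m, x.x2 / c.pi ^ m⟩ := by
    ext <;> simp [c.sigpi, div_eq_mul_inv]
  rw [this]
  rfl

end Pool.Agent.Helper42.WD
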