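import Pool.Agent.Helper42.WD.Irr2

namespace Pool.Agent.Helper42.WD

variable {K : Type} [Field K] {c : Dat K} {k : Type} [Field k]

/-- elements of the Iwahori order with unit diagonal -/
theorem IwM_inv {g : G c} (h : IwM g.val) (h0 : UO c (g.val 0 0)) (h1 : UO c (g.val 1 1)) :
    IwM (g⁻¹ : G c).val := by
  have hz : InP c (g.val 1 0 * (g.val 0 0)⁻¹) := h.h10.mul_right h0.inv.1
  have hb : InO c ((g.val 0 0)⁻¹ * g.val 0 1) := h0.inv.1.mul h.h01
  have hd : UO c (g.val 1 1 - g.val 1 0 * (g.val 0 0)⁻¹ * g.val 0 1) := by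
    rw [UO_iff]
    have h2 : InP c (g.val 1 0 * (g.val 0 0)⁻¹ * g.val 0 1) := hz.mul_right h.h01
    refine ⟨h.h11.sub h2.inO, ?_⟩
    intro h3
    apply (UO_iff.1 h1).2
    have := h3.add h2
    rwa [sub_add_cancel] at this
  have e : g = nm c (g.val 1 0 * (g.val 0 0)⁻¹) * dg _ _ h0.ne hd.ne * nn c ((g.val 0 0)⁻¹ * g.val 0 1) := by
    apply G_ext
    · rw [G_mul00, G_mul00, G_mul01]
      simp
    · rw [G_mul01, G_mul00, G_mul01]
      simp [h0.ne]
    · rw [G_mul10, G_mul10, G_mul11]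
      simp [mul_assoc, h0.ne]
    · rw [G_mul11, G_mul10, G_mul11]
      simp only [nm10, nm11, dg00, dg01, dg10, dg11, nn01, nn11, mul_zero, mul_one, one_mul, add_zero,
        zero_add]
      rw [mul_assoc (g.val 1 0), inv_mul_cancel₀ h0.ne, mul_one, mul_assoc, add_sub_cancel]
  rw [e, mul_inv_rev, mul_inv_rev, nn_neg, nm_neg, dg_inv]
  refine IwM.mul (IwM_nn hb.neg) (IwM.mul ⟨h0.inv.1, InO.zero, PP_one.1 (PP.zero 1), hd.inv.1⟩ (IwM_nm ?_))
  rw [← PP_one] at hz ⊢
  exact hz.neg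

theorem lev_g (h : G c) : ∃ a : ℤ, ∀ i j, PP c a (h.val i j) ∧ PP c a ((h⁻¹ : G c).val i j) := by
  classical
  have key : ∀ (T : Finset (Cyc c)), ∃ a : ℤ, ∀ x ∈ T, PP c a x := by
    intro T
    induction T using Finset.induction_on with
    | empty => exact ⟨0, fun x hx => absurd hx (Finset.notMem_empty x)⟩
    | insert s S hs ih =>
      obtain ⟨a, h⟩ := ih
      obtain ⟨a1, h1⟩ := PP_ex s
      refine ⟨min a a1, ?_⟩
      intro x hx
      rcases Finset.mem_insert.1 hx with h3 | h3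
      · rw [h3]
        exact h1.mono (min_le_right _ _)
      · exact (h x h3).mono (min_le_left _ _)
  obtain ⟨a, ha⟩ := key (Finset.image (fun p : Fin 2 × Fin 2 => h.val p.1 p.2) Finset.univ ∪
    Finset.image (fun p : Fin 2 × Fin 2 => (h⁻¹ : G c).val p.1 p.2) Finset.univ)
  refine ⟨a, fun i j => ⟨ha _ ?_, ha _ ?_⟩⟩
  · exact Finset.mem_union_left _ (Finset.mem_image_of_mem (fun p : Fin 2 × Fin 2 => h.val p.1 p.2)
      (Finset.mem_univ (i, j)))
  · exact Finset.mem_union_right _ (Finset.mem_image_of_mem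
      (fun p : Fin 2 × Fin 2 => (h⁻¹ : G c).val p.1 p.2) (Finset.mem_univ (i, j)))

theorem small_J (D : CD c k) (x : G c) (hx : ∀ i j, PP c 3 ((x.val - 1) i j)) :
    x ∈ JJ D ∧ D.L x = 1 := by
  have e00 : PP c 3 (x.val 0 0 - 1) := by
    have := hx 0 0
    rwa [Matrix.sub_apply, Matrix.one_apply_eq] at this
  have e01 : PP c 3 (x.val 0 1) := by
    have := hx 0 1
    rwa [Matrix.sub_apply, Matrix.one_apply_ne (by decide), sub_zero] at this
  have e10 : PP c 3 (x.val 1 0) := by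
    have := hx 1 0
    rwa [Matrix.sub_apply, Matrix.one_apply_ne (by decide), sub_zero] at this
  have e11 : PP c 3 (x.val 1 1 - 1) := by
    have := hx 1 1
    rwa [Matrix.sub_apply, Matrix.one_apply_eq] at this
  have c1 : ∀ y : Cyc c, PP c 3 y → D.R.cf 0 y = 0 ∧ D.R.cf 1 y = 0 ∧ D.R.cf 2 y = 0 := by
    intro y hy
    have hO : InO c y := PP_zero.1 (hy.mono (by norm_num))
    have h2 := (D.R.PP_two hO).1 (hy.mono (by norm_num))
    refine ⟨h2.1, h2.2, ?_⟩
    rw [← D.R.cf_shift 1 (by norm_num)]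
    have h3 : PP c 2 (y * Tp c (-1)) := by
      rw [PP_mul_Tp']
      exact hy
    exact ((D.R.PP_two (PP_zero.1 (h3.mono (by norm_num)))).1 h3).2
  have c2 : ∀ y : Cyc c, PP c 3 (y - 1) → U1 c y ∧ D.R.cf 0 y = 1 ∧ D.R.cf 1 y = 0 := by
    intro y hy
    have hU : U1 c y := PP_one.1 (hy.mono (by norm_num))
    refine ⟨hU, hU.cf D.R, ?_⟩
    have e : y = 1 + (y - 1) := by abel
    rw [e, D.R.cf_add 1 InO.one (PP_zero.1 (hy.mono (by norm_num))), D.R.cf_one_one, (c1 _ hy).2.1, add_zero]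
  have hIw : IwM x.val := ⟨(c2 _ e00).1.UO.1, PP_zero.1 (e01.mono (by norm_num)),
    PP_one.1 (e10.mono (by norm_num)), (c2 _ e11).1.UO.1⟩
  have hIwi := IwM_inv hIw (c2 _ e00).1.UO (c2 _ e11).1.UO
  have r0 : D.R.rr0 x.val = 1 := Prod.ext (c2 _ e00).2.1 (c2 _ e11).2.1
  have r1 : D.R.rr1 x.val = 0 := Prod.ext (c1 _ e01).1 (c1 _ e10).2.1
  have r2 : D.R.rr2 x.val = 0 := Prod.ext (c2 _ e00).2.2 (c2 _ e11).2.2
  have r3 : D.R.rr3 x.val = 0 := Prod.ext (c1 _ e01).2.1 (c1 _ e10).2.2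
  have hJ0 : InJ0 D.R x := by
    refine ⟨hIw, hIwi, ?_, ?_⟩
    · rw [r0, map_one, map_one, map_one]
    · rw [r1, map_zero, map_zero, map_zero]
  refine ⟨(D.L_J0 hJ0).1, ?_⟩
  rw [(D.L_J0 hJ0).2]
  change D.LL (ex D.R D.e x) = 1
  rw [ex, r1, r2, r3]
  simp only [FF, mul_zero, map_zero, sub_zero, add_zero]
  exact D.LL_zero

theorem conj_lev {h g : G c} {a b : ℤ} (ha : ∀ i j, PP c a (h.val i j) ∧ PP c a ((h⁻¹ : G c).val i j))
    (hg : ∀ i j, PP c b ((g.val - 1) i j)) (i j : Fin 2) :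
    PP c (a + b + a) (((h * g * h⁻¹ : G c).val - 1) i j) := by
  have e : (h * g * h⁻¹ : G c).val - 1 = h.val * (g.val - 1) * (h⁻¹ : G c).val := by
    have h1 : (h * g * h⁻¹ : G c).val = h.val * g.val * (h⁻¹ : G c).val := rfl
    have h2 : h.val * (h⁻¹ : G c).val = 1 := h.mul_inv
    rw [h1, mul_sub, sub_mul, mul_one, h2]
  rw [e, Matrix.mul_apply, Fin.sum_univ_two, Matrix.mul_apply, Fin.sum_univ_two, Matrix.mul_apply,
    Fin.sum_univ_two]
  have key : ∀ l, PP c (a + b) (h.val i 0 * (g.val - 1) 0 l + h.val i 1 * (g.val - 1) 1 l) :=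
    fun l => ((ha i 0).1.mul (hg 0 l)).add ((ha i 1).1.mul (hg 1 l))
  exact ((key 0).mul (ha 0 j).2).add ((key 1).mul (ha 1 j).2)

theorem smooth (D : CD c k) : Smooth (rho D) := by
  apply smooth_of
  · intro h
    obtain ⟨a, ha⟩ := lev_g h
    refine ⟨(3 - 2 * a).toNat + 1, Nat.succ_pos _, ?_⟩
    intro g hg
    apply small_J
    intro i j
    have h1 := conj_lev ha (b := 3 * (((3 - 2 * a).toNat + 1 : ℕ) : ℤ)) (fun i j => InPi_iff.1 (hg i j)) i j
    apply h1.mono
    push_cast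
    omega
  · intro m n x hmn hx
    rw [InPi_iff] at hx ⊢
    apply hx.mono
    omega

theorem irred [Finite k] (D : CD c k) : Irred (rho D) := by
  refine ⟨⟨dlt D 1, ?_⟩, ?_⟩
  · intro h
    have h1 := dlt_self D 1
    rw [h] at h1
    exact zero_ne_one h1
  · intro W hW
    by_cases h0 : W = ⊥
    · exact Or.inl h0
    · right
      obtain ⟨v, hv, hv0⟩ := Submodule.exists_mem_ne_zero_of_ne_bot h0
      have hex : ∃ g, v.1 g ≠ 0 := by
        by_contra hcon
        push Not at hcon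
        apply hv0
        apply Subtype.ext
        funext g
        exact hcon g
      obtain ⟨g, hg⟩ := hex
      have hf : rho D g v ∈ W := hW g v hv
      have hf1 : (rho D g v).1 1 ≠ 0 := by
        rw [rho_apply, one_mul]
        exact hg
      have hM : ∃ M : ℤ, 2 ≤ M ∧ ∀ z, PP c M z → rho D (nn c z) (rho D g v) = rho D g v := by
        obtain ⟨m, hm, h⟩ := smooth D (rho D g v)
        refine ⟨3 * m, by omega, ?_⟩
        intro z hz
        apply h
        intro i j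
        rw [InPi_iff, Matrix.sub_apply]
        fin_cases i <;> fin_cases j
        · change PP c (3 * m) (1 - 1)
          rw [sub_self]
          exact PP.zero _
        · change PP c (3 * m) (z - 0)
          rw [sub_zero]
          exact hz
        · change PP c (3 * m) (0 - 0)
          rw [sub_self]
          exact PP.zero _
        · change PP c (3 * m) (1 - 1)
          rw [sub_self]
          exact PP.zero _
      have h1 := irr_aux D W hW _ hf hf1 hM
      rw [eq_top_iff, ← span_dlt D, Submodule.span_le]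
      rintro _ ⟨h, rfl⟩
      have h2 := hW h⁻¹ _ h1
      rw [rho_dlt, inv_inv, one_mul] at h2
      exact h2

end Pool.Agent.Helper42.WD
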