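import Pool.Agent.Helper42.WD.Mat

namespace Pool.Agent.Helper42.WD

variable {K : Type} [Field K] {c : Dat K} {k : Type} [Field k]

/-- The matrix `(0 1; T 0)`. -/
def Pi0 (c : Dat K) : G c where
  val := !![0, 1; Tp c 1, 0]
  inv := !![0, Tp c (-1); 1, 0]
  val_inv := by
    refine Matrix.ext fun i j => ?_
    fin_cases i <;> fin_cases j <;> simp [Matrix.mul_apply, Fin.sum_univ_two, Tp_mul_neg]
  inv_val := by
    refine Matrix.ext fun i j => ?_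
    fin_cases i <;> fin_cases j <;> simp [Matrix.mul_apply, Fin.sum_univ_two, Tp_neg_mul]

/-- conjugation by `Pi0` -/
def cP (g : G c) : G c := Pi0 c * g * (Pi0 c)⁻¹

theorem cP_mul (g h : G c) : cP (g * h) = cP g * cP h := by
  simp only [cP]
  group

theorem cP_inv (g : G c) : cP g⁻¹ = (cP g)⁻¹ := by
  simp only [cP]
  group

theorem Pi0_inv_val : ((Pi0 c)⁻¹ : G c).val = !![0, Tp c (-1); 1, 0] := rfl

theorem cP_val (g : G c) : (cP g).val =
    !![g.val 1 1, g.val 1 0 * Tp c (-1); Tp c 1 * g.val 0 1, cj (g.val 0 0)] := by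
  have h1 : (cP g).val = !![0, 1; Tp c 1, 0] * g.val * !![0, Tp c (-1); 1, 0] := rfl
  rw [h1]
  have hc : cj (g.val 0 0) = Tp c 1 * g.val 0 0 * Tp c (-1) := by
    rw [← cjn_one]
    rfl
  have hs : ∀ (A B : Matrix (Fin 2) (Fin 2) (Cyc c)) (i j : Fin 2),
      (A * B) i j = A i 0 * B 0 j + A i 1 * B 1 j := by
    intro A B i j
    rw [Matrix.mul_apply, Fin.sum_univ_two]
  refine Matrix.ext fun i j => ?_
  rw [hs, hs, hs, hc]
  fin_cases i <;> fin_cases j <;> simp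

theorem cP_IwM {g : G c} (h : IwM g.val) : IwM (cP g).val := by
  rw [cP_val]
  refine ⟨h.h11, ?_, ?_, h.h00.cj⟩
  · change PP c 1 (g.val 1 0)
    rw [PP_one]
    exact h.h10
  · change InP c (Tp c 1 * g.val 0 1)
    rw [← PP_one, PP_Tp_mul']
    have := PP_zero.2 h.h01
    simpa using this

theorem rr0_cP (R : Res c k) {g : G c} (h : IwM g.val) : R.rr0 (cP g).val = R.tau (R.rr0 g.val) := by
  rw [cP_val]
  apply Prod.ext
  · rfl
  · change R.cf 0 (cj (g.val 0 0)) = R.S (R.cf 0 (g.val 0 0))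
    exact R.cf_cj 0 h.h00

theorem rr1_cP (R : Res c k) {g : G c} (h : IwM g.val) : R.rr1 (cP g).val = R.tau (R.rr1 g.val) := by
  rw [cP_val]
  apply Prod.ext
  · exact R.cf_shift 0 (by norm_num) _
  · exact R.cf_Tmul 0 (by norm_num) h.h01

theorem rr2_cP (R : Res c k) {g : G c} (h : IwM g.val) : R.rr2 (cP g).val = R.tau (R.rr2 g.val) := by
  rw [cP_val]
  apply Prod.ext
  · rfl
  · change R.cf 1 (cj (g.val 0 0)) = R.S (R.cf 1 (g.val 0 0))
    exact R.cf_cj 1 h.h00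

theorem rr3_cP (R : Res c k) {g : G c} (h : IwM g.val) : R.rr3 (cP g).val = R.tau (R.rr3 g.val) := by
  rw [cP_val]
  apply Prod.ext
  · exact R.cf_shift 1 (by norm_num) _
  · exact R.cf_Tmul 1 (by norm_num) h.h01

theorem InJ0.cP {R : Res c k} {g : G c} (h : InJ0 R g) : InJ0 R (cP g) := by
  refine ⟨cP_IwM h.iw, ?_, ?_, ?_⟩
  · rw [← cP_inv]
    exact cP_IwM h.iwi
  · rw [rr0_cP R h.iw, h.f0]
  · rw [rr1_cP R h.iw, h.f1]

theorem CD.L0_cP (D : CD c k) {g : G c} (h : InJ0 D.R g) : D.L0 (WD.cP g) = D.L0 g := by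
  have h1 : D.R.rr0 ((WD.cP g)⁻¹ : G c).val = D.R.tau (D.R.rr0 (g⁻¹ : G c).val) := by
    rw [← cP_inv]
    exact rr0_cP D.R h.iwi
  set x := D.R.rr0 (g⁻¹ : G c).val * D.R.rr1 g.val with hx
  have fx : D.R.tau (D.R.tau (D.R.tau x)) = x := by
    rw [hx]
    simp only [map_mul, h.fi0, h.f1]
  have key : ex D.R D.e (WD.cP g) = D.R.tau (ex D.R D.e g) +
      (D.e * x * D.R.tau x * D.R.tau (D.R.tau x) - D.R.tau (D.e * x * D.R.tau x * D.R.tau (D.R.tau x))) := by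
    rw [ex, ex, h1, rr1_cP D.R h.iw, rr2_cP D.R h.iw, rr3_cP D.R h.iw, ← map_mul, ← map_mul, ← map_mul,
      ← hx]
    simp only [FF, map_add, map_mul, map_sub, fx]
    ring
  have hsub : ∀ z, D.LL (z - D.R.tau z) = 1 := by
    intro z
    have h2 : D.LL z * 1 = D.LL (D.R.tau z) * D.LL (z - D.R.tau z) := by
      rw [mul_one, ← D.LL_add]
      congr 1
      ring
    rw [D.LL_tau] at h2
    exact (mul_left_cancel₀ (D.lk_ne _) h2).symm
  change D.LL (ex D.R D.e (WD.cP g)) = D.LL (ex D.R D.e g)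
  rw [key, D.LL_add, hsub, mul_one, D.LL_tau]

theorem cP2_val (g : G c) (i j : Fin 2) : (cP (cP g)).val i j = cj (g.val i j) := by
  rw [cP_val (cP g), cP_val g]
  have h1 : Tp c 1 * g.val 0 1 * Tp c (-1) = cj (g.val 0 1) := by
    rw [← cjn_one]
    rfl
  have h2 : Tp c 1 * (g.val 1 0 * Tp c (-1)) = cj (g.val 1 0) := by
    rw [← mul_assoc, ← cjn_one]
    rfl
  fin_cases i <;> fin_cases j
  · rfl
  · exact h1
  · exact h2
  · rfl

theorem cP6 (g : G c) : cP (cP (cP (cP (cP (cP g))))) = g := by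
  apply Units.ext
  refine Matrix.ext fun i j => ?_
  rw [cP2_val, cP2_val, cP2_val, cj3]

theorem cP_injective {g h : G c} (H : cP g = cP h) : g = h := by
  rw [← cP6 g, ← cP6 h, H]

/-- conjugation by powers of `Pi0` -/
def cPn (n : ℤ) (g : G c) : G c := Pi0 c ^ n * g * Pi0 c ^ (-n)

theorem cPn_zero (g : G c) : cPn 0 g = g := by simp [cPn]

theorem cPn_succ (n : ℤ) (g : G c) : cPn (n + 1) g = cP (cPn n g) := by
  simp only [cPn, cP, zpow_add, zpow_neg, zpow_one]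
  have := (Commute.refl (Pi0 c)).zpow_left n
  have h2 : Pi0 c ^ n * Pi0 c = Pi0 c * Pi0 c ^ n := this
  rw [h2, mul_inv_rev]
  simp only [mul_assoc]

theorem cPn_iff_aux (P : G c → Prop) (hP : ∀ g, P g → P (WD.cP g)) (n : ℤ) (g : G c)
    (h : P g) : P (cPn n g) := by
  induction n using Int.induction_on with
  | zero => rw [cPn_zero]; exact h
  | succ i ih => rw [cPn_succ]; exact hP _ ih
  | pred i ih =>
    have h1 : WD.cP (cPn (-(i : ℤ) - 1) g) = cPn (-(i : ℤ)) g := by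
      rw [← cPn_succ, sub_add_cancel]
    have h2 : cPn (-(i : ℤ) - 1) g = WD.cP (WD.cP (WD.cP (WD.cP (WD.cP (cPn (-(i : ℤ)) g))))) := by
      rw [← h1, cP6]
    rw [h2]
    exact hP _ (hP _ (hP _ (hP _ (hP _ ih))))

theorem InJ0.cPn (D : CD c k) {g : G c} (h : InJ0 D.R g) (n : ℤ) :
    InJ0 D.R (WD.cPn n g) ∧ D.L0 (WD.cPn n g) = D.L0 g :=
  cPn_iff_aux (fun x => InJ0 D.R x ∧ D.L0 x = D.L0 g)
    (fun x hx => ⟨hx.1.cP, by rw [D.L0_cP hx.1]; exact hx.2⟩) n g ⟨h, rfl⟩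

theorem Pi0_sq_val : (Pi0 c ^ (2 : ℤ)).val = !![Tp c 1, 0; 0, Tp c 1] := by
  have h1 : (Pi0 c ^ (2 : ℤ)) = Pi0 c * Pi0 c := by
    rw [show (2 : ℤ) = 1 + 1 by norm_num, zpow_add, zpow_one]
  rw [h1]
  change !![0, 1; Tp c 1, 0] * !![0, 1; Tp c 1, 0] = _
  refine Matrix.ext fun i j => ?_
  fin_cases i <;> fin_cases j <;> simp [Matrix.mul_apply, Fin.sum_univ_two]

/-- scalar matrices `T ^ n` -/
def dT (c : Dat K) (m n : ℤ) : G c where
  val := !![Tp c m, 0; 0, Tp c n]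
  inv := !![Tp c (-m), 0; 0, Tp c (-n)]
  val_inv := by
    refine Matrix.ext fun i j => ?_
    fin_cases i <;> fin_cases j <;> simp [Matrix.mul_apply, Fin.sum_univ_two, Tp_mul_neg]
  inv_val := by
    refine Matrix.ext fun i j => ?_
    fin_cases i <;> fin_cases j <;> simp [Matrix.mul_apply, Fin.sum_univ_two, Tp_neg_mul]

theorem dT_add (m n m' n' : ℤ) : dT c (m + m') (n + n') = dT c m n * dT c m' n' := by
  apply Units.ext
  change !![Tp c (m + m'), 0; 0, Tp c (n + n')] = !![Tp c m, 0; 0, Tp c n] * !![Tp c m', 0; 0, Tp c n']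
  refine Matrix.ext fun i j => ?_
  fin_cases i <;> fin_cases j <;> simp [Matrix.mul_apply, Fin.sum_univ_two, Tp_add]

theorem Pi0_even (m : ℤ) : Pi0 c ^ (2 * m) = dT c m m := by
  rw [zpow_mul]
  have h2 : Pi0 c ^ (2 : ℤ) = dT c 1 1 := Units.ext Pi0_sq_val
  rw [h2]
  induction m using Int.induction_on with
  | zero =>
    rw [zpow_zero]
    apply Units.ext
    change (1 : Matrix (Fin 2) (Fin 2) (Cyc c)) = !![Tp c 0, 0; 0, Tp c 0]
    rw [Tp_zero]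
    refine Matrix.ext fun i j => ?_
    fin_cases i <;> fin_cases j <;> simp
  | succ i ih =>
    rw [zpow_add_one, ih, ← dT_add]
  | pred i ih =>
    rw [zpow_sub_one, ih, mul_inv_eq_iff_eq_mul, ← dT_add]
    congr 1 <;> ring

theorem Pi0_IwM {n : ℤ} (h : IwM (Pi0 c ^ n).val) : 0 ≤ n := by
  rcases Int.even_or_odd' n with ⟨m, hm | hm⟩
  · rw [hm, Pi0_even] at h
    have h1 : InO c (Tp c m) := h.h00
    have h2 := (ord_spec (c := c) UO.one (one_mul (Tp c m)).symm 0).1 (PP_zero.2 h1)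
    omega
  · rw [hm, zpow_add, Pi0_even, zpow_one] at h
    have h1 : InO c ((!![Tp c m, 0; 0, Tp c m] * !![0, 1; Tp c 1, 0] : Matrix (Fin 2) (Fin 2) (Cyc c)) 0 1) :=
      h.h01
    have h2 : (!![Tp c m, 0; 0, Tp c m] * !![0, 1; Tp c 1, 0] : Matrix (Fin 2) (Fin 2) (Cyc c)) 0 1
        = Tp c m := by
      simp [Matrix.mul_apply, Fin.sum_univ_two]
    rw [h2] at h1
    have h3 := (ord_spec (c := c) UO.one (one_mul (Tp c m)).symm 0).1 (PP_zero.2 h1)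
    omega

theorem Pi0_InJ0 {R : Res c k} {n : ℤ} (h : InJ0 R (Pi0 c ^ n)) : n = 0 := by
  have h1 := Pi0_IwM h.iw
  have h2 := h.iwi
  rw [← zpow_neg] at h2
  have h3 := Pi0_IwM h2
  omega

theorem InJ0.uniq {R : Res c k} {g : G c} {m n : ℤ} (h1 : InJ0 R (Pi0 c ^ (-m) * g))
    (h2 : InJ0 R (Pi0 c ^ (-n) * g)) : m = n := by
  have h3 := h1.mul h2.inv
  have h4 : Pi0 c ^ (-m) * g * (Pi0 c ^ (-n) * g)⁻¹ = Pi0 c ^ (n - m) := by
    rw [mul_inv_rev, ← zpow_neg, neg_neg]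
    have : n - m = -m + n := by ring
    rw [this, zpow_add]
    group
  rw [h4] at h3
  have := Pi0_InJ0 h3
  omega

/-- The group `J`. -/
def JJ (D : CD c k) : Subgroup (G c) where
  carrier := {g | ∃ n : ℤ, InJ0 D.R (Pi0 c ^ (-n) * g)}
  one_mem' := ⟨0, by
    rw [neg_zero, zpow_zero, one_mul]
    exact InJ0.one _⟩
  mul_mem' := by
    rintro a b ⟨m, ha⟩ ⟨n, hb⟩
    refine ⟨m + n, ?_⟩
    have : Pi0 c ^ (-(m + n)) * (a * b) = cPn (-n) (Pi0 c ^ (-m) * a) * (Pi0 c ^ (-n) * b) := by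
      rw [cPn, neg_neg, neg_add, add_comm (-m), zpow_add]
      group
    rw [this]
    exact (ha.cPn D (-n)).1.mul hb
  inv_mem' := by
    rintro a ⟨m, ha⟩
    refine ⟨-m, ?_⟩
    have : Pi0 c ^ (-(-m)) * a⁻¹ = cPn m (Pi0 c ^ (-m) * a)⁻¹ := by
      rw [cPn, neg_neg, mul_inv_rev, ← zpow_neg, neg_neg]
      group
    rw [this]
    exact (ha.inv.cPn D m).1

theorem mem_JJ {D : CD c k} {g : G c} : g ∈ JJ D ↔ ∃ n : ℤ, InJ0 D.R (Pi0 c ^ (-n) * g) := Iff.rfl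

open Classical in
/-- The character of `J`, extended by zero. -/
noncomputable def CD.L (D : CD c k) (g : G c) : ℂ :=
  if h : ∃ n : ℤ, InJ0 D.R (Pi0 c ^ (-n) * g) then D.L0 (Pi0 c ^ (-h.choose) * g) else 0

theorem CD.L_eq (D : CD c k) {g : G c} {n : ℤ} (h : InJ0 D.R (Pi0 c ^ (-n) * g)) :
    D.L g = D.L0 (Pi0 c ^ (-n) * g) := by
  have hex : ∃ n : ℤ, InJ0 D.R (Pi0 c ^ (-n) * g) := ⟨n, h⟩
  rw [CD.L, dif_pos hex, InJ0.uniq hex.choose_spec h]

theorem CD.L_J0 (D : CD c k) {g : G c} (h : InJ0 D.R g) : g ∈ JJ D ∧ D.L g = D.L0 g := by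
  have h1 : InJ0 D.R (Pi0 c ^ (-(0 : ℤ)) * g) := by
    rw [neg_zero, zpow_zero, one_mul]
    exact h
  refine ⟨⟨0, h1⟩, ?_⟩
  rw [D.L_eq h1, neg_zero, zpow_zero, one_mul]

theorem CD.L_mul (D : CD c k) {g h : G c} (hg : g ∈ JJ D) (hh : h ∈ JJ D) :
    D.L (g * h) = D.L g * D.L h := by
  obtain ⟨m, ha⟩ := hg
  obtain ⟨n, hb⟩ := hh
  have e1 : Pi0 c ^ (-(m + n)) * (g * h) = cPn (-n) (Pi0 c ^ (-m) * g) * (Pi0 c ^ (-n) * h) := by
    rw [cPn, neg_neg, neg_add, add_comm (-m), zpow_add]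
    group
  have h1 : InJ0 D.R (Pi0 c ^ (-(m + n)) * (g * h)) := by
    rw [e1]
    exact (ha.cPn D (-n)).1.mul hb
  rw [D.L_eq h1, D.L_eq ha, D.L_eq hb, e1, D.L0_mul (ha.cPn D (-n)).1 hb, (ha.cPn D (-n)).2]

theorem CD.L_ne (D : CD c k) {g : G c} (hg : g ∈ JJ D) : D.L g ≠ 0 := by
  obtain ⟨m, ha⟩ := hg
  rw [D.L_eq ha]
  exact D.L0_ne _

end Pool.Agent.Helper42.WD
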