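import Pool.Agent.Helper42.WD.Grp

namespace Pool.Agent.Helper42.WD

variable {K : Type} [Field K] {c : Dat K} {k : Type} [Field k]

theorem CD.L_one (D : CD c k) : D.L 1 = 1 := by
  have h := D.L_mul (JJ D).one_mem (JJ D).one_mem
  rw [mul_one] at h
  have hne := D.L_ne (JJ D).one_mem
  exact (mul_left_cancel₀ hne (by rw [mul_one]; exact h)).symm

theorem CD.L_inv (D : CD c k) {g : G c} (hg : g ∈ JJ D) : D.L g⁻¹ = (D.L g)⁻¹ := by
  apply eq_inv_of_mul_eq_one_left
  rw [← D.L_mul ((JJ D).inv_mem hg) hg, inv_mul_cancel, D.L_one]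

/-- The space of the compactly induced representation. -/
def VV (D : CD c k) : Submodule ℂ (G c → ℂ) where
  carrier := {f | (∀ j ∈ JJ D, ∀ g, f (j * g) = D.L j * f g) ∧
    ∃ S : Finset (G c), ∀ g, f g ≠ 0 → ∃ s ∈ S, g * s⁻¹ ∈ JJ D}
  zero_mem' := by
    refine ⟨?_, ∅, ?_⟩
    · intro j _ g
      simp
    · intro g hg
      exact absurd rfl hg
  add_mem' := by
    classical
    rintro f h ⟨hf, S, hS⟩ ⟨hh, T, hT⟩
    refine ⟨?_, S ∪ T, ?_⟩
    · intro j hj g
      rw [Pi.add_apply, Pi.add_apply, hf j hj, hh j hj, mul_add]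
    · intro g hg
      rw [Pi.add_apply] at hg
      by_cases h1 : f g = 0
      · have h2 : h g ≠ 0 := by
          intro h3
          apply hg
          rw [h1, h3, add_zero]
        obtain ⟨s, hs, h4⟩ := hT g h2
        exact ⟨s, Finset.mem_union_right _ hs, h4⟩
      · obtain ⟨s, hs, h4⟩ := hS g h1
        exact ⟨s, Finset.mem_union_left _ hs, h4⟩
  smul_mem' := by
    rintro a f ⟨hf, S, hS⟩
    refine ⟨?_, S, ?_⟩
    · intro j hj g
      rw [Pi.smul_apply, Pi.smul_apply, hf j hj, smul_eq_mul, smul_eq_mul]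
      ring
    · intro g hg
      apply hS
      intro h
      apply hg
      rw [Pi.smul_apply, h, smul_zero]

/-- Right translation. -/
def rho (D : CD c k) : Representation ℂ (G c) (VV D) where
  toFun g :=
    { toFun := fun f => ⟨fun x => f.1 (x * g), by
        obtain ⟨hf, S, hS⟩ := f.2
        refine ⟨?_, ?_⟩
        · intro j hj x
          change f.1 (j * x * g) = D.L j * f.1 (x * g)
          rw [mul_assoc]
          exact hf j hj _
        · classical
          refine ⟨S.image (fun s => s * g⁻¹), ?_⟩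
          intro x hx
          obtain ⟨s, hs, h⟩ := hS _ hx
          refine ⟨s * g⁻¹, Finset.mem_image_of_mem _ hs, ?_⟩
          rw [mul_inv_rev, inv_inv, ← mul_assoc]
          exact h⟩
      map_add' := fun f h => rfl
      map_smul' := fun a f => rfl }
  map_one' := by
    ext f x
    change f.1 (x * 1) = f.1 x
    rw [mul_one]
  map_mul' g h := by
    ext f x
    change f.1 (x * (g * h)) = f.1 (x * g * h)
    rw [mul_assoc]

@[simp] theorem rho_apply (D : CD c k) (g : G c) (f : VV D) (x : G c) :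
    (rho D g f).1 x = f.1 (x * g) := rfl

theorem VV_left {D : CD c k} (f : VV D) {j : G c} (hj : j ∈ JJ D) (g : G c) :
    f.1 (j * g) = D.L j * f.1 g := f.2.1 j hj g

open Classical in
/-- The function supported on `J h`. -/
noncomputable def dlt (D : CD c k) (h : G c) : VV D :=
  ⟨fun g => if g * h⁻¹ ∈ JJ D then D.L (g * h⁻¹) else 0, by
    refine ⟨?_, {h}, ?_⟩
    · intro j hj g
      beta_reduce
      by_cases h1 : g * h⁻¹ ∈ JJ D
      · have h2 : j * g * h⁻¹ ∈ JJ D := by
          rw [mul_assoc]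
          exact (JJ D).mul_mem hj h1
        rw [if_pos h1, if_pos h2, mul_assoc, D.L_mul hj h1]
      · have h2 : j * g * h⁻¹ ∉ JJ D := by
          rw [mul_assoc]
          intro h3
          apply h1
          have := (JJ D).mul_mem ((JJ D).inv_mem hj) h3
          rwa [inv_mul_cancel_left] at this
        rw [if_neg h1, if_neg h2, mul_zero]
    · intro g hg
      beta_reduce at hg
      by_cases h1 : g * h⁻¹ ∈ JJ D
      · exact ⟨h, Finset.mem_singleton_self _, h1⟩
      · rw [if_neg h1] at hg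
        exact absurd rfl hg⟩

open Classical in
theorem dlt_apply (D : CD c k) (h g : G c) :
    (dlt D h).1 g = if g * h⁻¹ ∈ JJ D then D.L (g * h⁻¹) else 0 := rfl

theorem dlt_self (D : CD c k) (h : G c) : (dlt D h).1 h = 1 := by
  rw [dlt_apply, mul_inv_cancel, if_pos (JJ D).one_mem, D.L_one]

theorem rho_dlt (D : CD c k) (g h : G c) : rho D g (dlt D h) = dlt D (h * g⁻¹) := by
  apply Subtype.ext
  funext x
  rw [rho_apply, dlt_apply, dlt_apply, mul_inv_rev, inv_inv, mul_assoc]

theorem dlt_left (D : CD c k) {j : G c} (hj : j ∈ JJ D) (h : G c) :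
    dlt D (j * h) = (D.L j)⁻¹ • dlt D h := by
  apply Subtype.ext
  funext x
  change (dlt D (j * h)).1 x = (D.L j)⁻¹ * (dlt D h).1 x
  rw [dlt_apply, dlt_apply, mul_inv_rev, ← mul_assoc]
  by_cases h1 : x * h⁻¹ ∈ JJ D
  · have h2 := (JJ D).mul_mem h1 ((JJ D).inv_mem hj)
    rw [if_pos h1, if_pos h2, D.L_mul h1 ((JJ D).inv_mem hj), D.L_inv hj]
    ring
  · have h2 : x * h⁻¹ * j⁻¹ ∉ JJ D := by
      intro h3
      apply h1
      have := (JJ D).mul_mem h3 hj
      rwa [inv_mul_cancel_right] at this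
    rw [if_neg h1, if_neg h2, mul_zero]

theorem mem_span_dlt (D : CD c k) (f : VV D) : f ∈ Submodule.span ℂ (Set.range (dlt D)) := by
  classical
  obtain ⟨S, hS⟩ := f.2.2
  induction S using Finset.induction_on generalizing f with
  | empty =>
    have : f = 0 := by
      apply Subtype.ext
      funext g
      by_contra h
      obtain ⟨s, hs, _⟩ := hS g h
      exact absurd hs (Finset.notMem_empty _)
    rw [this]
    exact Submodule.zero_mem _
  | insert s S hs ih =>
    have h1 : f = (f - f.1 s • dlt D s) + f.1 s • dlt D s := by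
      rw [sub_add_cancel]
    rw [h1]
    apply Submodule.add_mem
    · apply ih
      intro g hg
      have hg' : f.1 g - f.1 s * (dlt D s).1 g ≠ 0 := hg
      by_cases h2 : g * s⁻¹ ∈ JJ D
      · exfalso
        apply hg'
        rw [dlt_apply, if_pos h2]
        have h3 : f.1 g = D.L (g * s⁻¹) * f.1 s := by
          rw [← VV_left f h2, inv_mul_cancel_right]
        rw [h3]
        ring
      · rw [dlt_apply, if_neg h2, mul_zero, sub_zero] at hg'
        obtain ⟨t, ht, h3⟩ := hS g hg'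
        rcases Finset.mem_insert.1 ht with h4 | h4
        · rw [h4] at h3
          exact absurd h3 h2
        · exact ⟨t, h4, h3⟩
    · exact Submodule.smul_mem _ _ (Submodule.subset_span ⟨s, rfl⟩)

theorem span_dlt (D : CD c k) : Submodule.span ℂ (Set.range (dlt D)) = ⊤ := by
  rw [Submodule.eq_top_iff']
  exact mem_span_dlt D

/-- Smoothness. -/
theorem smooth_of (D : CD c k)
    (H : ∀ h : G c, ∃ m : ℕ, 0 < m ∧ ∀ g : G c, (∀ i j, InPi c m ((g.val - 1) i j)) →
      h * g * h⁻¹ ∈ JJ D ∧ D.L (h * g * h⁻¹) = 1)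
    (mono : ∀ (m n : ℕ) (x : Cyc c), m ≤ n → InPi c n x → InPi c m x) : Smooth (rho D) := by
  intro v
  have hv : v ∈ Submodule.span ℂ (Set.range (dlt D)) := mem_span_dlt D v
  induction hv using Submodule.span_induction with
  | mem x hx =>
    obtain ⟨h, rfl⟩ := hx
    obtain ⟨m, hm, hm'⟩ := H h
    refine ⟨m, hm, ?_⟩
    intro g hg
    obtain ⟨h1, h2⟩ := hm' g hg
    rw [rho_dlt]
    have h3 : h * g⁻¹ = (h * g * h⁻¹)⁻¹ * h := by group
    rw [h3, dlt_left D ((JJ D).inv_mem h1), D.L_inv h1, h2, inv_one, inv_one, one_smul]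
  | zero => exact ⟨1, one_pos, fun g _ => map_zero _⟩
  | add x y _ _ hx hy =>
    obtain ⟨m, hm, hm'⟩ := hx
    obtain ⟨n, hn, hn'⟩ := hy
    refine ⟨max m n, lt_max_of_lt_left hm, ?_⟩
    intro g hg
    rw [map_add, hm' g (fun i j => mono _ _ _ (le_max_left _ _) (hg i j)),
      hn' g (fun i j => mono _ _ _ (le_max_right _ _) (hg i j))]
  | smul a x _ hx =>
    obtain ⟨m, hm, hm'⟩ := hx
    exact ⟨m, hm, fun g hg => by rw [map_smul, hm' g hg]⟩

/-- `dlt h` vanishes in the twisted Jacquet module if the characters do not agree. -/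
theorem dlt_mem_tspan (D : CD c k) (f : Cyc c → ℂ) (h : G c) (x : Cyc c)
    (h1 : h * nn c x * h⁻¹ ∈ JJ D) (h2 : D.L (h * nn c x * h⁻¹) ≠ f x) :
    dlt D h ∈ tspan (rho D) f := by
  have h3 : rho D (nn c x) (dlt D h) = D.L (h * nn c x * h⁻¹) • dlt D h := by
    rw [rho_dlt]
    have h3 : h * (nn c x)⁻¹ = (h * nn c x * h⁻¹)⁻¹ * h := by group
    rw [h3, dlt_left D ((JJ D).inv_mem h1), D.L_inv h1, inv_inv]
  have h4 : (D.L (h * nn c x * h⁻¹) - f x) • dlt D h ∈ tspan (rho D) f := by
    have e1 : (D.L (h * nn c x * h⁻¹) - f x) • dlt D h =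
        D.L (h * nn c x * h⁻¹) • dlt D h - f x • dlt D h := by
      apply Subtype.ext
      funext y
      change (D.L (h * nn c x * h⁻¹) - f x) * (dlt D h).1 y =
        D.L (h * nn c x * h⁻¹) * (dlt D h).1 y - f x * (dlt D h).1 y
      ring
    rw [e1, ← h3]
    exact Submodule.subset_span ⟨x, dlt D h, rfl⟩
  have h5 : dlt D h = (D.L (h * nn c x * h⁻¹) - f x)⁻¹ • (D.L (h * nn c x * h⁻¹) - f x) • dlt D h := by
    rw [smul_smul, inv_mul_cancel₀ (sub_ne_zero.2 h2), one_smul]
  rw [h5]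
  exact Submodule.smul_mem _ _ h4

theorem dlt_nn (D : CD c k) (f : Cyc c → ℂ) (hf : ∀ x, f x ≠ 0) (h : G c) (x : Cyc c)
    (h1 : dlt D h ∈ tspan (rho D) f) : dlt D (h * nn c x) ∈ tspan (rho D) f := by
  have h3 : rho D (nn c x) (dlt D (h * nn c x)) = dlt D h := by
    rw [rho_dlt, mul_inv_cancel_right]
  have h4 : rho D (nn c x) (dlt D (h * nn c x)) - f x • dlt D (h * nn c x) ∈ tspan (rho D) f :=
    Submodule.subset_span ⟨x, _, rfl⟩
  rw [h3] at h4
  have h5 : f x • dlt D (h * nn c x) ∈ tspan (rho D) f := by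
    have := Submodule.sub_mem _ h1 h4
    rwa [sub_sub_cancel] at this
  have h6 : dlt D (h * nn c x) = (f x)⁻¹ • f x • dlt D (h * nn c x) := by
    rw [smul_smul, inv_mul_cancel₀ (hf x), one_smul]
  rw [h6]
  exact Submodule.smul_mem _ _ h5

end Pool.Agent.Helper42.WD
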