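import Pool.Agent.Helper42.WD.Dim2

namespace Pool.Agent.Helper42.WD

variable {K : Type} [Field K] {c : Dat K} {k : Type} [Field k]

/-- one-units -/
def U1 (c : Dat K) (x : Cyc c) : Prop := InP c (x - 1)

theorem U1.UO {x : Cyc c} (h : U1 c x) : UO c x := by
  have h1 : InP c (-(x - 1)) := by
    rw [U1] at h
    rw [← PP_one] at h ⊢
    exact h.neg
  have h2 := UO_one_sub h1
  have : 1 - -(x - 1) = x := by abel
  rwa [this] at h2

theorem U1.mul {x y : Cyc c} (h : U1 c x) (h' : U1 c y) : U1 c (x * y) := by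
  have e : x * y - 1 = (x - 1) * y + (y - 1) := by
    rw [sub_mul, one_mul]
    abel
  rw [U1, e]
  exact (InP.mul_right h h'.UO.1).add h'

theorem U1.inv {x : Cyc c} (h : U1 c x) : U1 c x⁻¹ := by
  have hne := h.UO.ne
  have e : x⁻¹ - 1 = -(x - 1) * x⁻¹ := by
    rw [neg_mul, sub_mul, mul_inv_cancel₀ hne, one_mul, neg_sub]
  rw [U1, e]
  apply InP.mul_right _ h.UO.inv.1
  rw [U1] at h
  rw [← PP_one] at h ⊢
  exact h.neg

theorem U1.one : U1 c (1 : Cyc c) := by
  rw [U1, sub_self, ← PP_one]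
  exact PP.zero 1

theorem U1.cf (R : Res c k) {x : Cyc c} (h : U1 c x) : R.cf 0 x = 1 := by
  have e : x = 1 + (x - 1) := by abel
  rw [e, R.cf_add 0 InO.one (InP.inO h), R.cf_one_zero, R.cf0_InP h, add_zero]

theorem U1.J (D : CD c k) {x : Cyc c} (h : U1 c x) : d1 x h.UO.ne ∈ JJ D := by
  have h1 : InJ0 D.R (dg x 1 h.UO.ne UO.one.ne) := by
    apply dg_InJ0 D.R h.UO UO.one
    rw [h.cf, map_one, map_one, D.R.cf_one_zero]
  exact (D.L_J0 h1).1

/-- `diag(a, 1) n(z)` is in `J` only if `a` is a one-unit and `a z` is in `P`. -/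
theorem d1nn_mem {D : CD c k} {a z : Cyc c} (ha : a ≠ 0) (h : d1 a ha * nn c z ∈ JJ D) :
    U1 c a ∧ InP c z := by
  obtain ⟨n, hn⟩ := h
  have hi := hn.iwi
  have h0 := hn.iw
  rw [mul_inv_rev, ← zpow_neg, neg_neg, mul_inv_rev, nn_neg, dg_inv] at hi
  rcases Int.even_or_odd' n with ⟨m, hm | hm⟩
  · have e1 : Pi0 c ^ (-n) = dT c (-m) (-m) := by
      rw [hm, ← mul_neg, Pi0_even]
    have e2 : Pi0 c ^ n = dT c m m := by rw [hm, Pi0_even]
    have hm1 : -m ≥ 0 := by
      have h1 := h0.h11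
      rw [e1, G_mul11, G_mul01, G_mul11] at h1
      simp only [dT10, dT11, nn11, nn01, dg10, dg11, dg00, dg01, mul_one, zero_mul, zero_add] at h1
      have h2 := (ord_spec (c := c) UO.one (one_mul (Tp c (-m))).symm 0).1 (PP_zero.2 h1)
      omega
    have hm2 : m ≥ 0 := by
      have h1 := hi.h11
      rw [e2, G_mul11, G_mul10, G_mul11] at h1
      simp only [dT01, dT11, nn11, nn10, dg10, dg11, dg00, dg01, mul_one, one_mul, mul_zero, zero_mul,
        zero_add, inv_one] at h1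
      have h2 := (ord_spec (c := c) UO.one (one_mul (Tp c m)).symm 0).1 (PP_zero.2 h1)
      omega
    have hm0 : n = 0 := by omega
    rw [hm0, neg_zero, zpow_zero, one_mul] at hn
    have e00 : (d1 a ha * nn c z).val 0 0 = a := by rw [G_mul00]; simp
    have e01 : (d1 a ha * nn c z).val 0 1 = a * z := by rw [G_mul01]; simp
    have e10 : (d1 a ha * nn c z).val 1 0 = 0 := by rw [G_mul10]; simp
    have e11 : (d1 a ha * nn c z).val 1 1 = 1 := by rw [G_mul11]; simp
    have haO : InO c a := by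
      have := hn.iw.h00
      rwa [e00] at this
    have hazO : InO c (a * z) := by
      have := hn.iw.h01
      rwa [e01] at this
    have f0 := hn.f0
    have h2 : D.R.rr0 (d1 a ha * nn c z).val = (D.R.cf 0 a, 1) := by
      apply Prod.ext
      · change D.R.cf 0 ((d1 a ha * nn c z).val 0 0) = _
        rw [e00]
      · change D.R.cf 0 ((d1 a ha * nn c z).val 1 1) = _
        rw [e11, D.R.cf_one_zero]
    rw [h2] at f0
    have h3 : D.R.S 1 = D.R.cf 0 a := congrArg Prod.fst f0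
    rw [map_one] at h3
    have f1 := hn.f1
    have h4 : D.R.rr1 (d1 a ha * nn c z).val = (D.R.cf 0 (a * z), 0) := by
      apply Prod.ext
      · change D.R.cf 0 ((d1 a ha * nn c z).val 0 1) = _
        rw [e01]
      · change D.R.cf 1 ((d1 a ha * nn c z).val 1 0) = _
        rw [e10, D.R.cf_zero]
    rw [h4] at f1
    have h5 : D.R.S 0 = D.R.cf 0 (a * z) := congrArg Prod.fst f1
    rw [map_zero] at h5
    have hU : U1 c a := by
      rw [U1, ← D.R.cf0_eq_zero (haO.sub InO.one), sub_eq_add_neg, D.R.cf_add 0 haO InO.one.neg,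
        D.R.cf_neg 0 InO.one, D.R.cf_one_zero, ← h3, add_neg_cancel]
    refine ⟨hU, ?_⟩
    have h6 := (D.R.cf0_eq_zero hazO).1 h5.symm
    rw [← PP_one] at h6 ⊢
    exact (PP_unit_mul hU.UO).1 h6
  · exfalso
    have e2 : Pi0 c ^ n = dT c m m * Pi0 c := by rw [hm, zpow_add, Pi0_even, zpow_one]
    have e1 : Pi0 c ^ (-n) = (Pi0 c)⁻¹ * dT c (-m) (-m) := by
      have : -n = -1 + 2 * (-m) := by omega
      rw [this, zpow_add, Pi0_even, zpow_neg_one]
    have hm1 : 0 ≤ -1 - m := by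
      have h1 := h0.h01
      have e3 : (Pi0 c ^ (-n) * (d1 a ha * nn c z)).val 0 1 = Tp c (-1) * Tp c (-m) := by
        rw [e1, G_mul01, G_mul00, G_mul01, G_mul01, G_mul11]
        have p00 : ((Pi0 c)⁻¹ : G c).val 0 0 = 0 := rfl
        have p01 : ((Pi0 c)⁻¹ : G c).val 0 1 = Tp c (-1) := rfl
        rw [p00, p01]
        simp
      rw [e3, ← Tp_add] at h1
      have h2 := (ord_spec (c := c) UO.one (one_mul (Tp c (-1 + -m))).symm 0).1 (PP_zero.2 h1)
      omega
    have hm2 : 1 ≤ m + 1 := by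
      have h1 := hi.h10
      have e3 : (nn c (-z) * dg a⁻¹ 1⁻¹ (inv_ne_zero ha) (inv_ne_zero one_ne_zero) * Pi0 c ^ n).val 1 0
          = Tp c m * Tp c 1 := by
        rw [e2, G_mul10, G_mul10, G_mul11, G_mul00, G_mul10]
        have p00 : (Pi0 c).val 0 0 = 0 := rfl
        have p10 : (Pi0 c).val 1 0 = Tp c 1 := rfl
        rw [p00, p10]
        simp
      rw [e3, ← Tp_add, ← PP_one] at h1
      have h2 := (ord_spec (c := c) UO.one (one_mul (Tp c (m + 1))).symm 1).1 h1
      omega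
    omega

end Pool.Agent.Helper42.WD
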