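import Pool.Agent.Helper42.WD.Irr

namespace Pool.Agent.Helper42.WD

variable {K : Type} [Field K] {c : Dat K} {k : Type} [Field k]

theorem U1_Tb {w : Cyc c} (hw : InO c w) : U1 c (Tp c 1 * (Tp c (-1) + w)) := by
  have e : Tp c 1 * (Tp c (-1) + w) - 1 = Tp c 1 * w := by
    rw [mul_add, Tp_mul_neg, add_sub_cancel_left]
  rw [U1, e, ← PP_one, PP_Tp_mul', sub_self]
  exact PP_zero.2 hw

theorem b_ne {w : Cyc c} (hw : InO c w) : Tp c (-1) + w ≠ 0 := by
  intro h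
  have h1 := (U1_Tb hw).UO.ne
  rw [h, mul_zero] at h1
  exact h1 rfl

theorem not_good {y w : Cyc c} (hw : InO c w) (h : ¬ U1 c y) :
    ¬ good y (Tp c (-1) + w) := by
  intro hg
  apply h
  have h1 : U1 c (Tp c 1 * (Tp c (-1) + w) * y⁻¹) := by
    have h2 := (PP_Tp (c := c) 1).mul hg
    rw [mul_sub, Tp_mul_neg, add_zero, ← mul_assoc] at h2
    have h3 := h2.neg
    rw [neg_sub] at h3
    exact PP_one.1 h3
  have h4 : y = (Tp c 1 * (Tp c (-1) + w) * y⁻¹)⁻¹ * (Tp c 1 * (Tp c (-1) + w)) := by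
    rw [mul_inv_rev, inv_inv, mul_assoc, inv_mul_cancel₀ (U1_Tb hw).UO.ne, mul_one]
  rw [h4]
  exact h1.inv.mul (U1_Tb hw)

theorem bad_l (C : Chr c) {y w : Cyc c} (hw : InO c w) (h : ¬ U1 c y) :
    ∃ z, InP c z ∧ C.mu (z * Tp c (-1)) ≠ C.mu ((Tp c (-1) + w) * (y⁻¹ * z)) := by
  have h1 : ¬ ∀ z, PP c 1 z → C.mu ((Tp c (-1) - (Tp c (-1) + w) * y⁻¹) * z) = 1 := by
    rw [C.dual 1]
    exact not_good hw h
  push Not at h1
  obtain ⟨z, hz, hne⟩ := h1
  refine ⟨z, PP_one.1 hz, ?_⟩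
  intro h2
  apply hne
  rw [sub_mul, C.mu_sub, C.mu_comm (Tp c (-1)) z, h2, mul_assoc, div_self (C.mu_ne _)]

theorem PP_ex (x : Cyc c) : ∃ a : ℤ, PP c a x := by
  by_cases h : x = 0
  · exact ⟨0, h ▸ PP.zero 0⟩
  · obtain ⟨n, u, hu, hx⟩ := exists_ord' x h
    exact ⟨n, (ord_spec hu hx n).2 le_rfl⟩

theorem lev (S : Finset (G c)) (xs ys : G c → Cyc c) :
    ∃ a : ℤ, a ≤ 0 ∧ ∀ s ∈ S, PP c a (xs s) ∧ ∀ z, InP c z → PP c a ((ys s)⁻¹ * z) := by
  classical
  induction S using Finset.induction_on with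
  | empty => exact ⟨0, le_rfl, fun s hs => absurd hs (Finset.notMem_empty s)⟩
  | insert s S hs ih =>
    obtain ⟨a, ha, h⟩ := ih
    obtain ⟨a1, h1⟩ := PP_ex (xs s)
    obtain ⟨a2, h2⟩ := PP_ex (ys s)⁻¹
    refine ⟨min a (min a1 a2), (min_le_left _ _).trans ha, ?_⟩
    intro t ht
    rcases Finset.mem_insert.1 ht with h3 | h3
    · rw [h3]
      refine ⟨h1.mono ((min_le_right _ _).trans (min_le_left _ _)), ?_⟩
      intro z hz
      have h4 := h2.mul (PP_one.2 hz)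
      apply h4.mono
      have : min a (min a1 a2) ≤ a2 := (min_le_right _ _).trans (min_le_right _ _)
      omega
    · obtain ⟨h4, h5⟩ := h t h3
      exact ⟨h4.mono (min_le_left _ _), fun z hz => (h5 z hz).mono (min_le_left _ _)⟩

theorem sum_val (D : CD c k) (X : Finset (Cyc c)) (F : Cyc c → VV D) (g : G c) :
    (∑ x ∈ X, F x).1 g = ∑ x ∈ X, (F x).1 g := by
  classical
  induction X using Finset.induction_on with
  | empty => rfl
  | insert s S hs ih =>
    rw [Finset.sum_insert hs, Finset.sum_insert hs, ← ih]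
    rfl

theorem d1_mul_nn (y z : Cyc c) (hy : y ≠ 0) (x : Cyc c) :
    nn c z * (d1 y hy * nn c x) = d1 y hy * nn c x * nn c (y⁻¹ * z) := by
  have h1 : nn c z = d1 y hy * nn c (y⁻¹ * z) * (d1 y hy)⁻¹ := by
    rw [d1_nn, ← mul_assoc, mul_inv_cancel₀ hy, one_mul]
  rw [h1]
  have h2 : nn c (y⁻¹ * z) * nn c x = nn c x * nn c (y⁻¹ * z) := by
    rw [← nn_add, ← nn_add, add_comm]
  calc d1 y hy * nn c (y⁻¹ * z) * (d1 y hy)⁻¹ * (d1 y hy * nn c x)
      = d1 y hy * (nn c (y⁻¹ * z) * nn c x) := by group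
    _ = _ := by rw [h2]; group

theorem nn_d1 (u x : Cyc c) (hu : u ≠ 0) : nn c x * d1 u hu = d1 u hu * nn c (u⁻¹ * x) := by
  have h1 : d1 u hu * nn c (u⁻¹ * x) * (d1 u hu)⁻¹ = nn c x := by
    rw [d1_nn, ← mul_assoc, mul_inv_cancel₀ hu, one_mul]
  rw [← h1, inv_mul_cancel_right]

theorem d1_mul (y u : Cyc c) (hy : y ≠ 0) (hu : u ≠ 0) :
    d1 y hy * d1 u hu = d1 (y * u) (mul_ne_zero hy hu) := by
  apply G_ext
  · simp only [G_mul00, dg00, dg01, dg10, mul_zero, add_zero]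
  · simp only [G_mul01, dg00, dg01, dg11, mul_zero, zero_mul, add_zero]
  · simp only [G_mul10, dg00, dg10, dg11, mul_zero, zero_mul, add_zero]
  · simp only [G_mul11, dg11, dg01, dg10, mul_zero, zero_add, mul_one]

theorem irr_aux [Finite k] (D : CD c k) (W : Submodule ℂ (VV D)) (hW : ∀ g : G c, ∀ v ∈ W, rho D g v ∈ W)
    (f : VV D) (hf : f ∈ W) (hf1 : f.1 1 ≠ 0)
    (hM : ∃ M : ℤ, 2 ≤ M ∧ ∀ z, PP c M z → rho D (nn c z) f = f) : dlt D 1 ∈ W := by
  classical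
  obtain ⟨M, hM2, hM⟩ := hM
  obtain ⟨S, hS⟩ := f.2.2
  choose js hjs ys xs hys hs using decB D
  obtain ⟨a, ha0, ha⟩ := lev S xs ys
  -- (a)
  have hB0 : ∀ (y : Cyc c) (hy : y ≠ 0) (x : Cyc c), f.1 (d1 y hy * nn c x) ≠ 0 →
      ∃ s ∈ S, U1 c (y * (ys s)⁻¹) ∧ InP c (ys s * (x - xs s)) := by
    intro y hy x hne
    obtain ⟨s, hsS, h1⟩ := hS _ hne
    refine ⟨s, hsS, ?_⟩
    have h2 := (JJ D).mul_mem h1 (hjs s)
    have h3 : d1 y hy * nn c x * s⁻¹ * js s = d1 (y * (ys s)⁻¹) (mul_ne_zero hy (inv_ne_zero (hys s))) *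
        nn c (ys s * (x - xs s)) := by
      have e1 : s⁻¹ * js s = (nn c (xs s))⁻¹ * (d1 (ys s) (hys s))⁻¹ := by
        conv_lhs => rw [hs s]
        have e0 : js (js s * (d1 (ys s) (hys s) * nn c (xs s))) = js s := by rw [← hs s]
        rw [e0]
        group
      have e2 : (d1 (ys s) (hys s))⁻¹ = d1 (ys s)⁻¹ (inv_ne_zero (hys s)) := by
        rw [dg_inv]
        apply G_ext <;> simp
      rw [mul_assoc, e1, ← d1_mul y _ hy (inv_ne_zero (hys s)), ← e2, ← d1_nn (ys s) (hys s), sub_eq_add_neg,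
        nn_add, ← nn_neg]
      group
    rw [h3] at h2
    exact d1nn_mem _ h2
  have hA : ∀ x, f.1 (nn c x) ≠ 0 → PP c a x := by
    intro x hne
    have e0 : nn c x = d1 1 one_ne_zero * nn c x := by
      apply G_ext <;> simp only [G_mul00, G_mul01, G_mul10, G_mul11] <;> simp
    rw [e0] at hne
    obtain ⟨s, hsS, h1, h2⟩ := hB0 1 one_ne_zero x hne
    have h3 : U1 c (ys s) := by
      rw [one_mul] at h1
      have := h1.inv
      rwa [inv_inv] at this
    have h4 : PP c 1 (x - xs s) := (PP_unit_mul h3.UO).1 (PP_one.2 h2)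
    have h5 : x = (x - xs s) + xs s := by abel
    rw [h5]
    exact (h4.mono (by omega)).add (ha s hsS).1
  have hB : ∀ (y : Cyc c) (hy : y ≠ 0) (x : Cyc c), f.1 (d1 y hy * nn c x) ≠ 0 →
      ∀ z, InP c z → PP c a (y⁻¹ * z) := by
    intro y hy x hne z hz
    obtain ⟨s, hsS, h1, _⟩ := hB0 y hy x hne
    have h2 : y⁻¹ * z = (ys s)⁻¹ * ((y * (ys s)⁻¹)⁻¹ * z) := by
      rw [mul_inv_rev, inv_inv, ← mul_assoc, ← mul_assoc, inv_mul_cancel₀ (hys s), one_mul]
    rw [h2]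
    exact (ha s hsS).2 _ (InP.mul_left h1.inv.UO.1 hz)
  obtain ⟨X, hX⟩ := reps_exist' D.R a M (by omega)
  obtain ⟨Y, hY⟩ := reps_exist' D.R 0 (1 - a) (by omega)
  have hYO : ∀ w ∈ Y, InO c w := fun w hw => PP_zero.1 (hY.mem w hw)
  let FF : Cyc c → VV D := fun b => ∑ x ∈ X, D.C.mu (-(b * x)) • rho D (nn c x) f
  have hFW : ∀ b, FF b ∈ W := by
    intro b
    exact Submodule.sum_mem _ (fun x _ => Submodule.smul_mem _ _ (hW _ _ hf))
  have hFv : ∀ b g, (FF b).1 g = ∑ x ∈ X, D.C.mu (-(b * x)) * f.1 (g * nn c x) := by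
    intro b g
    exact sum_val D X _ g
  -- character sums over Y
  have hYsum : ∀ x, PP c a x → ∑ w ∈ Y, D.C.mu (w * x) = if PP c 1 x then (Y.card : ℂ) else 0 := by
    intro x hx
    have e1 : ∑ w ∈ Y, D.C.mu (w * x) = ∑ w ∈ Y, D.C.mu (x * w) :=
      Finset.sum_congr rfl (fun w _ => D.C.mu_comm _ _)
    rw [e1]
    by_cases h : PP c 1 x
    · rw [if_pos h]
      have e2 : ∀ w ∈ Y, D.C.mu (x * w) = 1 := by
        intro w hw
        have := (D.C.dual 0 x).2 (by rwa [sub_zero]) w (hY.mem w hw)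
        exact this
      rw [Finset.sum_congr rfl e2, Finset.sum_const, nsmul_eq_mul, mul_one]
    · rw [if_neg h]
      apply hY.sum_char D.C x
      · rwa [sub_sub_cancel]
      · rwa [sub_zero]
  -- a good w0
  obtain ⟨w0, hw0, hne0⟩ : ∃ w ∈ Y, (FF (Tp c (-1) + w)).1 1 ≠ 0 := by
    by_contra hcon
    push Not at hcon
    have h1 : ∑ w ∈ Y, (FF (Tp c (-1) + w)).1 1 = 0 := Finset.sum_eq_zero hcon
    have h2 : ∑ w ∈ Y, (FF (Tp c (-1) + w)).1 1 = ∑ x ∈ X, (D.C.mu (-(Tp c (-1) * x)) * f.1 (nn c x)) *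
        ∑ w ∈ Y, D.C.mu (w * (-x)) := by
      have e1 : ∀ w ∈ Y, (FF (Tp c (-1) + w)).1 1 = ∑ x ∈ X, (D.C.mu (-(Tp c (-1) * x)) * f.1 (nn c x)) *
          D.C.mu (w * (-x)) := by
        intro w _
        rw [hFv]
        apply Finset.sum_congr rfl
        intro x _
        rw [one_mul, add_mul, neg_add, D.C.mu_add, mul_neg]
        ring
      rw [Finset.sum_congr rfl e1, Finset.sum_comm]
      apply Finset.sum_congr rfl
      intro x _
      rw [Finset.mul_sum]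
    have h3 : ∀ x ∈ X, (D.C.mu (-(Tp c (-1) * x)) * f.1 (nn c x)) * ∑ w ∈ Y, D.C.mu (w * (-x)) =
        if PP c 1 x then f.1 1 * (Y.card : ℂ) else 0 := by
      intro x hx
      rw [hYsum (-x) (hX.mem x hx).neg]
      have e1 : PP c 1 (-x) ↔ PP c 1 x := ⟨fun h => by
        have := h.neg
        rwa [neg_neg] at this, fun h => h.neg⟩
      by_cases h : PP c 1 x
      · rw [if_pos (e1.2 h), if_pos h]
        obtain ⟨h4, h5⟩ := D.L_nn (PP_one.1 h)
        have h6 : f.1 (nn c x) = D.L (nn c x) * f.1 1 := by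
          rw [← VV_left f h4, mul_one]
        rw [h6, h5, D.C.mu_comm x, D.C.mu_neg]
        have := D.C.mu_ne (Tp c (-1) * x)
        field_simp
      · rw [if_neg (fun h' => h (e1.1 h')), if_neg h, mul_zero]
    rw [h2, Finset.sum_congr rfl h3, ← Finset.sum_filter, Finset.sum_const, nsmul_eq_mul] at h1
    have hYc : (Y.card : ℂ) ≠ 0 := by
      obtain ⟨s, hs, _⟩ := hY.ex 0 (PP.zero 0)
      exact Nat.cast_ne_zero.2 (Finset.card_ne_zero.2 ⟨s, hs⟩)
    have hXc : (((X.filter (fun x => PP c 1 x)).card : ℕ) : ℂ) ≠ 0 := by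
      obtain ⟨s, hs, h⟩ := hX.ex 0 (PP.zero a)
      have h4 : PP c 1 s := by
        have := (h.mono (show (1 : ℤ) ≤ M by omega)).neg
        rw [neg_sub, sub_zero] at this
        exact this
      exact Nat.cast_ne_zero.2 (Finset.card_ne_zero.2 ⟨s, Finset.mem_filter.2 ⟨hs, h4⟩⟩)
    exact mul_ne_zero hXc (mul_ne_zero hf1 hYc) h1
  have hw0O := hYO w0 hw0
  set b := Tp c (-1) + w0 with hb
  have hbne : b ≠ 0 := b_ne hw0O
  set F := FF b with hF
  -- (P1)
  have P1 : ∀ (g : G c) (u : Cyc c), PP c a u → F.1 (g * nn c u) = D.C.mu (b * u) * F.1 g := by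
    intro g u hu
    rw [hF, hFv, hFv]
    have e1 := hX.sum_shift (fun x => D.C.mu (-(b * x)) * f.1 (g * nn c x)) (by
      intro x z hz
      have e2 : f.1 (g * nn c (x + z)) = f.1 (g * nn c x) := by
        rw [nn_add, ← mul_assoc, ← rho_apply D (nn c z) f, hM z hz]
      have e3 : D.C.mu (-(b * (x + z))) = D.C.mu (-(b * x)) := by
        rw [mul_add, neg_add, D.C.mu_add]
        have hbP : PP c (-1) b := by
          rw [hb]
          exact (PP_Tp (-1)).add ((PP_zero.2 hw0O).mono (by norm_num))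
        have e4 : PP c 1 (-(b * z)) := ((hbP.mul hz).mono (by omega)).neg
        rw [D.C.mu_P e4, mul_one]
      rw [e2, e3]) u hu
    rw [← e1, Finset.mul_sum]
    apply Finset.sum_congr rfl
    intro x _
    rw [mul_assoc g, ← nn_add, add_comm u x]
    have e5 : -(b * x) = b * u + -(b * (x + u)) := by
      rw [mul_add, neg_add]
      abel
    rw [e5, D.C.mu_add]
    ring
  -- (P2)
  have P2 : ∀ (y : Cyc c) (hy : y ≠ 0), ¬ U1 c y → ∀ x, F.1 (d1 y hy * nn c x) = 0 := by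
    intro y hy hU x
    by_cases hex : ∃ x', f.1 (d1 y hy * nn c x') ≠ 0
    · obtain ⟨x', hx'⟩ := hex
      obtain ⟨z, hz, hne⟩ := bad_l D.C hw0O hU
      have e1 := P1 (d1 y hy * nn c x) (y⁻¹ * z) (hB y hy x' hx' z hz)
      rw [← d1_mul_nn] at e1
      obtain ⟨h4, h5⟩ := D.L_nn hz
      rw [VV_left F h4, h5] at e1
      by_contra h0
      exact hne (mul_right_cancel₀ h0 e1)
    · push Not at hex
      rw [hF, hFv]
      apply Finset.sum_eq_zero
      intro x' _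
      rw [mul_assoc, ← nn_add, hex, mul_zero]
  -- (P3)
  have P3 : ∀ x, ¬ PP c a x → F.1 (nn c x) = 0 := by
    intro x hx
    rw [hF, hFv]
    apply Finset.sum_eq_zero
    intro x' hx'
    have : f.1 (nn c x * nn c x') = 0 := by
      by_contra h
      rw [← nn_add] at h
      have h1 := hA _ h
      apply hx
      have h2 := h1.sub (hX.mem x' hx')
      rwa [add_sub_cancel_right] at h2
    rw [this, mul_zero]
  -- the vectors for all w
  have hU : ∀ w, InO c w → U1 c ((Tp c (-1) + w)⁻¹ * b) := by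
    intro w hw
    have e1 : (Tp c (-1) + w)⁻¹ * b = (Tp c 1 * (Tp c (-1) + w))⁻¹ * (Tp c 1 * b) := by
      rw [mul_inv_rev, mul_assoc, ← mul_assoc (Tp c 1)⁻¹, inv_mul_cancel₀ (Tp_ne 1), one_mul]
    rw [e1]
    exact (U1_Tb hw).inv.mul (U1_Tb hw0O)
  let uu : Cyc c → Cyc c := fun w => if InO c w then (Tp c (-1) + w)⁻¹ * b else 1
  have huu : ∀ w, U1 c (uu w) := by
    intro w
    by_cases h : InO c w
    · simp only [uu, if_pos h]
      exact hU w h
    · simp only [uu, if_neg h]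
      exact U1.one
  have huu' : ∀ w, InO c w → b * (uu w)⁻¹ = Tp c (-1) + w := by
    intro w hw
    simp only [uu, if_pos hw]
    rw [mul_inv_rev, inv_inv, ← mul_assoc, mul_inv_cancel₀ hbne, one_mul]
  let E : VV D := ∑ w ∈ Y, (D.L (d1 (uu w) (huu w).UO.ne))⁻¹ • rho D (d1 (uu w) (huu w).UO.ne) F
  have hEW : E ∈ W := Submodule.sum_mem _ (fun w _ => Submodule.smul_mem _ _ (hW _ _ (hFW b)))
  have hEv : ∀ g, E.1 g = ∑ w ∈ Y, (D.L (d1 (uu w) (huu w).UO.ne))⁻¹ * F.1 (g * d1 (uu w) (huu w).UO.ne) := by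
    intro g
    exact sum_val D Y _ g
  have E1 : ∀ x, E.1 (nn c x) = if PP c 1 x then ((Y.card : ℂ) * F.1 1) * D.C.mu (x * Tp c (-1)) else 0 := by
    intro x
    have e1 : ∀ w ∈ Y, (D.L (d1 (uu w) (huu w).UO.ne))⁻¹ * F.1 (nn c x * d1 (uu w) (huu w).UO.ne) =
        F.1 (nn c ((uu w)⁻¹ * x)) := by
      intro w _
      rw [nn_d1, VV_left F ((huu w).J D), ← mul_assoc, inv_mul_cancel₀ (D.L_ne ((huu w).J D)), one_mul]
    rw [hEv, Finset.sum_congr rfl e1]
    by_cases hx : PP c a x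
    · have e2 : ∀ w ∈ Y, F.1 (nn c ((uu w)⁻¹ * x)) = (F.1 1 * D.C.mu (Tp c (-1) * x)) * D.C.mu (w * x) := by
        intro w hw
        have h1 : PP c a ((uu w)⁻¹ * x) := (PP_unit_mul (huu w).UO.inv).2 hx
        have h2 := P1 1 _ h1
        rw [one_mul] at h2
        rw [h2, ← mul_assoc, huu' w (hYO w hw), add_mul, D.C.mu_add]
        ring
      rw [Finset.sum_congr rfl e2, ← Finset.mul_sum, hYsum x hx, D.C.mu_comm]
      by_cases h : PP c 1 x
      · rw [if_pos h, if_pos h]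
        ring
      · rw [if_neg h, if_neg h, mul_zero]
    · have h : ¬ PP c 1 x := fun h' => hx (h'.mono (by omega))
      rw [if_neg h]
      apply Finset.sum_eq_zero
      intro w _
      exact P3 _ (fun h' => hx ((PP_unit_mul (huu w).UO.inv).1 h'))
  have E2 : ∀ (y : Cyc c) (hy : y ≠ 0), ¬ U1 c y → ∀ x, E.1 (d1 y hy * nn c x) = 0 := by
    intro y hy hU' x
    rw [hEv]
    apply Finset.sum_eq_zero
    intro w _
    rw [mul_assoc (d1 y hy), nn_d1, ← mul_assoc (d1 y hy), d1_mul, P2, mul_zero]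
    intro h
    apply hU'
    have h1 := h.mul (huu w).inv
    rwa [mul_assoc, mul_inv_cancel₀ (huu w).UO.ne, mul_one] at h1
  have hfin : E = ((Y.card : ℂ) * F.1 1) • dlt D 1 := by
    apply Subtype.ext
    funext g
    obtain ⟨j, hj, y, x, hy, hg⟩ := decB D g
    have hj' : ∀ v : VV D, v.1 g = D.L j * v.1 (d1 y hy * nn c x) := by
      intro v
      rw [hg, VV_left v hj]
    rw [hj', hj']
    congr 1
    change E.1 (d1 y hy * nn c x) = ((Y.card : ℂ) * F.1 1) * (dlt D 1).1 (d1 y hy * nn c x)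
    by_cases hU' : U1 c y
    · rw [VV_left E (hU'.J D), VV_left (dlt D 1) (hU'.J D), E1]
      rw [dlt_apply, inv_one, mul_one]
      by_cases h : PP c 1 x
      · obtain ⟨h4, h5⟩ := D.L_nn (PP_one.1 h)
        rw [if_pos h, if_pos h4, h5]
        ring
      · rw [if_neg h, if_neg (fun h' => h (PP_one.2 (nn_mem_JJ h')))]
        ring
    · rw [E2 y hy hU', dlt_apply, inv_one, mul_one, if_neg, mul_zero]
      intro h
      exact hU' (d1nn_mem _ h).1
  have hYc : (Y.card : ℂ) ≠ 0 := by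
    obtain ⟨s, hs, _⟩ := hY.ex 0 (PP.zero 0)
    exact Nat.cast_ne_zero.2 (Finset.card_ne_zero.2 ⟨s, hs⟩)
  have hc : ((Y.card : ℂ) * F.1 1) ≠ 0 := mul_ne_zero hYc hne0
  have h9 : dlt D 1 = ((Y.card : ℂ) * F.1 1)⁻¹ • E := by
    rw [hfin, smul_smul, inv_mul_cancel₀ hc, one_smul]
  rw [h9]
  exact Submodule.smul_mem _ _ hEW

end Pool.Agent.Helper42.WD
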