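import Pool.Agent.Helper42.WD.Dec2

namespace Pool.Agent.Helper42.WD

variable {K : Type} [Field K] {c : Dat K} {k : Type} [Field k]

/-- the diagonal element `diag(y, 1)` -/
noncomputable abbrev d1 (y : Cyc c) (hy : y ≠ 0) : G c := dg y 1 hy one_ne_zero

theorem d1_nn (y : Cyc c) (hy : y ≠ 0) (x : Cyc c) : d1 y hy * nn c x * (d1 y hy)⁻¹ = nn c (y * x) := by
  rw [dg_nn, inv_one, mul_one]

/-- the support condition for the character `mu(b x)` at `diag(y, 1)` -/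
def good (y b : Cyc c) : Prop := PP c 0 (Tp c (-1) - b * y⁻¹)

/-- if the characters disagree then the delta function dies -/
theorem dlt_bad (D : CD c k) (f : Cyc c → ℂ) (b : Cyc c) (hf : ∀ x, f x = D.C.mu (b * x))
    (y : Cyc c) (hy : y ≠ 0) (h : ¬ good y b) : dlt D (d1 y hy) ∈ tspan (rho D) f := by
  have h1 : ¬ ∀ z, PP c 1 z → D.C.mu ((Tp c (-1) - b * y⁻¹) * z) = 1 := by
    rw [D.C.dual 1]
    exact h
  push Not at h1
  obtain ⟨z, hz, hne⟩ := h1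
  have hzP : InP c z := PP_one.1 hz
  obtain ⟨h2, h3⟩ := D.L_nn hzP
  have h4 : d1 y hy * nn c (y⁻¹ * z) * (d1 y hy)⁻¹ = nn c z := by
    rw [d1_nn, ← mul_assoc, mul_inv_cancel₀ hy, one_mul]
  apply dlt_mem_tspan D f (d1 y hy) (y⁻¹ * z)
  · rw [h4]
    exact h2
  · rw [h4, h3, hf]
    intro h5
    apply hne
    rw [sub_mul, D.C.mu_sub, D.C.mu_comm (Tp c (-1)) z, h5, mul_assoc, div_self (D.C.mu_ne _)]

theorem fne (D : CD c k) (f : Cyc c → ℂ) (b : Cyc c) (hf : ∀ x, f x = D.C.mu (b * x)) (x : Cyc c) :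
    f x ≠ 0 := by
  rw [hf]
  exact D.C.mu_ne _

/-- Reduction to the diagonal. -/
theorem dlt_red (D : CD c k) (f : Cyc c → ℂ) (b : Cyc c) (hf : ∀ x, f x = D.C.mu (b * x))
    (g : G c) (j : G c) (hj : j ∈ JJ D) (y x : Cyc c) (hy : y ≠ 0) (hg : g = j * (d1 y hy * nn c x))
    (h : dlt D (d1 y hy) ∈ tspan (rho D) f) : dlt D g ∈ tspan (rho D) f := by
  rw [hg, dlt_left D hj]
  exact Submodule.smul_mem _ _ (dlt_nn D f (fne D f b hf) _ _ h)

/-- Cuspidality. -/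
theorem cusp (D : CD c k) : tspan (rho D) (fun _ => 1) = ⊤ := by
  rw [eq_top_iff, ← span_dlt D, Submodule.span_le]
  rintro _ ⟨g, rfl⟩
  obtain ⟨j, hj, y, x, hy, hg⟩ := decB D g
  have hf : ∀ x : Cyc c, (fun _ : Cyc c => (1 : ℂ)) x = D.C.mu (0 * x) := by
    intro x
    rw [zero_mul, D.C.mu_zero]
  apply dlt_red D _ 0 hf g j hj y x hy hg
  apply dlt_bad D _ 0 hf
  rw [good, zero_mul, sub_zero]
  intro h
  have := (ord_spec (c := c) UO.one (one_mul (Tp c (-1))).symm 0).1 h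
  omega

/-- two good classes agree modulo `J` -/
theorem good_class (D : CD c k) {y y' b : Cyc c} (hy : y ≠ 0) (hy' : y' ≠ 0) (h : good y b)
    (h' : good y' b) : ∃ j ∈ JJ D, d1 y hy = j * d1 y' hy' := by
  -- b y⁻¹ = T⁻¹ (1 - ...), so y = b' ...
  have key : ∀ {y : Cyc c} (_ : y ≠ 0), good y b → b ≠ 0 ∧ ∃ u, UO c u ∧ D.R.cf 0 u = 1 ∧
      y⁻¹ = b⁻¹ * (Tp c (-1) * u) := by
    intro y hy h
    have hb : b ≠ 0 := by
      intro hb
      rw [hb, good, zero_mul, sub_zero] at h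
      have := (ord_spec (c := c) UO.one (one_mul (Tp c (-1))).symm 0).1 h
      omega
    have h1 : InP c (1 - Tp c 1 * (b * y⁻¹)) := by
      rw [← PP_one]
      have h2 := (PP_Tp (c := c) 1).mul h
      rw [mul_sub, Tp_mul_neg, add_zero] at h2
      exact h2
    refine ⟨hb, Tp c 1 * (b * y⁻¹), ?_, ?_, ?_⟩
    · have h2 := UO_one_sub h1
      rwa [sub_sub_cancel] at h2
    · have h2 : Tp c 1 * (b * y⁻¹) = 1 + -(1 - Tp c 1 * (b * y⁻¹)) := by
        rw [neg_sub, add_sub_cancel]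
      have h3 : InP c (-(1 - Tp c 1 * (b * y⁻¹))) := by
        rw [← PP_one] at h1 ⊢
        exact h1.neg
      rw [h2, D.R.cf_add 0 InO.one h3.inO, D.R.cf_one_zero, D.R.cf0_InP h3, add_zero]
    · rw [← mul_assoc (Tp c (-1)), Tp_neg_mul, one_mul, ← mul_assoc, inv_mul_cancel₀ hb, one_mul]
  obtain ⟨hb, u, hu, hu1, hyu⟩ := key hy h
  obtain ⟨_, u', hu', hu1', hyu'⟩ := key hy' h'
  -- y = u⁻¹ T b ; y y'⁻¹ = u⁻¹ u'
  have h1 : y * y'⁻¹ = u⁻¹ * u' := by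
    have h2 : y = u⁻¹ * (Tp c 1 * b) := by
      rw [← inv_inv y, hyu, mul_inv_rev, mul_inv_rev, inv_inv, Tp_inv, neg_neg, mul_assoc]
    rw [h2, hyu']
    rw [mul_assoc u⁻¹, mul_assoc (Tp c 1), ← mul_assoc b, mul_inv_cancel₀ hb, one_mul, ← mul_assoc (Tp c 1),
      Tp_mul_neg, one_mul]
  have hU : UO c (y * y'⁻¹) := by
    rw [h1]
    exact hu.inv.mul hu'
  have hcf : D.R.cf 0 (y * y'⁻¹) = 1 := by
    rw [h1, D.R.cf0_mul hu.inv.1 hu'.1, hu1', mul_one]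
    have h3 := D.R.cf0_mul hu.inv.1 hu.1
    rw [inv_mul_cancel₀ hu.ne, D.R.cf_one_zero, hu1, mul_one] at h3
    exact h3.symm
  have hJ0 : InJ0 D.R (dg (y * y'⁻¹) 1 hU.ne UO.one.ne) := by
    apply dg_InJ0 D.R hU UO.one
    rw [hcf, map_one, map_one, D.R.cf_one_zero]
  refine ⟨_, (D.L_J0 hJ0).1, ?_⟩
  apply G_ext
  · simp only [G_mul00, dg00, dg01, dg10, mul_zero, add_zero]
    rw [mul_assoc, inv_mul_cancel₀ hy', mul_one]
  · simp only [G_mul01, dg00, dg01, dg11, mul_zero, zero_mul, add_zero]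
  · simp only [G_mul10, dg00, dg10, dg11, mul_zero, zero_mul, add_zero]
  · simp only [G_mul11, dg11, dg01, dg10, mul_zero, zero_add, mul_one]

/-- the good element for the character `mu(b x)`: `y = T b` -/
theorem good_Tb (b : Cyc c) (hb : b ≠ 0) : good (Tp c 1 * b) b := by
  rw [good, mul_inv_rev, Tp_inv, ← mul_assoc, mul_inv_cancel₀ hb, one_mul, sub_self]
  exact PP.zero 0

/-- The quotient is spanned by one class. -/
theorem span_one (D : CD c k) (f : Cyc c → ℂ) (b : Cyc c) (hb : b ≠ 0) (hf : ∀ x, f x = D.C.mu (b * x))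
    (v : VV D) : ∃ a : ℂ, v - a • dlt D (d1 (Tp c 1 * b) (mul_ne_zero (Tp_ne 1) hb)) ∈ tspan (rho D) f := by
  have hv := mem_span_dlt D v
  induction hv using Submodule.span_induction with
  | mem x hx =>
    obtain ⟨g, rfl⟩ := hx
    obtain ⟨j, hj, y, x, hy, hg⟩ := decB D g
    by_cases h : good y b
    · obtain ⟨j', hj', h1⟩ := good_class D hy (mul_ne_zero (Tp_ne 1) hb) h (good_Tb b hb)
      refine ⟨(D.L j)⁻¹ * ((f x)⁻¹ * (D.L j')⁻¹), ?_⟩
      have h2 : dlt D g = (D.L j)⁻¹ • dlt D (d1 y hy * nn c x) := by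
        rw [hg, dlt_left D hj]
      have h3 : dlt D (d1 y hy) = (D.L j')⁻¹ • dlt D (d1 (Tp c 1 * b) (mul_ne_zero (Tp_ne 1) hb)) := by
        rw [h1, dlt_left D hj']
      have h4 : rho D (nn c x) (dlt D (d1 y hy * nn c x)) - f x • dlt D (d1 y hy * nn c x) ∈
          tspan (rho D) f := Submodule.subset_span ⟨x, _, rfl⟩
      rw [rho_dlt, mul_inv_cancel_right, h3] at h4
      rw [h2]
      have hfx := fne D f b hf x
      have h5 := Submodule.smul_mem (tspan (rho D) f) (-((D.L j)⁻¹ * (f x)⁻¹)) h4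
      have h6 : (D.L j)⁻¹ • dlt D (d1 y hy * nn c x) - ((D.L j)⁻¹ * ((f x)⁻¹ * (D.L j')⁻¹)) •
          dlt D (d1 (Tp c 1 * b) (mul_ne_zero (Tp_ne 1) hb)) =
          -((D.L j)⁻¹ * (f x)⁻¹) • ((D.L j')⁻¹ • dlt D (d1 (Tp c 1 * b) (mul_ne_zero (Tp_ne 1) hb)) -
            f x • dlt D (d1 y hy * nn c x)) := by
        apply Subtype.ext
        funext z
        change (D.L j)⁻¹ * (dlt D (d1 y hy * nn c x)).1 z - ((D.L j)⁻¹ * ((f x)⁻¹ * (D.L j')⁻¹)) *
          (dlt D (d1 (Tp c 1 * b) (mul_ne_zero (Tp_ne 1) hb))).1 z =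
          -((D.L j)⁻¹ * (f x)⁻¹) * ((D.L j')⁻¹ * (dlt D (d1 (Tp c 1 * b) (mul_ne_zero (Tp_ne 1) hb))).1 z -
            f x * (dlt D (d1 y hy * nn c x)).1 z)
        have : (f x)⁻¹ * f x = 1 := inv_mul_cancel₀ hfx
        linear_combination (-(D.L j)⁻¹ * (dlt D (d1 y hy * nn c x)).1 z) * this
      rw [h6]
      exact h5
    · refine ⟨0, ?_⟩
      have h1 := dlt_red D f b hf g j hj y x hy hg (dlt_bad D f b hf y hy h)
      have h2 : dlt D g - (0 : ℂ) • dlt D (d1 (Tp c 1 * b) (mul_ne_zero (Tp_ne 1) hb)) = dlt D g := by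
        rw [zero_smul, sub_zero]
      rw [h2]
      exact h1
  | zero => exact ⟨0, by
      rw [zero_smul, sub_zero]
      exact Submodule.zero_mem _⟩
  | add x y _ _ hx hy =>
    obtain ⟨a, ha⟩ := hx
    obtain ⟨a', ha'⟩ := hy
    refine ⟨a + a', ?_⟩
    have := Submodule.add_mem _ ha ha'
    have h1 : x + y - (a + a') • dlt D (d1 (Tp c 1 * b) (mul_ne_zero (Tp_ne 1) hb)) =
        x - a • dlt D (d1 (Tp c 1 * b) (mul_ne_zero (Tp_ne 1) hb)) +
        (y - a' • dlt D (d1 (Tp c 1 * b) (mul_ne_zero (Tp_ne 1) hb))) := by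
      rw [add_smul]
      abel
    rw [h1]
    exact this
  | smul a x _ hx =>
    obtain ⟨a', ha'⟩ := hx
    refine ⟨a * a', ?_⟩
    have := Submodule.smul_mem _ a ha'
    rw [smul_sub, smul_smul] at this
    exact this

end Pool.Agent.Helper42.WD
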