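import Pool.Agent.Helper42.WD.Norm
import Pool.Agent.Helper42.WD.Abs

namespace Pool.Agent.Helper42.WD

variable {K : Type} [Field K] {c : Dat K} {k : Type} [Field k]

/-- The Iwahori order. -/
structure IwM (g : Matrix (Fin 2) (Fin 2) (Cyc c)) : Prop where
  h00 : InO c (g 0 0)
  h01 : InO c (g 0 1)
  h10 : InP c (g 1 0)
  h11 : InO c (g 1 1)

theorem InP.mul_left {x y : Cyc c} (hx : InO c x) (hy : InP c y) : InP c (x * y) := by
  rw [← PP_one] at hy ⊢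
  have := (PP_zero.2 hx).mul hy
  rwa [zero_add] at this

theorem InP.mul_right {x y : Cyc c} (hx : InP c x) (hy : InO c y) : InP c (x * y) := by
  rw [← PP_one] at hx ⊢
  have := hx.mul (PP_zero.2 hy)
  rwa [add_zero] at this

theorem InP.add {x y : Cyc c} (hx : InP c x) (hy : InP c y) : InP c (x + y) := by
  rw [← PP_one] at hx hy ⊢
  exact PP.add hx hy

theorem IwM.mul {g h : Matrix (Fin 2) (Fin 2) (Cyc c)} (hg : IwM g) (hh : IwM h) : IwM (g * h) := by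
  constructor
  · rw [Matrix.mul_apply, Fin.sum_univ_two]
    exact (hg.h00.mul hh.h00).add (hg.h01.mul hh.h10.inO)
  · rw [Matrix.mul_apply, Fin.sum_univ_two]
    exact (hg.h00.mul hh.h01).add (hg.h01.mul hh.h11)
  · rw [Matrix.mul_apply, Fin.sum_univ_two]
    exact (hg.h10.mul_right hh.h00).add (InP.mul_left hg.h11 hh.h10)
  · rw [Matrix.mul_apply, Fin.sum_univ_two]
    exact (hg.h10.inO.mul hh.h01).add (hg.h11.mul hh.h11)

theorem IwM.one : IwM (1 : Matrix (Fin 2) (Fin 2) (Cyc c)) := by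
  constructor
  · simpa using InO.one
  · simpa using InO.zero
  · rw [← PP_one]
    simpa using PP.zero (c := c) 1
  · simpa using InO.one

namespace Res

variable (R : Res c k)

/-- the automorphism `tau` of `k × k` -/
def tau : k × k →+* k × k where
  toFun x := (x.2, R.S x.1)
  map_one' := by
    ext <;> simp
  map_mul' x y := by
    ext <;> simp
  map_zero' := by
    ext <;> simp
  map_add' x y := by
    ext <;> simp

@[simp] theorem tau_fst (x : k × k) : (R.tau x).1 = x.2 := rfl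
@[simp] theorem tau_snd (x : k × k) : (R.tau x).2 = R.S x.1 := rfl

def rr0 (g : Matrix (Fin 2) (Fin 2) (Cyc c)) : k × k := (R.cf 0 (g 0 0), R.cf 0 (g 1 1))
def rr1 (g : Matrix (Fin 2) (Fin 2) (Cyc c)) : k × k := (R.cf 0 (g 0 1), R.cf 1 (g 1 0))
def rr2 (g : Matrix (Fin 2) (Fin 2) (Cyc c)) : k × k := (R.cf 1 (g 0 0), R.cf 1 (g 1 1))
def rr3 (g : Matrix (Fin 2) (Fin 2) (Cyc c)) : k × k := (R.cf 1 (g 0 1), R.cf 2 (g 1 0))

variable {g h : Matrix (Fin 2) (Fin 2) (Cyc c)}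

theorem rr0_mul (hg : IwM g) (hh : IwM h) : R.rr0 (g * h) = R.rr0 g * R.rr0 h := by
  apply Prod.ext
  · change R.cf 0 ((g * h) 0 0) = R.cf 0 (g 0 0) * R.cf 0 (h 0 0)
    rw [Matrix.mul_apply, Fin.sum_univ_two, R.cf_add 0 (hg.h00.mul hh.h00) (hg.h01.mul hh.h10.inO),
      R.cf0_mul hg.h00 hh.h00, R.cf0_mul hg.h01 hh.h10.inO, R.cf0_InP hh.h10]
    ring
  · change R.cf 0 ((g * h) 1 1) = R.cf 0 (g 1 1) * R.cf 0 (h 1 1)
    rw [Matrix.mul_apply, Fin.sum_univ_two, R.cf_add 0 (hg.h10.inO.mul hh.h01) (hg.h11.mul hh.h11),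
      R.cf0_mul hg.h10.inO hh.h01, R.cf0_mul hg.h11 hh.h11, R.cf0_InP hg.h10]
    ring

theorem rr1_mul (hg : IwM g) (hh : IwM h) :
    R.rr1 (g * h) = R.rr0 g * R.rr1 h + R.rr1 g * R.tau (R.rr0 h) := by
  apply Prod.ext
  · change R.cf 0 ((g * h) 0 1) = R.cf 0 (g 0 0) * R.cf 0 (h 0 1) + R.cf 0 (g 0 1) * R.cf 0 (h 1 1)
    rw [Matrix.mul_apply, Fin.sum_univ_two, R.cf_add 0 (hg.h00.mul hh.h01) (hg.h01.mul hh.h11),
      R.cf0_mul hg.h00 hh.h01, R.cf0_mul hg.h01 hh.h11]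
  · change R.cf 1 ((g * h) 1 0) = R.cf 0 (g 1 1) * R.cf 1 (h 1 0) + R.cf 1 (g 1 0) * R.S (R.cf 0 (h 0 0))
    rw [Matrix.mul_apply, Fin.sum_univ_two, R.cf_add 1 (hg.h10.inO.mul hh.h00) (hg.h11.mul hh.h10.inO),
      R.cf1_mul hg.h10.inO hh.h00, R.cf1_mul hg.h11 hh.h10.inO, R.cf0_InP hg.h10, R.cf0_InP hh.h10,
      map_zero]
    ring

theorem rr2_mul (hg : IwM g) (hh : IwM h) :
    R.rr2 (g * h) = R.rr0 g * R.rr2 h + R.rr1 g * R.tau (R.rr1 h)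
      + R.rr2 g * R.tau (R.tau (R.rr0 h)) := by
  apply Prod.ext
  · change R.cf 1 ((g * h) 0 0) = R.cf 0 (g 0 0) * R.cf 1 (h 0 0) + R.cf 0 (g 0 1) * R.cf 1 (h 1 0)
      + R.cf 1 (g 0 0) * R.S (R.cf 0 (h 0 0))
    rw [Matrix.mul_apply, Fin.sum_univ_two, R.cf_add 1 (hg.h00.mul hh.h00) (hg.h01.mul hh.h10.inO),
      R.cf1_mul hg.h00 hh.h00, R.cf1_mul hg.h01 hh.h10.inO, R.cf0_InP hh.h10, map_zero]
    ring
  · change R.cf 1 ((g * h) 1 1) = R.cf 0 (g 1 1) * R.cf 1 (h 1 1) + R.cf 1 (g 1 0) * R.S (R.cf 0 (h 0 1))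
      + R.cf 1 (g 1 1) * R.S (R.cf 0 (h 1 1))
    rw [Matrix.mul_apply, Fin.sum_univ_two, R.cf_add 1 (hg.h10.inO.mul hh.h01) (hg.h11.mul hh.h11),
      R.cf1_mul hg.h10.inO hh.h01, R.cf1_mul hg.h11 hh.h11, R.cf0_InP hg.h10]
    ring

theorem rr3_mul (hg : IwM g) (hh : IwM h) :
    R.rr3 (g * h) = R.rr0 g * R.rr3 h + R.rr1 g * R.tau (R.rr2 h)
      + R.rr2 g * R.tau (R.tau (R.rr1 h)) + R.rr3 g * R.tau (R.tau (R.tau (R.rr0 h))) := by
  apply Prod.ext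
  · change R.cf 1 ((g * h) 0 1) = R.cf 0 (g 0 0) * R.cf 1 (h 0 1) + R.cf 0 (g 0 1) * R.cf 1 (h 1 1)
      + R.cf 1 (g 0 0) * R.S (R.cf 0 (h 0 1)) + R.cf 1 (g 0 1) * R.S (R.cf 0 (h 1 1))
    rw [Matrix.mul_apply, Fin.sum_univ_two, R.cf_add 1 (hg.h00.mul hh.h01) (hg.h01.mul hh.h11),
      R.cf1_mul hg.h00 hh.h01, R.cf1_mul hg.h01 hh.h11]
    ring
  · change R.cf 2 ((g * h) 1 0) = R.cf 0 (g 1 1) * R.cf 2 (h 1 0) + R.cf 1 (g 1 0) * R.S (R.cf 1 (h 0 0))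
      + R.cf 1 (g 1 1) * R.S (R.cf 1 (h 1 0)) + R.cf 2 (g 1 0) * R.S (R.S (R.cf 0 (h 0 0)))
    rw [Matrix.mul_apply, Fin.sum_univ_two, R.cf_add 2 (hg.h10.inO.mul hh.h00) (hg.h11.mul hh.h10.inO),
      R.cf2_mul hg.h10.inO hh.h00, R.cf2_mul hg.h11 hh.h10.inO, R.cf0_InP hg.h10, R.cf0_InP hh.h10,
      map_zero, map_zero]
    ring

theorem rr_one : R.rr0 1 = 1 ∧ R.rr1 1 = 0 ∧ R.rr2 1 = 0 ∧ R.rr3 1 = 0 := by
  refine ⟨?_, ?_, ?_, ?_⟩
  · apply Prod.ext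
    · change R.cf 0 ((1 : Matrix (Fin 2) (Fin 2) (Cyc c)) 0 0) = 1
      rw [Matrix.one_apply_eq, R.cf_one_zero]
    · change R.cf 0 ((1 : Matrix (Fin 2) (Fin 2) (Cyc c)) 1 1) = 1
      rw [Matrix.one_apply_eq, R.cf_one_zero]
  · apply Prod.ext
    · change R.cf 0 ((1 : Matrix (Fin 2) (Fin 2) (Cyc c)) 0 1) = 0
      rw [Matrix.one_apply_ne (by decide), R.cf_zero]
    · change R.cf 1 ((1 : Matrix (Fin 2) (Fin 2) (Cyc c)) 1 0) = 0
      rw [Matrix.one_apply_ne (by decide), R.cf_zero]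
  · apply Prod.ext
    · change R.cf 1 ((1 : Matrix (Fin 2) (Fin 2) (Cyc c)) 0 0) = 0
      rw [Matrix.one_apply_eq, R.cf_one_one]
    · change R.cf 1 ((1 : Matrix (Fin 2) (Fin 2) (Cyc c)) 1 1) = 0
      rw [Matrix.one_apply_eq, R.cf_one_one]
  · apply Prod.ext
    · change R.cf 1 ((1 : Matrix (Fin 2) (Fin 2) (Cyc c)) 0 1) = 0
      rw [Matrix.one_apply_ne (by decide), R.cf_zero]
    · change R.cf 2 ((1 : Matrix (Fin 2) (Fin 2) (Cyc c)) 1 0) = 0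
      rw [Matrix.one_apply_ne (by decide), R.cf_zero]

end Res

/-- The group `J0`. -/
structure InJ0 (R : Res c k) (g : G c) : Prop where
  iw : IwM g.val
  iwi : IwM (g⁻¹ : G c).val
  f0 : R.tau (R.tau (R.tau (R.rr0 g.val))) = R.rr0 g.val
  f1 : R.tau (R.tau (R.tau (R.rr1 g.val))) = R.rr1 g.val

theorem InJ0.inv0 {R : Res c k} {g : G c} (h1 : IwM g.val) (h2 : IwM (g⁻¹ : G c).val) :
    R.rr0 (g⁻¹ : G c).val * R.rr0 g.val = 1 := by
  rw [← R.rr0_mul h2 h1]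
  have : (g⁻¹ : G c).val * g.val = 1 := g.inv_mul
  rw [this]
  exact R.rr_one.1

theorem InJ0.inv0' {R : Res c k} {g : G c} (h1 : IwM g.val) (h2 : IwM (g⁻¹ : G c).val) :
    R.rr0 g.val * R.rr0 (g⁻¹ : G c).val = 1 := by
  rw [mul_comm]
  exact InJ0.inv0 h1 h2

theorem InJ0.fi0 {R : Res c k} {g : G c} (h : InJ0 R g) :
    R.tau (R.tau (R.tau (R.rr0 (g⁻¹ : G c).val))) = R.rr0 (g⁻¹ : G c).val := by
  have h1 := InJ0.inv0 (R := R) h.iw h.iwi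
  have h2 : R.tau (R.tau (R.tau (R.rr0 (g⁻¹ : G c).val))) * R.rr0 g.val = 1 := by
    conv_lhs => rw [← h.f0]
    rw [← map_mul, ← map_mul, ← map_mul, h1, map_one, map_one, map_one]
  calc R.tau (R.tau (R.tau (R.rr0 (g⁻¹ : G c).val)))
      = R.tau (R.tau (R.tau (R.rr0 (g⁻¹ : G c).val))) * (R.rr0 (g⁻¹ : G c).val * R.rr0 g.val) := by
        rw [h1, mul_one]
    _ = R.rr0 (g⁻¹ : G c).val * (R.tau (R.tau (R.tau (R.rr0 (g⁻¹ : G c).val))) * R.rr0 g.val) := by ring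
    _ = R.rr0 (g⁻¹ : G c).val := by rw [h2, mul_one]

theorem InJ0.one (R : Res c k) : InJ0 R (1 : G c) := by
  refine ⟨IwM.one, ?_, ?_, ?_⟩
  · rw [inv_one]
    exact IwM.one
  · change R.tau (R.tau (R.tau (R.rr0 1))) = R.rr0 1
    rw [R.rr_one.1, map_one, map_one, map_one]
  · change R.tau (R.tau (R.tau (R.rr1 1))) = R.rr1 1
    rw [R.rr_one.2.1, map_zero, map_zero, map_zero]

theorem InJ0.mul {R : Res c k} {g h : G c} (hg : InJ0 R g) (hh : InJ0 R h) : InJ0 R (g * h) := by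
  refine ⟨?_, ?_, ?_, ?_⟩
  · exact hg.iw.mul hh.iw
  · rw [mul_inv_rev]
    exact hh.iwi.mul hg.iwi
  · change R.tau (R.tau (R.tau (R.rr0 (g.val * h.val)))) = R.rr0 (g.val * h.val)
    rw [R.rr0_mul hg.iw hh.iw, map_mul, map_mul, map_mul, hg.f0, hh.f0]
  · change R.tau (R.tau (R.tau (R.rr1 (g.val * h.val)))) = R.rr1 (g.val * h.val)
    rw [R.rr1_mul hg.iw hh.iw]
    simp only [map_mul, map_add, hg.f0, hh.f0, hg.f1, hh.f1]

theorem InJ0.inv {R : Res c k} {g : G c} (hg : InJ0 R g) : InJ0 R g⁻¹ := by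
  have h1 := InJ0.inv0 (R := R) hg.iw hg.iwi
  have h2 : R.rr1 (g⁻¹ : G c).val = -(R.rr0 (g⁻¹ : G c).val * R.rr1 g.val *
      R.tau (R.rr0 (g⁻¹ : G c).val)) := by
    have h3 := R.rr1_mul hg.iw hg.iwi
    have h4 : g.val * (g⁻¹ : G c).val = 1 := g.mul_inv
    rw [h4, R.rr_one.2.1] at h3
    have h5 : R.rr0 (g⁻¹ : G c).val * 0 = R.rr0 (g⁻¹ : G c).val * (R.rr0 g.val * R.rr1 (g⁻¹ : G c).val
      + R.rr1 g.val * R.tau (R.rr0 (g⁻¹ : G c).val)) := by rw [h3]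
    linear_combination -h5 - R.rr1 (g⁻¹ : G c).val * h1
  refine ⟨hg.iwi, ?_, hg.fi0, ?_⟩
  · rw [inv_inv]
    exact hg.iw
  · rw [h2]
    simp only [map_neg, map_mul, hg.fi0, hg.f1]

/-- the exponent of the character of `J0` -/
def ex (R : Res c k) (e : k × k) (g : G c) : k × k :=
  FF R.tau e (R.rr0 (g⁻¹ : G c).val * R.rr1 g.val) (R.rr0 (g⁻¹ : G c).val * R.rr2 g.val)
    (R.rr0 (g⁻¹ : G c).val * R.rr3 g.val)

/-- the idempotent-like element of trace one in `k × k` -/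
theorem exists_e (R : Res c k) : ∃ e : k × k, R.tau (R.tau (R.tau e)) = e ∧
    e + R.tau e + R.tau (R.tau e) = 1 := by
  obtain ⟨e, he⟩ := R.exists_tr
  refine ⟨(e, R.S (R.S e)), ?_, ?_⟩
  · apply Prod.ext
    · change R.S (R.S (R.S e)) = e
      exact R.S3 e
    · rfl
  · apply Prod.ext
    · change e + R.S (R.S e) + R.S e = 1
      rw [← he]
      ring
    · change R.S (R.S e) + R.S e + R.S (R.S (R.S e)) = 1
      rw [R.S3, ← he]
      ring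

/-- Data of the character. -/
structure CD (c : Dat K) (k : Type) [Field k] where
  R : Res c k
  C : Chr c
  lk : k → ℂ
  lkadd : ∀ x y, lk (x + y) = lk x * lk y
  lkS : ∀ x, lk (R.S x) = lk x
  lkr : ∀ x ∈ c.A, lk (R.r x) = C.lam x
  lk0 : lk 0 = 1
  e : k × k
  e3 : R.tau (R.tau (R.tau e)) = e
  etr : e + R.tau e + R.tau (R.tau e) = 1

namespace CD

variable (D : CD c k)

/-- the character on `k × k` -/
def LL (x : k × k) : ℂ := D.lk (x.1 + x.2)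

theorem LL_add (x y : k × k) : D.LL (x + y) = D.LL x * D.LL y := by
  change D.lk ((x.1 + y.1) + (x.2 + y.2)) = _
  rw [add_add_add_comm, D.lkadd]
  rfl

theorem LL_zero : D.LL 0 = 1 := by
  change D.lk (0 + 0) = 1
  rw [add_zero, D.lk0]

theorem LL_tau (x : k × k) : D.LL (D.R.tau x) = D.LL x := by
  change D.lk (x.2 + D.R.S x.1) = D.lk (x.1 + x.2)
  rw [D.lkadd, D.lkadd, D.lkS, mul_comm]

/-- the character of `J0` -/
def L0 (g : G c) : ℂ := D.LL (ex D.R D.e g)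

theorem L0_mul {g h : G c} (hg : InJ0 D.R g) (hh : InJ0 D.R h) : D.L0 (g * h) = D.L0 g * D.L0 h := by
  have key := FF_char D.R.tau D.e D.e3 D.etr D.LL D.LL_zero D.LL_add D.LL_tau
    (D.R.rr0 g.val) (D.R.rr1 g.val) (D.R.rr2 g.val) (D.R.rr3 g.val)
    (D.R.rr0 h.val) (D.R.rr1 h.val) (D.R.rr2 h.val) (D.R.rr3 h.val)
    (D.R.rr0 (g⁻¹ : G c).val) (D.R.rr0 (h⁻¹ : G c).val)
    (InJ0.inv0 hg.iw hg.iwi) (InJ0.inv0 hh.iw hh.iwi) hg.f0 hg.f1 hh.f0 hh.f1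
  have hinv : D.R.rr0 ((g * h)⁻¹ : G c).val = D.R.rr0 (g⁻¹ : G c).val * D.R.rr0 (h⁻¹ : G c).val := by
    rw [mul_inv_rev]
    change D.R.rr0 ((h⁻¹ : G c).val * (g⁻¹ : G c).val) = _
    rw [D.R.rr0_mul hh.iwi hg.iwi, mul_comm]
  have hv : (g * h).val = g.val * h.val := rfl
  change D.LL (ex D.R D.e (g * h)) = _
  rw [ex, hinv, hv, D.R.rr1_mul hg.iw hh.iw, D.R.rr2_mul hg.iw hh.iw, D.R.rr3_mul hg.iw hh.iw]
  exact key

theorem lk_ne (x : k) : D.lk x ≠ 0 := by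
  intro h
  have h1 := D.lkadd x (-x)
  rw [add_neg_cancel, D.lk0, h, zero_mul] at h1
  exact one_ne_zero h1

theorem L0_ne (g : G c) : D.L0 g ≠ 0 := D.lk_ne _

end CD

theorem exists_CD (c : Dat K) (C : Chr c) : ∃ (k : Type) (_ : Field k) (_ : Finite k),
    ∃ D : CD c k, D.C = C := by
  obtain ⟨k, i1, i2, ⟨R⟩⟩ := exists_res c
  obtain ⟨lk, h1, h2, h3, _, h5⟩ := C.exists_lk R
  obtain ⟨e, he, he'⟩ := exists_e R
  exact ⟨k, i1, i2, ⟨R, C, lk, h1, h2, h3, h5, e, he, he'⟩, rfl⟩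

end Pool.Agent.Helper42.WD
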