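import Pool.Agent.Helper42.WD.Cof

namespace Pool.Agent.Helper42.WD

variable {K : Type} [Field K] {c : Dat K}

/-- multiplication by a power of `pi` on `F` -/
def piF (c : Dat K) (e : ℤ) : c.F := ⟨c.pi ^ e, c.sigpow e⟩

/-- the trace from `K` to `F` -/
def trK (c : Dat K) (x : K) : c.F :=
  ⟨x + c.sig x + c.sig (c.sig x), by
    change c.sig _ = _
    rw [map_add, map_add, c.sig3]
    ring⟩

theorem trK_add (x y : K) : trK c (x + y) = trK c x + trK c y := by
  apply Subtype.ext
  change _ = (x + c.sig x + c.sig (c.sig x)) + (y + c.sig y + c.sig (c.sig y))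
  change (x + y) + c.sig (x + y) + c.sig (c.sig (x + y)) = _
  rw [map_add, map_add]
  ring

theorem trK_zero : trK c 0 = 0 := by
  apply Subtype.ext
  change (0 : K) + c.sig 0 + c.sig (c.sig 0) = 0
  rw [map_zero, map_zero]
  ring

theorem trK_sig (x : K) : trK c (c.sig x) = trK c x := by
  apply Subtype.ext
  change c.sig x + c.sig (c.sig x) + c.sig (c.sig (c.sig x)) = x + c.sig x + c.sig (c.sig x)
  rw [c.sig3]
  ring

/-- Normalization of the additive character. -/
theorem exists_chr (φ : AddChar c.F ℂ) (h1 : φ ≠ 1)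
    (h2 : ∃ n : ℕ, ∀ x : c.F, (x : K) / c.pi ^ n ∈ c.A → φ x = 1) :
    ∃ (e : ℤ) (C : Chr c), ∀ x : Cyc c, φ (trd c x) = C.mu ((⟨c.pi ^ e, 0, 0⟩ : Cyc c) * x) := by
  classical
  obtain ⟨N, hN⟩ := h2
  obtain ⟨x0, hx0⟩ : ∃ x, φ x ≠ 1 := by
    by_contra hcon
    push Not at hcon
    apply h1
    ext x
    exact hcon x
  have hx0ne : (x0 : K) ≠ 0 := by
    intro h
    apply hx0
    have : x0 = 0 := Subtype.ext h
    rw [this, AddChar.map_zero_eq_one]
  obtain ⟨m0, _, _, hm0⟩ := c.ord _ hx0ne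
  -- the set of levels on which phi is trivial
  have hex : ∃ n : ℕ, ∀ x : c.F, (x : K) / c.pi ^ (m0 + (n : ℤ)) ∈ c.A → φ x = 1 := by
    refine ⟨((N : ℤ) - m0).toNat, ?_⟩
    intro x hx
    apply hN
    have h3 := c.mono hx (n := (N : ℤ)) (by omega)
    rwa [zpow_natCast] at h3
  set n := Nat.find hex with hn
  have hn1 := Nat.find_spec hex
  rw [← hn] at hn1
  have hnpos : n ≠ 0 := by
    intro h0
    apply hx0
    apply hn1
    rw [h0]
    exact (hm0 _).2 (by simp)
  have hn2 : ¬ ∀ x : c.F, (x : K) / c.pi ^ (m0 + ((n - 1 : ℕ) : ℤ)) ∈ c.A → φ x = 1 :=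
    Nat.find_min hex (by omega)
  push Not at hn2
  obtain ⟨y0, hy0, hy0'⟩ := hn2
  set e : ℤ := m0 + ((n - 1 : ℕ) : ℤ) with he
  have he1 : m0 + (n : ℤ) = e + 1 := by
    rw [he]
    have : ((n - 1 : ℕ) : ℤ) = (n : ℤ) - 1 := by
      have : 1 ≤ n := by omega
      push_cast [this]
      ring
    rw [this]
    ring
  rw [he1] at hn1
  obtain ⟨k, _, _, ⟨R⟩⟩ := exists_res c
  obtain ⟨ε, hε⟩ := R.exists_tr
  let C : Chr c :=
    { lam := fun x => φ (piF c e * trK c x)
      ladd := by
        intro x y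
        rw [trK_add, mul_add, AddChar.map_add_eq_mul]
      lzero := by
        rw [trK_zero, mul_zero, AddChar.map_zero_eq_one]
      lsig := by
        intro x
        rw [trK_sig]
      ltriv := by
        intro x hx
        apply hn1
        change c.pi ^ e * (x + c.sig x + c.sig (c.sig x)) / c.pi ^ (e + 1) ∈ c.A
        have hpe : c.pi ^ e ≠ 0 := zpow_ne_zero _ c.pine
        have h3 : c.pi ^ e * (x + c.sig x + c.sig (c.sig x)) / c.pi ^ (e + 1) =
            x / c.pi + c.sig (x / c.pi) + c.sig (c.sig (x / c.pi)) := by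
          rw [map_div₀, map_div₀, c.sigpi, c.sigpi, zpow_add_one₀ c.pine]
          have := c.pine
          field_simp
        rw [h3]
        exact c.A.add_mem (c.A.add_mem hx (c.sigA _ hx)) (c.sigA _ (c.sigA _ hx))
      lnt := by
        -- y0 = pi ^ e z with z in A fixed by sig ; choose x with residue eps * r z
        set z : K := (y0 : K) / c.pi ^ e with hz
        have hzs : c.sig z = z := by
          rw [hz, map_div₀, c.sigpow]
          congr 1
          exact y0.2
        obtain ⟨x, hxA, hx⟩ := R.rsur (ε * R.r z)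
        refine ⟨x, hxA, ?_⟩
        intro hcon
        apply hy0'
        have hSz : R.S (R.r z) = R.r z := by rw [← R.rsig _ hy0, hzs]
        have hsx := c.sigA _ hxA
        have hssx := c.sigA _ hsx
        have htr : x + c.sig x + c.sig (c.sig x) - z ∈ c.A :=
          c.A.sub_mem (c.A.add_mem (c.A.add_mem hxA hsx) hssx) hy0
        have h3 : R.r (x + c.sig x + c.sig (c.sig x) - z) = 0 := by
          rw [sub_eq_add_neg, R.radd _ (c.A.add_mem (c.A.add_mem hxA hsx) hssx) _ (c.A.neg_mem hy0),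
            R.radd _ (c.A.add_mem hxA hsx) _ hssx, R.radd _ hxA _ hsx, R.rneg hy0, R.rsig _ hsx,
            R.rsig _ hxA, hx, map_mul, map_mul, hSz, hSz]
          linear_combination (R.r z) * hε
        have h4 := (R.rker _ htr).1 h3
        have h5 : φ (piF c e * trK c x - y0) = 1 := by
          apply hn1
          change (c.pi ^ e * (x + c.sig x + c.sig (c.sig x)) - (y0 : K)) / c.pi ^ (e + 1) ∈ c.A
          have hpe : c.pi ^ e ≠ 0 := zpow_ne_zero _ c.pine
          have h6 : (c.pi ^ e * (x + c.sig x + c.sig (c.sig x)) - (y0 : K)) / c.pi ^ (e + 1) =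
              (x + c.sig x + c.sig (c.sig x) - z) / c.pi := by
            rw [hz, zpow_add_one₀ c.pine]
            have := c.pine
            field_simp
          rw [h6]
          exact h4
        have h7 : y0 = piF c e * trK c x - (piF c e * trK c x - y0) := by ring
        rw [h7, AddChar.map_sub_eq_div, h5, hcon, div_one] }
  refine ⟨-e, C, ?_⟩
  intro x
  change φ (trd c x) = φ (piF c e * trK c ((⟨c.pi ^ (-e), 0, 0⟩ : Cyc c) * x).x0)
  congr 1
  apply Subtype.ext
  change x.x0 + c.sig x.x0 + c.sig (c.sig x.x0) = c.pi ^ e * (_ + c.sig _ + c.sig (c.sig _))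
  have h8 : ((⟨c.pi ^ (-e), 0, 0⟩ : Cyc c) * x).x0 = c.pi ^ (-e) * x.x0 := by
    simp
  have hpe : c.pi ^ e ≠ 0 := zpow_ne_zero _ c.pine
  rw [h8, map_mul, map_mul, c.sigpow, c.sigpow, zpow_neg]
  field_simp

end Pool.Agent.Helper42.WD
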